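import Pool.Agent.NH3.XS.Stm

/-!
# XS-1 APX: a p-adic point can be replaced by one with x = X / p ^ (2 m)
-/

set_option autoImplicit false

open scoped Classical

namespace Pool.Agent.NH3.XS

open Pool.Agent.W307.SE (Loc Sel)

namespace APX

variable {p : ℕ} [hp : Fact p.Prime]

theorem norm_four : ‖(4 : ℚ_[p])‖ = ‖(2 : ℚ_[p])‖ ^ 2 := by
  rw [← norm_pow]; norm_num

theorem norm_four_le : ‖(4 : ℚ_[p])‖ ≤ 1 := by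
  have h := Padic.norm_int_le_one (p := p) 4
  simpa using h

/-- elements near `1` are squares -/
theorem sq_near_one (u : ℚ_[p]) (hu : ‖u - 1‖ < ‖(4 : ℚ_[p])‖) :
    ∃ c : ℚ_[p], c ≠ 0 ∧ u = c ^ 2 := by
  have h1 : ‖u - 1‖ < 1 := hu.trans_le norm_four_le
  have hun : ‖u‖ ≤ 1 := by
    have h2 := Padic.nonarchimedean (u - 1) 1
    rw [sub_add_cancel, norm_one] at h2
    exact h2.trans (max_le h1.le le_rfl)
  have hu0 : u ≠ 0 := by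
    rintro rfl
    rw [zero_sub, norm_neg, norm_one] at h1
    exact lt_irrefl _ h1
  set v : ℤ_[p] := ⟨u, hun⟩ with hv
  set F : Polynomial ℤ_[p] := Polynomial.X ^ 2 - Polynomial.C v with hF
  have e1 : F.aeval (1 : ℤ_[p]) = 1 - v := by simp [hF]
  have e2 : F.derivative.aeval (1 : ℤ_[p]) = 2 := by
    simp [hF]
    norm_num
  obtain ⟨z, hz, -⟩ := hensels_lemma (p := p) (F := F) (a := (1 : ℤ_[p])) (by
    rw [e1, e2]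
    have a1 : ‖(1 - v : ℤ_[p])‖ = ‖u - 1‖ := by
      rw [PadicInt.norm_def, ← norm_neg]
      congr 1
      push_cast
      rw [hv]
      ring
    have a2 : ‖(2 : ℤ_[p])‖ = ‖(2 : ℚ_[p])‖ := by
      rw [PadicInt.norm_def]
      rfl
    rw [a1, a2, ← norm_four]
    exact hu)
  have hz1 : (z : ℚ_[p]) ^ 2 = u := by
    have h2 : z ^ 2 - v = 0 := by simpa [hF] using hz
    have h3 : ((z ^ 2 - v : ℤ_[p]) : ℚ_[p]) = 0 := by rw [h2]; rfl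
    push_cast at h3
    rw [hv] at h3
    exact sub_eq_zero.1 h3
  refine ⟨z, ?_, hz1.symm⟩
  rintro h2
  rw [h2] at hz1
  apply hu0
  rw [← hz1]
  ring

theorem near {z x : ℚ_[p]} (hx : x ≠ 0) (h : ‖z - x‖ < ‖(4 : ℚ_[p])‖ * ‖x‖) :
    ∃ c : ℚ_[p], c ≠ 0 ∧ z = x * c ^ 2 := by
  have hxn : 0 < ‖x‖ := norm_pos_iff.2 hx
  obtain ⟨c, hc, hc2⟩ := sq_near_one (z / x) (by
    have : z / x - 1 = (z - x) / x := by field_simp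
    rw [this, norm_div, div_lt_iff₀ hxn]
    exact h)
  refine ⟨c, hc, ?_⟩
  rw [← hc2]
  field_simp

/-- approximation by numbers `X / p ^ (2 m)` -/
theorem appr (x : ℚ_[p]) (e : ℝ) (he : 0 < e) :
    ∃ (m : ℕ) (X : ℤ), ‖(X : ℚ_[p]) / ((p : ℚ_[p]) ^ m) ^ 2 - x‖ < e := by
  have hp1 : (1 : ℝ) < p := by exact_mod_cast hp.out.one_lt
  obtain ⟨m, hm⟩ := pow_unbounded_of_one_lt ‖x‖ hp1
  have hp0 : (p : ℚ_[p]) ≠ 0 := by exact_mod_cast hp.out.ne_zero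
  have hP0 : ((p : ℚ_[p]) ^ m) ^ 2 ≠ 0 := pow_ne_zero _ (pow_ne_zero _ hp0)
  have hPn : 0 < ‖((p : ℚ_[p]) ^ m) ^ 2‖ := norm_pos_iff.2 hP0
  have hx1 : ‖x * ((p : ℚ_[p]) ^ m) ^ 2‖ ≤ 1 := by
    rw [norm_mul, norm_pow, norm_pow, Padic.norm_p, inv_pow]
    have h0 : (0 : ℝ) < (p : ℝ) ^ m := by positivity
    have h1 : (1 : ℝ) ≤ (p : ℝ) ^ m := one_le_pow₀ hp1.le
    rw [inv_pow, ← div_eq_mul_inv, div_le_one (by positivity)]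
    nlinarith
  obtain ⟨x', hx'⟩ : ∃ x' : ℤ_[p], (x' : ℚ_[p]) = x * ((p : ℚ_[p]) ^ m) ^ 2 :=
    ⟨⟨x * ((p : ℚ_[p]) ^ m) ^ 2, hx1⟩, rfl⟩
  obtain ⟨X, hX⟩ := (PadicInt.denseRange_intCast (p := p)).exists_dist_lt x' (mul_pos he hPn)
  refine ⟨m, X, ?_⟩
  rw [dist_comm, dist_eq_norm, PadicInt.norm_def] at hX
  push_cast at hX
  rw [hx'] at hX
  have h2 : (X : ℚ_[p]) / ((p : ℚ_[p]) ^ m) ^ 2 - x =
      (X - x * ((p : ℚ_[p]) ^ m) ^ 2) / ((p : ℚ_[p]) ^ m) ^ 2 := by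
    field_simp
  rw [h2, norm_div, div_lt_iff₀ hPn]
  exact hX

end APX

open APX in
theorem t_APX : S_APX := by
  intro p hp A B d1 d3 _ _ h
  obtain ⟨x, y, hy, hE, ⟨s1, hs1⟩, ⟨s3, hs3⟩⟩ := h
  have hy2 : x * (x - A) * (x - B) ≠ 0 := by
    rw [← hE]
    exact pow_ne_zero 2 hy
  have hx : x ≠ 0 := fun h0 => hy2 (by rw [h0]; ring)
  have hxA : x - A ≠ 0 := fun h0 => hy2 (by rw [h0]; ring)
  have hxB : x - B ≠ 0 := fun h0 => hy2 (by rw [h0]; ring)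
  have h4 : 0 < ‖(4 : ℚ_[p])‖ := norm_pos_iff.2 (by norm_num)
  obtain ⟨e, he0, he1, he2, he3⟩ : ∃ e : ℝ, 0 < e ∧ e ≤ ‖(4 : ℚ_[p])‖ * ‖x‖ ∧
      e ≤ ‖(4 : ℚ_[p])‖ * ‖x - A‖ ∧ e ≤ ‖(4 : ℚ_[p])‖ * ‖x - B‖ := by
    refine ⟨min (‖(4 : ℚ_[p])‖ * ‖x‖) (min (‖(4 : ℚ_[p])‖ * ‖x - A‖) (‖(4 : ℚ_[p])‖ * ‖x - B‖)),
      lt_min (mul_pos h4 (norm_pos_iff.2 hx)) (lt_min (mul_pos h4 (norm_pos_iff.2 hxA))
        (mul_pos h4 (norm_pos_iff.2 hxB))), min_le_left _ _,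
      (min_le_right _ _).trans (min_le_left _ _), (min_le_right _ _).trans (min_le_right _ _)⟩
  obtain ⟨m, X, hX⟩ := appr x e he0
  have hp0 : (p : ℚ_[p]) ≠ 0 := by exact_mod_cast hp.out.ne_zero
  have hPm : (p : ℚ_[p]) ^ m ≠ 0 := pow_ne_zero _ hp0
  obtain ⟨z, hz⟩ : ∃ z : ℚ_[p], z = (X : ℚ_[p]) / ((p : ℚ_[p]) ^ m) ^ 2 := ⟨_, rfl⟩
  rw [← hz] at hX
  have hXz : (X : ℚ_[p]) = z * ((p : ℚ_[p]) ^ m) ^ 2 := by
    rw [hz]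
    field_simp
  obtain ⟨c, hc, hzc⟩ := near hx (hX.trans_le he1)
  obtain ⟨cA, hcA, hzA⟩ := near (z := z - (A : ℚ_[p])) hxA (by
    rw [sub_sub_sub_cancel_right]
    exact hX.trans_le he2)
  obtain ⟨cB, hcB, hzB⟩ := near (z := z - (B : ℚ_[p])) hxB (by
    rw [sub_sub_sub_cancel_right]
    exact hX.trans_le he3)
  have hprod : ((X * (X - A * ((p : ℤ) ^ m) ^ 2) * (X - B * ((p : ℤ) ^ m) ^ 2) : ℤ) : ℚ_[p]) =
      (y * c * cA * cB * ((p : ℚ_[p]) ^ m) ^ 3) * (y * c * cA * cB * ((p : ℚ_[p]) ^ m) ^ 3) := by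
    push_cast
    have e1 : (X : ℚ_[p]) - A * ((p : ℚ_[p]) ^ m) ^ 2 = (z - A) * ((p : ℚ_[p]) ^ m) ^ 2 := by
      rw [hXz]; ring
    have e2 : (X : ℚ_[p]) - B * ((p : ℚ_[p]) ^ m) ^ 2 = (z - B) * ((p : ℚ_[p]) ^ m) ^ 2 := by
      rw [hXz]; ring
    rw [e1, e2, hXz, hzA, hzB, hzc]
    linear_combination (-(c * cA * cB * ((p : ℚ_[p]) ^ m) ^ 3) ^ 2) * hE
  refine ⟨m, X, ?_, ⟨s1 * c * (p : ℚ_[p]) ^ m, ?_⟩, ⟨s3 * cA * (p : ℚ_[p]) ^ m, ?_⟩, ⟨_, hprod⟩⟩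
  · intro h0
    rw [h0, Int.cast_zero] at hprod
    have h1 : y * c * cA * cB * ((p : ℚ_[p]) ^ m) ^ 3 ≠ 0 :=
      mul_ne_zero (mul_ne_zero (mul_ne_zero (mul_ne_zero hy hc) hcA) hcB) (pow_ne_zero _ hPm)
    exact mul_ne_zero h1 h1 hprod.symm
  · push_cast
    rw [hXz, hzc]
    linear_combination (c ^ 2 * ((p : ℚ_[p]) ^ m) ^ 2) * hs1
  · push_cast
    have e1 : (X : ℚ_[p]) - A * ((p : ℚ_[p]) ^ m) ^ 2 = (z - A) * ((p : ℚ_[p]) ^ m) ^ 2 := by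
      rw [hXz]; ring
    rw [e1, hzA]
    linear_combination (cA ^ 2 * ((p : ℚ_[p]) ^ m) ^ 2) * hs3

end Pool.Agent.NH3.XS
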