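import Pool.Agent.NH3.XS.Stm

/-!
# Project XS: the number of the classes `d₁`, `D = 1` modulo `4`
-/

set_option autoImplicit false

open scoped Classical

namespace Pool.Agent.NH3.XS

open Finset
open Pool.Agent.Y703.CQ (nr)
open Pool.Agent.NH4.XG (nx Ram SolG)

namespace ASa68

/-- the sign of a class modulo `2` -/
def sg (x : ZMod 2) : ℤ := if x = 0 then 1 else -1

lemma sg_add : ∀ x y : ZMod 2, sg (x + y) = sg x * sg y := by decide

lemma sg_inj : ∀ x y : ZMod 2, sg x = sg y → x = y := by decide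

lemma sg_one : ∀ x : ZMod 2, sg x = 1 ↔ x = 0 := by decide

lemma sg_sum (T : Finset ℕ) (g : ℕ → ZMod 2) : sg (∑ p ∈ T, g p) = ∏ p ∈ T, sg (g p) := by
  induction T using Finset.induction_on with
  | empty => rfl
  | insert a T ha ih => rw [Finset.sum_insert ha, Finset.prod_insert ha, sg_add, ih]

lemma J_prod (q : ℕ) (T : Finset ℕ) (g : ℕ → ℤ) :
    jacobiSym (∏ p ∈ T, g p) q = ∏ p ∈ T, jacobiSym (g p) q := by
  induction T using Finset.induction_on with
  | empty => simp [jacobiSym.one_left]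
  | insert a T ha ih => rw [Finset.prod_insert ha, Finset.prod_insert ha, jacobiSym.mul_left, ih]

lemma J_nr {p q : ℕ} (hp : p.Prime) (hq : q.Prime) (hpq : p ≠ q) :
    jacobiSym (q : ℤ) p = sg (nr p q) := by
  haveI := Fact.mk hp
  have h0 : ((q : ℤ) : ZMod p) ≠ 0 := by
    intro h
    rw [Int.cast_natCast, ZMod.natCast_eq_zero_iff] at h
    exact hpq ((Nat.prime_dvd_prime_iff_eq hp hq).1 h)
  rw [← jacobiSym.legendreSym.to_jacobiSym]
  unfold nr sg
  have e : (((q : ℤ) : ZMod p)) = ((q : ℕ) : ZMod p) := by push_cast; rfl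
  by_cases hs : IsSquare ((q : ℕ) : ZMod p)
  · rw [if_pos hs, if_pos rfl, legendreSym.eq_one_iff p h0, e]
    exact hs
  · rw [if_neg hs, if_neg (by decide)]
    rcases legendreSym.eq_one_or_neg_one p h0 with h | h
    · rw [legendreSym.eq_one_iff p h0, e] at h
      exact absurd h hs
    · exact h

/-- quadratic reciprocity -/
lemma J_ps {p q : ℕ} (hp : p % 4 = 1 ∨ p % 4 = 3) (hq : q % 4 = 1 ∨ q % 4 = 3) :
    jacobiSym (ps p) q = jacobiSym (q : ℤ) p := by
  have hqo : Odd q := Nat.odd_iff.2 (by omega)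
  have hpo : Odd p := Nat.odd_iff.2 (by omega)
  unfold ps
  rcases hp with hp | hp
  · rw [if_pos hp]
    exact jacobiSym.quadratic_reciprocity_one_mod_four hp hqo
  · rw [if_neg (by omega), jacobiSym.neg _ hqo]
    rcases hq with hq | hq
    · rw [ZMod.χ₄_nat_one_mod_four hq, one_mul]
      exact (jacobiSym.quadratic_reciprocity_one_mod_four hq hpo).symm
    · rw [ZMod.χ₄_nat_three_mod_four hq, jacobiSym.quadratic_reciprocity_three_mod_four hp hq]
      ring

/-- the sign `ps q / q` -/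
def es (q : ℕ) : ℤ := if q % 4 = 1 then 1 else -1

lemma ps_eq (q : ℕ) : ps q = es q * q := by
  unfold ps es
  split_ifs <;> ring

lemma es_sq (q : ℕ) : es q * es q = 1 := by
  unfold es
  split_ifs <;> norm_num

lemma ps_natAbs (q : ℕ) : (ps q).natAbs = q := by
  unfold ps
  split_ifs <;> simp

lemma ps_mod {q : ℕ} (hq : q % 4 = 1 ∨ q % 4 = 3) : ps q % 4 = 1 := by
  unfold ps
  split_ifs <;> omega

lemma J_es {q : ℕ} (hq : q % 4 = 1 ∨ q % 4 = 3) : jacobiSym (-es q) q = 1 := by
  have hqo : Odd q := Nat.odd_iff.2 (by omega)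
  unfold es
  rcases hq with hq | hq
  · rw [if_pos hq, jacobiSym.neg _ hqo, ZMod.χ₄_nat_one_mod_four hq, jacobiSym.one_left]
    rfl
  · rw [if_neg (by omega), neg_neg, jacobiSym.one_left]

/-- the number of a set of primes -/
def ff (T : Finset ℕ) : ℤ := ∏ p ∈ T, ps p

lemma ff_natAbs (T : Finset ℕ) : (ff T).natAbs = ∏ p ∈ T, p := by
  unfold ff
  induction T using Finset.induction_on with
  | empty => rfl
  | insert a T ha ih =>
    rw [Finset.prod_insert ha, Finset.prod_insert ha, Int.natAbs_mul, ih, ps_natAbs]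

lemma ff_mod (T : Finset ℕ) (h : ∀ p ∈ T, p % 4 = 1 ∨ p % 4 = 3) : ff T % 4 = 1 := by
  unfold ff
  induction T using Finset.induction_on with
  | empty => rfl
  | insert a T ha ih =>
    rw [Finset.prod_insert ha, Int.mul_emod, ih fun p hp => h p (Finset.mem_insert_of_mem hp),
      ps_mod (h a (Finset.mem_insert_self a T))]
    rfl

lemma ff_pf (T : Finset ℕ) (h : ∀ p ∈ T, p.Prime) : (ff T).natAbs.primeFactors = T := by
  rw [ff_natAbs]
  exact Nat.primeFactors_prod h

lemma dvd_ff (T : Finset ℕ) (h : ∀ p ∈ T, p.Prime) {p : ℕ} (hp : p.Prime) :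
    (p : ℤ) ∣ ff T ↔ p ∈ T := by
  rw [Int.natCast_dvd]
  conv_rhs => rw [← ff_pf T h]
  rw [Nat.mem_primeFactors]
  have h0 : (ff T).natAbs ≠ 0 := by
    rw [ff_natAbs]
    exact Finset.prod_ne_zero_iff.2 fun p hp => (h p hp).ne_zero
  constructor
  · intro h1
    exact ⟨hp, h1, h0⟩
  · intro h1
    exact h1.2.1

/-- two numbers which are `1` modulo `4` and have the same absolute value are equal -/
lemma eq_of_mod {a b : ℤ} (ha : a % 4 = 1) (hb : b % 4 = 1) (h : a.natAbs = b.natAbs) : a = b := by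
  rcases Int.natAbs_eq_natAbs_iff.1 h with h | h
  · exact h
  · omega

section

variable {D : ℤ} (hD0 : D < 0) (hD : Squarefree D) (hD4 : D % 4 = 1)

include hD in
lemma sq_nat : Squarefree D.natAbs := Int.squarefree_natAbs.2 hD

include hD in
lemma prodS : ∏ p ∈ D.natAbs.primeFactors, p = D.natAbs :=
  Nat.prod_primeFactors_of_squarefree (sq_nat hD)

include hD4 in
lemma odd_of {p : ℕ} (hp : p ∈ D.natAbs.primeFactors) : p % 4 = 1 ∨ p % 4 = 3 := by
  have h1 := Nat.dvd_of_mem_primeFactors hp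
  by_contra h2
  have h3 : 2 ∣ p := by omega
  have h4 : 2 ∣ D.natAbs := h3.trans h1
  omega

include hD hD4 in
lemma ffS : ff D.natAbs.primeFactors = D := by
  refine eq_of_mod (ff_mod _ fun p hp => odd_of hD4 hp) hD4 ?_
  rw [ff_natAbs, prodS hD]

include hD0 hD hD4 in
/-- the condition at `q` -/
lemma H1_iff (hSQ : S_SQ) {T : Finset ℕ} (hT : T ⊆ D.natAbs.primeFactors) {q : ℕ}
    [hqf : Fact q.Prime] (hq : q ∈ D.natAbs.primeFactors) :
    H1 q D (ff T) ↔ ∑ p ∈ T, me D.natAbs.primeFactors p q = 0 := by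
  obtain ⟨S, hS⟩ : ∃ S, S = D.natAbs.primeFactors := ⟨_, rfl⟩
  have hSp : ∀ p ∈ S, p.Prime := fun p hp => Nat.prime_of_mem_primeFactors (hS ▸ hp)
  have hSo : ∀ p ∈ S, p % 4 = 1 ∨ p % 4 = 3 := fun p hp => odd_of hD4 (hS ▸ hp)
  have hDS : ff S = D := by rw [hS]; exact ffS hD hD4
  rw [← hS] at hT hq ⊢
  have hTp : ∀ p ∈ T, p.Prime := fun p hp => hSp p (hT hp)
  have hq2 : q ≠ 2 := by
    have := hSo q hq
    rintro rfl
    omega
  have hqD : (q : ℤ) ∣ D := by
    rw [← hDS, dvd_ff S hSp hqf.out]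
    exact hq
  have hqq := hSo q hq
  have hsqT : Squarefree (ff T) := by
    rw [← Int.squarefree_natAbs, ff_natAbs]
    have h1 : Squarefree (∏ p ∈ S, p) := by
      rw [hS, prodS hD]
      exact sq_nat hD
    exact h1.squarefree_of_dvd (Finset.prod_dvd_prod_of_subset T S _ hT)
  rw [(hSQ q D (ff T) hq2 hD hsqT hqD).1]
  -- symbols of products
  have hJ : ∀ U ⊆ S, q ∉ U → jacobiSym (ff U) q = sg (∑ p ∈ U, nr p q) := by
    intro U hU hqU
    unfold ff
    rw [J_prod, sg_sum]
    refine Finset.prod_congr rfl fun p hp => ?_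
    rw [J_ps (hSo p (hU hp)) hqq, J_nr (hSp p (hU hp)) hqf.out fun h => hqU (h ▸ hp)]
  by_cases hqT : q ∈ T
  · rw [if_pos ((dvd_ff T hTp hqf.out).2 hqT)]
    have hq0 : (q : ℤ) ≠ 0 := by exact_mod_cast hqf.out.ne_zero
    have e1 : ff S = ps q * ff (S.erase q) := by
      unfold ff
      exact (Finset.mul_prod_erase S _ hq).symm
    have e2 : ff T = ps q * ff (T.erase q) := by
      unfold ff
      exact (Finset.mul_prod_erase T _ hqT).symm
    have e3 : D / q = es q * ff (S.erase q) := by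
      apply Int.ediv_eq_of_eq_mul_right hq0
      rw [← hDS, e1, ps_eq]
      ring
    have e4 : ff T / q = es q * ff (T.erase q) := by
      apply Int.ediv_eq_of_eq_mul_right hq0
      rw [e2, ps_eq]
      ring
    have e5 : D / q * (ff T / q) = ff (S.erase q) * ff (T.erase q) := by
      rw [e3, e4]
      linear_combination (ff (S.erase q) * ff (T.erase q)) * es_sq q
    have hSe : S.erase q ⊆ S := Finset.erase_subset _ _
    have hTe : T.erase q ⊆ S := (Finset.erase_subset _ _).trans hT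
    rw [e5, jacobiSym.mul_left, hJ _ hSe (Finset.notMem_erase _ _),
      hJ _ hTe (Finset.notMem_erase _ _), ← sg_add, sg_one]
    -- the symmetry
    have hX : ∑ p ∈ S.erase q, nr p q = ∑ p ∈ S.erase q, nr q p := by
      apply sg_inj
      rw [← hJ _ hSe (Finset.notMem_erase _ _), sg_sum]
      have h1 : ∏ p ∈ S.erase q, sg (nr q p) = jacobiSym (∏ p ∈ S.erase q, (p : ℤ)) q := by
        rw [J_prod]
        refine Finset.prod_congr rfl fun p hp => ?_
        rw [J_nr hqf.out (hSp p (hSe hp)) fun h => ?_]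
        exact (Finset.ne_of_mem_erase hp) h.symm
      rw [h1]
      have h2 : (q : ℤ) * ∏ p ∈ S.erase q, (p : ℤ) = -D := by
        rw [Finset.mul_prod_erase S (fun p : ℕ => (p : ℤ)) hq]
        have h3 : ((∏ p ∈ S, p : ℕ) : ℤ) = (D.natAbs : ℤ) := by rw [hS, prodS hD]
        push_cast at h3
        rw [h3]
        exact abs_of_neg hD0
      have h4 : ff (S.erase q) = -es q * ∏ p ∈ S.erase q, (p : ℤ) := by
        have h5 : (q : ℤ) * ff (S.erase q) = (q : ℤ) * (-es q * ∏ p ∈ S.erase q, (p : ℤ)) := by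
          have h6 : es q * q * ff (S.erase q) = D := by rw [← ps_eq, ← e1, hDS]
          linear_combination (es q) * h6 + (es q) * h2 - (q : ℤ) * ff (S.erase q) * es_sq q
        exact mul_left_cancel₀ hq0 h5
      rw [h4, jacobiSym.mul_left, J_es hqq, one_mul]
    rw [hX]
    have h7 : ∑ p ∈ T, me S p q = ∑ p ∈ S.erase q, nr q p + ∑ p ∈ T.erase q, nr p q := by
      rw [← Finset.add_sum_erase T _ hqT]
      congr 1
      · unfold me
        rw [if_pos rfl]
      · refine Finset.sum_congr rfl fun p hp => ?_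
        unfold me
        rw [if_neg (Finset.ne_of_mem_erase hp).symm]
    rw [h7]
  · rw [if_neg (fun h => hqT ((dvd_ff T hTp hqf.out).1 h)), hJ T hT hqT, sg_one]
    have h7 : ∑ p ∈ T, me S p q = ∑ p ∈ T, nr p q := by
      refine Finset.sum_congr rfl fun p hp => ?_
      unfold me
      rw [if_neg (show ¬ q = p from fun h => hqT (h ▸ hp))]
    rw [h7]

end

end ASa68

open ASa68 in
theorem t_ASa : S_AS 1 := by
  intro hSQ D hD0 hD hD4
  obtain ⟨S, hS⟩ : ∃ S, S = D.natAbs.primeFactors := ⟨_, rfl⟩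
  have hSp : ∀ p ∈ S, p.Prime := fun p hp => Nat.prime_of_mem_primeFactors (hS ▸ hp)
  have hSo : ∀ p ∈ S, p % 4 = 1 ∨ p % 4 = 3 := fun p hp => odd_of hD4 (hS ▸ hp)
  have hDS : ff S = D := by rw [hS]; exact ffS hD hD4
  obtain ⟨Fl, hFl⟩ : ∃ Fl : Finset (Finset ℕ), Fl = S.powerset.filter
      fun T => ∀ q ∈ S, ∑ p ∈ T, me S p q = 0 := ⟨_, rfl⟩
  have hnx : nxT D.natAbs.primeFactors = Fl.card := by
    rw [← hS, hFl]
    unfold nxT
    have hR : Ram S = S := by
      unfold Ram
      rw [hS, prodS hD, if_pos (by omega)]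
    rw [hR]
    congr 1
    ext T
    simp only [Finset.mem_filter, Finset.mem_powerset]
    refine and_congr_right fun hT => ?_
    refine forall₂_congr fun q _ => ?_
    have h1 : ∑ p ∈ T, mM S p q = ∑ p ∈ T, me S p q := by
      refine Finset.sum_congr rfl fun p hp => ?_
      unfold mM
      rw [if_neg]
      rintro rfl
      have := hSo 2 (hT hp)
      omega
    rw [h1]
  have hAS : AS D = ff '' (Fl : Set (Finset ℕ)) := by
    ext d
    constructor
    · rintro ⟨h1, h2, h3⟩
      have hd4 : d % 4 = 1 := by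
        rcases h2 with h2 | h2
        · exact h2.2
        · exact absurd hD4 h2.1
      have hd0 : d ≠ 0 := h1.ne_zero
      have hsub : d.natAbs.primeFactors ⊆ S := by
        intro p hp
        have hpp := Nat.prime_of_mem_primeFactors hp
        have hpd : (p : ℤ) ∣ d := Int.natCast_dvd.2 (Nat.dvd_of_mem_primeFactors hp)
        have hp2 : p ≠ 2 := by
          rintro rfl
          have : (2 : ℤ) ∣ d := by exact_mod_cast hpd
          omega
        haveI := Fact.mk hpp
        have h4 : (p : ℤ) ∣ D := by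
          by_contra h5
          exact (h3 p hp2).2 h5 hpd
        rw [← dvd_ff S hSp hpp, hDS]
        exact h4
      have hdf : ff d.natAbs.primeFactors = d := by
        refine eq_of_mod (ff_mod _ fun p hp => hSo p (hsub hp)) hd4 ?_
        rw [ff_natAbs]
        exact Nat.prod_primeFactors_of_squarefree (Int.squarefree_natAbs.2 h1)
      refine ⟨d.natAbs.primeFactors, ?_, hdf⟩
      rw [Finset.mem_coe, hFl, Finset.mem_filter, Finset.mem_powerset]
      refine ⟨hsub, fun q hq => ?_⟩
      haveI := Fact.mk (hSp q hq)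
      have hq2 : q ≠ 2 := by
        rintro rfl
        have := hSo 2 hq
        omega
      have hqD : (q : ℤ) ∣ D := by
        rw [← hDS, dvd_ff S hSp (hSp q hq)]
        exact hq
      have h5 := (h3 q hq2).1 hqD
      rw [← hdf, H1_iff hD0 hD hD4 hSQ (hS ▸ hsub) (hS ▸ hq), ← hS] at h5
      exact h5
    · rintro ⟨T, hT, rfl⟩
      rw [Finset.mem_coe, hFl, Finset.mem_filter, Finset.mem_powerset] at hT
      obtain ⟨hT1, hT2⟩ := hT
      have hTp : ∀ p ∈ T, p.Prime := fun p hp => hSp p (hT1 hp)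
      refine ⟨?_, Or.inl ⟨hD4, ff_mod T fun p hp => hSo p (hT1 hp)⟩, ?_⟩
      · rw [← Int.squarefree_natAbs, ff_natAbs]
        have h1 : Squarefree (∏ p ∈ S, p) := by
          rw [hS, prodS hD]
          exact sq_nat hD
        exact h1.squarefree_of_dvd (Finset.prod_dvd_prod_of_subset T S _ hT1)
      · intro q hqf hq2
        constructor
        · intro hqD
          have hq : q ∈ S := by
            rw [← dvd_ff S hSp hqf.out, hDS]
            exact hqD
          rw [H1_iff hD0 hD hD4 hSQ (hS ▸ hT1) (hS ▸ hq), ← hS]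
          exact hT2 q hq
        · intro hqD hqT
          apply hqD
          rw [dvd_ff T hTp hqf.out] at hqT
          rw [← hDS, dvd_ff S hSp hqf.out]
          exact hT1 hqT
  have hinj : Set.InjOn ff (Fl : Set (Finset ℕ)) := by
    intro T hT T' hT' h
    rw [Finset.mem_coe, hFl, Finset.mem_filter, Finset.mem_powerset] at hT hT'
    rw [← ff_pf T fun p hp => hSp p (hT.1 hp), ← ff_pf T' fun p hp => hSp p (hT'.1 hp), h]
  rw [hAS, hnx]
  refine ⟨(Finset.finite_toSet Fl).image ff, ?_⟩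
  rw [Set.InjOn.ncard_image hinj, Set.ncard_coe_finset]

end Pool.Agent.NH3.XS
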