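import Pool.Agent.NH3.XS.CSa

set_option autoImplicit false

/-!
# Project XS (helper3), the statement S_CS 3. Written by helper71.
-/

open scoped Classical

namespace Pool.Agent.NH3.XS.CSp

open Finset
open Pool.Agent.Y703.CQ (nr)
open Pool.Agent.NH4.XG (nx Ram SolG)

/-- Jacobi symbols over a product of primes -/
theorem jac_right (a : ℤ) (T : Finset ℕ) (hT : ∀ q ∈ T, q.Prime)
    (h : ∀ q ∈ T, jacobiSym a q = 1) : jacobiSym a (∏ q ∈ T, q) = 1 := by
  induction T using Finset.induction_on with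
  | empty => simp
  | insert b s hb ih =>
    rw [prod_insert hb, jacobiSym.mul_right' a (hT b (mem_insert_self _ _)).ne_zero
      (prod_ne_zero_iff.2 fun q hq => (hT q (mem_insert_of_mem hq)).ne_zero),
      ih (fun q hq => hT q (mem_insert_of_mem hq)) fun q hq => h q (mem_insert_of_mem hq),
      h b (mem_insert_self _ _), mul_one]

/-- the number theory: `w` is `0` or `1`, `c = 2 ^ w` -/
theorem arith (x y : ℕ) (hx : x % 2 = 1) (hy : y % 2 = 1) (hxy : (x * y) % 4 = 1)
    (w : ℕ) (hw : w ≤ 1) (h1 : jacobiSym (((2 ^ w * y : ℕ)) : ℤ) x = 1)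
    (h2 : jacobiSym (((2 ^ w * x : ℕ)) : ℤ) y = 1) :
    (2 ^ w * x) % 4 = 1 ∨ (2 ^ w * x) % 8 = (x * y + 1) % 8 := by
  have hcop : Int.gcd x y = 1 := by
    by_contra hne
    have h3 : jacobiSym (((2 ^ w * x : ℕ)) : ℤ) y = 0 := by
      rw [Nat.cast_mul, jacobiSym.mul_left]
      have : jacobiSym (x : ℤ) y = 0 := by
        rw [jacobiSym.eq_zero_iff]
        exact ⟨by omega, hne⟩
      rw [this, mul_zero]
    rw [h3] at h2
    norm_num at h2
  have hQR := jacobiSym.quadratic_reciprocity (a := x) (b := y) (Nat.odd_iff.2 hx)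
    (Nat.odd_iff.2 hy)
  have hsq : jacobiSym (y : ℤ) x * jacobiSym (y : ℤ) x = 1 := by
    have h3 : Int.gcd y x = 1 := by rwa [Int.gcd_comm]
    have := jacobiSym.sq_one (a := (y : ℤ)) (b := x) h3
    rwa [sq] at this
  have hprod : jacobiSym (x : ℤ) y * jacobiSym (y : ℤ) x = (-1) ^ (x / 2 * (y / 2)) := by
    rw [hQR, mul_assoc, hsq, mul_one]
  rcases Nat.lt_or_ge w 1 with hw0 | hw1
  · have : w = 0 := by omega
    subst this
    left
    simp only [pow_zero, one_mul] at h1 h2 ⊢
    rw [h1, h2, mul_one] at hprod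
    by_contra hcon
    have hx3 : x % 4 = 3 := by omega
    have hy3 : y % 4 = 3 := by
      rw [Nat.mul_mod, hx3] at hxy
      omega
    have ho : Odd (x / 2 * (y / 2)) := by
      rw [Nat.odd_mul, Nat.odd_iff, Nat.odd_iff]
      omega
    rw [ho.neg_one_pow] at hprod
    norm_num at hprod
  · have : w = 1 := by omega
    subst this
    right
    simp only [pow_one] at h1 h2 ⊢
    rw [Nat.cast_mul, jacobiSym.mul_left] at h1 h2
    have h3 : jacobiSym ((2 : ℕ) : ℤ) x * jacobiSym ((2 : ℕ) : ℤ) y =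
        (-1) ^ (x / 2 * (y / 2)) := by
      rw [← hprod]
      have h4 : jacobiSym ((2 : ℕ) : ℤ) x * jacobiSym ((2 : ℕ) : ℤ) y *
          (jacobiSym (x : ℤ) y * jacobiSym (y : ℤ) x) = 1 := by
        calc _ = (jacobiSym ((2 : ℕ) : ℤ) x * jacobiSym (y : ℤ) x) *
          (jacobiSym ((2 : ℕ) : ℤ) y * jacobiSym (x : ℤ) y) := by ring
          _ = 1 := by rw [h1, h2, mul_one]
      have h5 : (jacobiSym (x : ℤ) y * jacobiSym (y : ℤ) x) *
          (jacobiSym (x : ℤ) y * jacobiSym (y : ℤ) x) = 1 := by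
        rw [hprod, ← pow_add, ← two_mul, pow_mul]
        norm_num
      calc jacobiSym ((2 : ℕ) : ℤ) x * jacobiSym ((2 : ℕ) : ℤ) y
          = jacobiSym ((2 : ℕ) : ℤ) x * jacobiSym ((2 : ℕ) : ℤ) y *
            ((jacobiSym (x : ℤ) y * jacobiSym (y : ℤ) x) *
            (jacobiSym (x : ℤ) y * jacobiSym (y : ℤ) x)) := by rw [h5, mul_one]
        _ = jacobiSym ((2 : ℕ) : ℤ) x * jacobiSym ((2 : ℕ) : ℤ) y *
            (jacobiSym (x : ℤ) y * jacobiSym (y : ℤ) x) *
            (jacobiSym (x : ℤ) y * jacobiSym (y : ℤ) x) := by ring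
        _ = _ := by rw [h4, one_mul]
    have hx0 : x ≠ 0 := by omega
    have hy0 : y ≠ 0 := by omega
    rw [← jacobiSym.mul_right' _ hx0 hy0] at h3
    have hodd : Odd (x * y) := by
      rw [Nat.odd_iff]
      omega
    rw [show ((2 : ℕ) : ℤ) = 2 by norm_num, jacobiSym.at_two hodd] at h3
    rw [ZMod.χ₈_nat_eq_if_mod_eight] at h3
    have hx4 : x % 4 = 1 ∨ x % 4 = 3 := by omega
    have hy4 : y % 4 = x % 4 := by
      rcases hx4 with h | h
      · rw [Nat.mul_mod, h] at hxy
        omega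
      · rw [Nat.mul_mod, h] at hxy
        omega
    rcases hx4 with h | h
    · have he : Even (x / 2 * (y / 2)) := by
        rw [Nat.even_mul]
        left
        rw [Nat.even_iff]
        omega
      rw [he.neg_one_pow] at h3
      have : (x * y) % 8 = 1 := by
        by_contra hcon
        have h5 : (x * y) % 8 = 5 := by omega
        rw [h5] at h3
        norm_num at h3
        omega
      omega
    · have ho : Odd (x / 2 * (y / 2)) := by
        rw [Nat.odd_mul, Nat.odd_iff, Nat.odd_iff]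
        omega
      rw [ho.neg_one_pow] at h3
      have : (x * y) % 8 = 5 := by
        by_contra hcon
        have h5 : (x * y) % 8 = 1 := by omega
        rw [h5] at h3
        norm_num at h3
        omega
      omega

end Pool.Agent.NH3.XS.CSp

namespace Pool.Agent.NH3.XS

open Finset
open Pool.Agent.Y703.CQ (nr)
open Pool.Agent.NH4.XG (nx Ram SolG)
open CSp

theorem t_CSb : S_CS 3 := by
  intro hSQ D hD hsq hD4
  have hN : ∏ q ∈ D.natAbs.primeFactors, q = D.natAbs :=
    Nat.prod_primeFactors_of_squarefree (Int.squarefree_natAbs.2 hsq)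
  have hR : Ram D.natAbs.primeFactors = insert 2 D.natAbs.primeFactors := by
    unfold Ram
    rw [hN, if_neg]
    omega
  have h2 : 2 ∉ D.natAbs.primeFactors := by
    intro h
    have := Nat.dvd_of_mem_primeFactors h
    omega
  unfold nx
  rw [hR]
  refine CSp.asm hSQ D hD hsq (by omega) _ (Subset.refl _) (subset_insert _ _) ?_ ?_
  · intro d hd h2R
    exact absurd (mem_insert_self _ _) h2R
  · intro T hT hsol
    right
    left
    refine ⟨hD4, ?_⟩
    set S := D.natAbs.primeFactors with hSdef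
    have hS : ∀ q ∈ S, q.Prime := fun q hq => Nat.prime_of_mem_primeFactors hq
    have hTp : ∀ q ∈ T, q.Prime := by
      intro q hq
      rcases mem_insert.1 (hT hq) with h | h
      · rw [h]
        exact Nat.prime_two
      · exact hS q h
    set T0 := T.erase 2 with hT0
    have hT0S : T0 ⊆ S := by
      intro q hq
      rw [hT0, mem_erase] at hq
      rcases mem_insert.1 (hT hq.2) with h | h
      · exact absurd h hq.1
      · exact h
    set w : ℕ := if 2 ∈ T then 1 else 0 with hw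
    have hwle : w ≤ 1 := by
      rw [hw]
      split_ifs <;> omega
    have hprodT : ∏ q ∈ T, q = 2 ^ w * ∏ q ∈ T0, q := by
      rw [hw]
      split_ifs with h
      · rw [pow_one, hT0, mul_prod_erase T (fun q => q) h]
      · rw [pow_zero, one_mul, hT0, erase_eq_of_notMem h]
    have hxy : (∏ q ∈ T0, q) * ∏ q ∈ S \ T0, q = D.natAbs := by
      rw [← hN, mul_comm]
      exact prod_sdiff hT0S
    have hoddp : ∀ q ∈ S, q % 2 = 1 := by
      intro q hq
      rcases (hS q hq).eq_two_or_odd with h | h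
      · exact absurd (h ▸ hq) h2
      · exact h
    have hDodd : D.natAbs % 4 = 1 := by omega
    have hx : (∏ q ∈ T0, q) % 2 = 1 := by
      by_contra hcon
      have h3 : 2 ∣ ∏ q ∈ T0, q := by omega
      have h4 : 2 ∣ D.natAbs := hxy ▸ (h3.mul_right _)
      omega
    have hy : (∏ q ∈ S \ T0, q) % 2 = 1 := by
      by_contra hcon
      have h3 : 2 ∣ ∏ q ∈ S \ T0, q := by omega
      have h4 : 2 ∣ D.natAbs := hxy ▸ (h3.mul_left _)
      omega
    have hnrw : ∀ p : ℕ, Fact p.Prime → p ≠ 2 → jacobiSym ((2 ^ w : ℕ) : ℤ) p =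
        sgn ((w : ZMod 2) * nr p 2) := by
      intro p _ hp2
      rw [hw]
      split_ifs with h
      · have h3 : ¬ p ∣ 2 := by
          intro h4
          exact hp2 ((Nat.prime_dvd_prime_iff_eq Fact.out Nat.prime_two).1 h4)
        rw [pow_one, jac_nr p 2 h3, Nat.cast_one, one_mul]
      · simp [sgn_zero]
    have heq : ∀ p ∈ S, ∑ q ∈ T, nr p q + (∑ q ∈ S, nr p q) * (if p ∈ T then 1 else 0) = 0 := by
      intro p hp
      have h3 := hsol p (by
        rw [mem_erase]
        exact ⟨fun h => h2 (h ▸ hp), hp⟩)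
      rw [if_neg h2] at h3
      exact (sum_eq S T h2 hT p (nr p)).symm.trans h3
    have hsT : ∀ p : ℕ, ∑ q ∈ T, nr p q = ∑ q ∈ T0, nr p q + (w : ZMod 2) * nr p 2 := by
      intro p
      rw [hw]
      split_ifs with h
      · rw [Nat.cast_one, one_mul, hT0, sum_erase_add T (fun q => nr p q) h]
      · rw [Nat.cast_zero, zero_mul, add_zero, hT0, erase_eq_of_notMem h]
    have hsS : ∀ p : ℕ, ∑ q ∈ S, nr p q = ∑ q ∈ S \ T0, nr p q + ∑ q ∈ T0, nr p q := by
      intro p
      rw [sum_sdiff hT0S]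
    have h1 : jacobiSym (((2 ^ w * ∏ q ∈ S \ T0, q : ℕ)) : ℤ) (∏ q ∈ T0, q) = 1 := by
      apply jac_right _ _ fun q hq => hS q (hT0S hq)
      intro p hp
      have hpS := hT0S hp
      have : Fact p.Prime := ⟨hS p hpS⟩
      have hp2 : p ≠ 2 := fun h => h2 (h ▸ hpS)
      rw [Nat.cast_mul, jacobiSym.mul_left, hnrw p this hp2, jac_prod p _ (prime_ndvd (hS p hpS)
        (fun q hq => hS q (mem_sdiff.1 hq).1) (fun h => (mem_sdiff.1 h).2 hp)), ← sgn_add,
        sgn_eq_one]
      have h3 := heq p hpS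
      have hpT : p ∈ T := mem_of_mem_erase hp
      rw [if_pos hpT, mul_one, hsT, hsS] at h3
      have h4 : ∀ a b c : ZMod 2, a + b + (c + a) = 0 → b + c = 0 := by decide
      exact h4 _ _ _ h3
    have h2' : jacobiSym (((2 ^ w * ∏ q ∈ T0, q : ℕ)) : ℤ) (∏ q ∈ S \ T0, q) = 1 := by
      apply jac_right _ _ fun q hq => hS q (mem_sdiff.1 hq).1
      intro p hp
      have hpS := (mem_sdiff.1 hp).1
      have : Fact p.Prime := ⟨hS p hpS⟩
      have hp2 : p ≠ 2 := fun h => h2 (h ▸ hpS)
      rw [Nat.cast_mul, jacobiSym.mul_left, hnrw p this hp2, jac_prod p _ (prime_ndvd (hS p hpS)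
        (fun q hq => hS q (hT0S hq)) (mem_sdiff.1 hp).2), ← sgn_add, sgn_eq_one]
      have h3 := heq p hpS
      have hpT : p ∉ T := fun h => (mem_sdiff.1 hp).2 (mem_erase.2 ⟨hp2, h⟩)
      rw [if_neg hpT, mul_zero, add_zero, hsT] at h3
      rw [add_comm]
      exact h3
    have h5 := arith _ _ hx hy (by rw [hxy]; exact hDodd) w hwle h1 h2'
    rw [hxy, ← hprodT] at h5
    have hDn : D = -(D.natAbs : ℤ) := by omega
    omega

end Pool.Agent.NH3.XS
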