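import Mathlib

/-!
# XS-18: the classes `d₃`, `D` even: the part which uses only Mathlib
-/

set_option autoImplicit false

open scoped Classical

namespace Pool.Agent.NH3.XS.CSc94

open Finset

open scoped NumberTheorySymbols

section nrs

variable {nr : ℕ → ℕ → ZMod 2}

lemma z2 (x : ZMod 2) : x = 0 ∨ x = 1 := by
  revert x
  decide

lemma one_iff (h0 : ∀ p n : ℕ, IsSquare (n : ZMod p) → nr p n = 0)
    (h1 : ∀ p n : ℕ, ¬ IsSquare (n : ZMod p) → nr p n = 1) {p q : ℕ} (hp : p.Prime)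
    (hq : q.Prime) (hpq : q ≠ p) :
    (nr p q = 0 ∧ J((q : ℤ) | p) = 1) ∨ (nr p q = 1 ∧ J((q : ℤ) | p) = -1) := by
  haveI : Fact p.Prime := ⟨hp⟩
  have hne : (((q : ℕ) : ℤ) : ZMod p) ≠ 0 := by
    rw [Int.cast_natCast, Ne, ZMod.natCast_eq_zero_iff]
    intro h
    rcases (Nat.dvd_prime hq).1 h with h | h
    · exact hp.one_lt.ne' h
    · exact hpq h.symm
  rw [← jacobiSym.legendreSym.to_jacobiSym]
  by_cases h : IsSquare ((q : ℕ) : ZMod p)
  · left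
    refine ⟨h0 p q h, ?_⟩
    rw [legendreSym.eq_one_iff p hne]
    rwa [Int.cast_natCast]
  · right
    refine ⟨h1 p q h, ?_⟩
    rw [legendreSym.eq_neg_one_iff p]
    rwa [Int.cast_natCast]

lemma sum_iff (h0 : ∀ p n : ℕ, IsSquare (n : ZMod p) → nr p n = 0)
    (h1 : ∀ p n : ℕ, ¬ IsSquare (n : ZMod p) → nr p n = 1) {p : ℕ} (hp : p.Prime)
    (U : Finset ℕ) (hU : ∀ q ∈ U, q.Prime) (hpU : p ∉ U) :
    (∑ q ∈ U, nr p q = 0 ∧ J(((∏ q ∈ U, q : ℕ) : ℤ) | p) = 1) ∨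
      (∑ q ∈ U, nr p q = 1 ∧ J(((∏ q ∈ U, q : ℕ) : ℤ) | p) = -1) := by
  induction U using Finset.induction_on with
  | empty => left; simp
  | insert q U hq ih =>
    have ih := ih (fun q hq => hU q (mem_insert_of_mem hq)) (fun h => hpU (mem_insert_of_mem h))
    rw [sum_insert hq, prod_insert hq, Nat.cast_mul, jacobiSym.mul_left]
    have h2 := one_iff h0 h1 hp (hU q (mem_insert_self q U)) (by
      rintro rfl
      exact hpU (mem_insert_self q U))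
    rcases h2 with ⟨a, b⟩ | ⟨a, b⟩ <;> rcases ih with ⟨c, d⟩ | ⟨c, d⟩ <;> rw [a, b, c, d]
    · left; exact ⟨by decide, by norm_num⟩
    · right; exact ⟨by decide, by norm_num⟩
    · right; exact ⟨by decide, by norm_num⟩
    · left; exact ⟨by decide, by norm_num⟩

lemma sum_iff' (h0 : ∀ p n : ℕ, IsSquare (n : ZMod p) → nr p n = 0)
    (h1 : ∀ p n : ℕ, ¬ IsSquare (n : ZMod p) → nr p n = 1) {p : ℕ} (hp : p.Prime)
    (U : Finset ℕ) (hU : ∀ q ∈ U, q.Prime) (hpU : p ∉ U) :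
    ∑ q ∈ U, nr p q = 0 ↔ J(((∏ q ∈ U, q : ℕ) : ℤ) | p) = 1 := by
  rcases sum_iff h0 h1 hp U hU hpU with ⟨a, b⟩ | ⟨a, b⟩ <;> rw [a, b]
  · simp
  · constructor
    · intro h; exact absurd h (by decide)
    · intro h; norm_num at h

/-- the row of a prime outside `T` -/
lemma row0 (h0 : ∀ p n : ℕ, IsSquare (n : ZMod p) → nr p n = 0)
    (h1 : ∀ p n : ℕ, ¬ IsSquare (n : ZMod p) → nr p n = 1) {S T : Finset ℕ}
    (hS : ∀ q ∈ S, q.Prime) (hT : T ⊆ S) {p : ℕ} (hp : p ∈ S) (hpT : p ∉ T) :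
    ∑ q ∈ S, nr p q * ((if q ∈ T then 1 else 0) + (if p ∈ T then 1 else 0)) = 0 ↔
      J(((∏ q ∈ T, q : ℕ) : ℤ) | p) = 1 := by
  rw [← sum_iff' h0 h1 (hS p hp) T (fun q hq => hS q (hT hq)) hpT]
  have : ∑ q ∈ S, nr p q * ((if q ∈ T then 1 else 0) + (if p ∈ T then 1 else 0))
      = ∑ q ∈ T, nr p q := by
    rw [← Finset.sum_subset hT]
    · refine sum_congr rfl fun q hq => ?_
      rw [if_pos hq, if_neg hpT, add_zero, mul_one]
    · intro q _ hq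
      rw [if_neg hq, if_neg hpT, add_zero, mul_zero]
  rw [this]

/-- the row of a prime in `T` -/
lemma row1 (h0 : ∀ p n : ℕ, IsSquare (n : ZMod p) → nr p n = 0)
    (h1 : ∀ p n : ℕ, ¬ IsSquare (n : ZMod p) → nr p n = 1) {S T : Finset ℕ}
    (hS : ∀ q ∈ S, q.Prime) {p : ℕ} (hp : p ∈ S) (hpT : p ∈ T) :
    ∑ q ∈ S, nr p q * ((if q ∈ T then 1 else 0) + (if p ∈ T then 1 else 0)) = 0 ↔
      J(((∏ q ∈ S \ T, q : ℕ) : ℤ) | p) = 1 := by
  rw [← sum_iff' h0 h1 (hS p hp) (S \ T) (fun q hq => hS q (mem_sdiff.1 hq).1)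
    (fun h => (mem_sdiff.1 h).2 hpT)]
  have : ∑ q ∈ S, nr p q * ((if q ∈ T then 1 else 0) + (if p ∈ T then 1 else 0))
      = ∑ q ∈ S \ T, nr p q := by
    rw [← Finset.sum_subset (sdiff_subset : S \ T ⊆ S)]
    · refine sum_congr rfl fun q hq => ?_
      rw [if_neg (mem_sdiff.1 hq).2, if_pos hpT, zero_add, mul_one]
    · intro q hq hq'
      have h3 : q ∈ T := by
        by_contra h
        exact hq' (mem_sdiff.2 ⟨hq, h⟩)
      rw [if_pos h3, if_pos hpT]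
      have : (1 : ZMod 2) + 1 = 0 := by decide
      rw [this, mul_zero]
  rw [this]

end nrs

/-- the symbol in terms of a product of primes in the second argument -/
lemma jprod {a : ℤ} {E : Finset ℕ} (hE : ∀ p ∈ E, p.Prime) (h : ∀ p ∈ E, J(a | p) = 1) :
    J(a | (∏ p ∈ E, p : ℕ)) = 1 := by
  induction E using Finset.induction_on with
  | empty => simp
  | insert q U hq ih =>
    rw [prod_insert hq, jacobiSym.mul_right' a (hE q (mem_insert_self q U)).ne_zero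
      (prod_ne_zero_iff.2 fun p hp => (hE p (mem_insert_of_mem hp)).ne_zero),
      h q (mem_insert_self q U), one_mul]
    exact ih (fun p hp => hE p (mem_insert_of_mem hp)) (fun p hp => h p (mem_insert_of_mem hp))

lemma jsq {a b : ℤ} {p : ℕ} (h : J(a | p) ≠ 0) : J(b * (a * a) | p) = J(b | p) := by
  rw [jacobiSym.mul_left, jacobiSym.mul_left]
  have : J(a | p) * J(a | p) = 1 := by
    rcases jacobiSym.trichotomy a p with h' | h' | h'
    · exact absurd h' h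
    · rw [h']; norm_num
    · rw [h']; norm_num
  rw [this, mul_one]

lemma chi (n : ℕ) (hn : n % 2 = 1) :
    (J(2 | n) = 1 ∧ (n % 8 = 1 ∨ n % 8 = 7)) ∨ (J(2 | n) = -1 ∧ (n % 8 = 3 ∨ n % 8 = 5)) := by
  have hn' : n % 8 = 1 ∨ n % 8 = 3 ∨ n % 8 = 5 ∨ n % 8 = 7 := by omega
  rw [jacobiSym.at_two (Nat.odd_iff.2 hn), ZMod.χ₈_nat_mod_eight]
  rcases hn' with h | h | h | h <;> rw [h]
  · left; exact ⟨by decide, by norm_num⟩
  · right; exact ⟨by decide, by norm_num⟩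
  · right; exact ⟨by decide, by norm_num⟩
  · left; exact ⟨by decide, by norm_num⟩

/-- the residues, `2 ∤ d` -/
lemma res0 (d e P : ℕ) (hP : P = d * e) (hd : d % 2 = 1) (he : e % 2 = 1)
    (h1 : J(((2 * e : ℕ) : ℤ) | d) = 1) (h2 : J((d : ℤ) | e) = 1) (D : ℤ) (hD : D = -(2 * P)) :
    ((d : ℤ) % 8 = 1 ∨ ((d : ℤ) + D - 1) % 8 = 0 ∨ ((d : ℤ) + D) % 16 = 0 ∨
      ((d : ℤ) + D - 4) % 16 = 0) := by
  rw [Nat.cast_mul, jacobiSym.mul_left, Nat.cast_ofNat] at h1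
  have hP8 : P % 8 = ((d % 8) * (e % 8)) % 8 := by rw [hP, Nat.mul_mod]
  have hr : (J((e : ℤ) | d) = J((d : ℤ) | e) ∧ (d % 4 = 1 ∨ e % 4 = 1)) ∨
      (J((e : ℤ) | d) = -J((d : ℤ) | e) ∧ d % 4 = 3 ∧ e % 4 = 3) := by
    by_cases h3 : d % 4 = 1
    · exact Or.inl ⟨(jacobiSym.quadratic_reciprocity_one_mod_four h3 (Nat.odd_iff.2 he)).symm,
        Or.inl h3⟩
    · by_cases h4 : e % 4 = 1
      · exact Or.inl ⟨jacobiSym.quadratic_reciprocity_one_mod_four h4 (Nat.odd_iff.2 hd),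
          Or.inr h4⟩
      · exact Or.inr ⟨jacobiSym.quadratic_reciprocity_three_mod_four (by omega) (by omega),
          by omega, by omega⟩
  have he8 : e % 8 = 1 ∨ e % 8 = 3 ∨ e % 8 = 5 ∨ e % 8 = 7 := by omega
  rcases chi d hd with ⟨h5, h6⟩ | ⟨h5, h6⟩
  · rw [h5, one_mul] at h1
    rcases hr with ⟨h7, h8⟩ | ⟨h7, h8, h9⟩
    · rcases h6 with h6 | h6
      · left; omega
      · rcases he8 with h | h | h | h <;> rw [h6, h] at hP8 <;> norm_num at hP8 <;> omega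
    · rw [h1, h2] at h7
      norm_num at h7
  · rw [h5] at h1
    rcases hr with ⟨h7, h8⟩ | ⟨h7, h8, h9⟩
    · rw [h7, h2] at h1
      norm_num at h1
    · rcases h6 with h6 | h6
      · rcases he8 with h | h | h | h <;> rw [h6, h] at hP8 <;> norm_num at hP8 <;> omega
      · omega

/-- the residues, `2 ∣ d` -/
lemma res1 (d e P : ℕ) (hP : P = d * e) (hd : d % 2 = 1) (he : e % 2 = 1)
    (h1 : J((e : ℤ) | d) = 1) (h2 : J(((2 * d : ℕ) : ℤ) | e) = 1) (D : ℤ) (hD : D = -(2 * P)) :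
    ((((2 * d : ℕ) : ℤ)) % 8 = 1 ∨ (((2 * d : ℕ) : ℤ) + D - 1) % 8 = 0 ∨
      (((2 * d : ℕ) : ℤ) + D) % 16 = 0 ∨ (((2 * d : ℕ) : ℤ) + D - 4) % 16 = 0) := by
  have h2' := h2
  rw [Nat.cast_mul, jacobiSym.mul_left, Nat.cast_ofNat] at h2'
  have hP8 : P % 8 = ((d % 8) * (e % 8)) % 8 := by rw [hP, Nat.mul_mod]
  have hr : (J((e : ℤ) | d) = J((d : ℤ) | e) ∧ (d % 4 = 1 ∨ e % 4 = 1)) ∨
      (J((e : ℤ) | d) = -J((d : ℤ) | e) ∧ d % 4 = 3 ∧ e % 4 = 3) := by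
    by_cases h3 : d % 4 = 1
    · exact Or.inl ⟨(jacobiSym.quadratic_reciprocity_one_mod_four h3 (Nat.odd_iff.2 he)).symm,
        Or.inl h3⟩
    · by_cases h4 : e % 4 = 1
      · exact Or.inl ⟨jacobiSym.quadratic_reciprocity_one_mod_four h4 (Nat.odd_iff.2 hd),
          Or.inr h4⟩
      · exact Or.inr ⟨jacobiSym.quadratic_reciprocity_three_mod_four (by omega) (by omega),
          by omega, by omega⟩
  have hd8 : d % 8 = 1 ∨ d % 8 = 3 ∨ d % 8 = 5 ∨ d % 8 = 7 := by omega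
  rw [h1] at hr
  rcases chi e he with ⟨h5, h6⟩ | ⟨h5, h6⟩
  · rw [h5, one_mul] at h2'
    rw [h2'] at hr
    rcases hr with ⟨h7, h8⟩ | ⟨h7, h8, h9⟩
    · rcases h6 with h6 | h6 <;> rcases hd8 with h | h | h | h <;> rw [h6, h] at hP8 <;>
        norm_num at hP8 <;> omega
    · norm_num at h7
  · rw [h5] at h2'
    have h3 : J((d : ℤ) | e) = -1 := by linarith
    rw [h3] at hr
    rcases hr with ⟨h7, h8⟩ | ⟨h7, h8, h9⟩
    · norm_num at h7
    · rcases h6 with h6 | h6 <;> rcases hd8 with h | h | h | h <;> rw [h6, h] at hP8 <;>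
        norm_num at hP8 <;> omega

end Pool.Agent.NH3.XS.CSc94
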