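import Pool.Agent.NH3.XS.Stm

/-!
# Project XS, part J2a: the integer conditions at `2`, `D = 1` modulo `4`
-/

set_option autoImplicit false

namespace Pool.Agent.NH3.XS

namespace J2a

/-- comparison of two representations `2 ^ e * odd` -/
theorem pow_odd_eq {e e' : ℕ} {v v' : ℤ} (h : (2 : ℤ) ^ e * v = 2 ^ e' * v') (hv : v % 2 = 1)
    (hv' : v' % 2 = 1) : e = e' ∧ v = v' := by
  have key : ∀ (e e' : ℕ) (v v' : ℤ), (2 : ℤ) ^ e * v = 2 ^ e' * v' → v % 2 = 1 → v' % 2 = 1 →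
      e ≤ e' → e = e' ∧ v = v' := by
    intro e e' v v' h hv hv' hle
    obtain ⟨k, rfl⟩ := Nat.exists_eq_add_of_le hle
    have h1 : v = 2 ^ k * v' := by
      have h2 : (2 : ℤ) ^ e * v = 2 ^ e * (2 ^ k * v') := by rw [h, pow_add]; ring
      exact mul_left_cancel₀ (pow_ne_zero _ two_ne_zero) h2
    rcases Nat.eq_zero_or_pos k with hk | hk
    · subst hk
      simp at h1
      exact ⟨by simp, h1⟩
    · exfalso
      obtain ⟨m, rfl⟩ := Nat.exists_eq_add_of_le' hk
      rw [pow_succ] at h1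
      have : v % 2 = 0 := by
        rw [h1, show (2 : ℤ) ^ m * 2 * v' = 2 * (2 ^ m * v') by ring]
        exact Int.mul_emod_right 2 _
      omega
  rcases Nat.le_total e e' with hle | hle
  · exact key e e' v v' h hv hv' hle
  · obtain ⟨h1, h2⟩ := key e' e v' v h.symm hv' hv hle
    exact ⟨h1.symm, h2.symm⟩

/-- every nonzero integer is `2 ^ e * odd` -/
theorem exists_odd (n : ℤ) (hn : n ≠ 0) : ∃ (e : ℕ) (w : ℤ), n = 2 ^ e * w ∧ w % 2 = 1 := by
  obtain ⟨e, w, hw, h⟩ := Nat.exists_eq_two_pow_mul_odd (Int.natAbs_ne_zero.2 hn)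
  have hw' : w % 2 = 1 := Nat.odd_iff.1 hw
  rcases Int.natAbs_eq n with h1 | h1
  · exact ⟨e, w, by rw [h1, h]; push_cast; ring, by omega⟩
  · exact ⟨e, -w, by rw [h1, h]; push_cast; ring, by omega⟩

theorem sq2_two_pow {n : ℤ} {e : ℕ} {w : ℤ} (h : n = 2 ^ e * w) (hw : w % 2 = 1) (hs : Sq2 n) :
    e % 2 = 0 ∧ w % 8 = 1 := by
  obtain ⟨k, u, h1, h2⟩ := hs
  have h3 : (2 : ℤ) ^ e * w = 2 ^ (2 * k) * u := by
    rw [← h, h1, pow_mul]; norm_num
  obtain ⟨h4, h5⟩ := pow_odd_eq h3 hw (by omega)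
  exact ⟨by omega, by rw [h5]; exact h2⟩

/-- a squarefree integer is odd or twice odd -/
theorem sqf {d : ℤ} (hd : Squarefree d) : d % 2 = 1 ∨ ∃ d', d = 2 * d' ∧ d' % 2 = 1 := by
  rcases Int.emod_two_eq_zero_or_one d with h | h
  · right
    refine ⟨d / 2, by omega, ?_⟩
    by_contra hc
    have h4 : (2 : ℤ) * 2 ∣ d := by omega
    have := hd 2 h4
    rw [Int.isUnit_iff] at this
    omega
  · exact Or.inl h

/-- the useful lemma -/
theorem useful {n d w : ℤ} {e : ℕ} (h : n = 2 ^ e * w) (hw : w % 2 = 1) (hd : Squarefree d)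
    (hs : Sq2 (n * d)) : (e % 2 = 0 ∧ d % 2 = 1 ∧ (w * d) % 8 = 1) ∨
      (e % 2 = 1 ∧ ∃ d', d = 2 * d' ∧ d' % 2 = 1 ∧ (w * d') % 8 = 1) := by
  rcases sqf hd with h1 | ⟨d', h1, h2⟩
  · left
    have h3 : n * d = 2 ^ e * (w * d) := by rw [h]; ring
    obtain ⟨h4, h5⟩ := sq2_two_pow h3 (by rw [Int.mul_emod, hw, h1]; norm_num) hs
    exact ⟨h4, h1, h5⟩
  · right
    have h3 : n * d = 2 ^ (e + 1) * (w * d') := by rw [h, h1, pow_succ]; ring
    obtain ⟨h4, h5⟩ := sq2_two_pow h3 (by rw [Int.mul_emod, hw, h2]; norm_num) hs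
    exact ⟨by omega, d', h1, h2, h5⟩

end J2a

open J2a in
theorem t_J2a : S_J2 1 := by
  intro D X d1 d3 hD hd1 hd3 hne h1 h3 habc
  have hb0 : X - 25 * D ≠ 0 := fun h => hne (by rw [h]; ring)
  suffices h : d1 % 4 = 1 ∧ d3 % 2 = 1 from ⟨Or.inl ⟨hD, h.1⟩, Or.inl ⟨hD, h.2⟩⟩
  have hX0 : X ≠ 0 := fun h => hne (by rw [h]; ring)
  rcases Int.emod_two_eq_zero_or_one X with hX | hX
  · -- X even
    obtain ⟨e, w, hw1, hw2⟩ := exists_odd X hX0
    have hbc : ((X - 25 * D) * (X - 9 * D)) % 8 = 1 := by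
      have e1 : (X - 25 * D) % 8 = 1 ∨ (X - 25 * D) % 8 = 3 ∨ (X - 25 * D) % 8 = 5 ∨
          (X - 25 * D) % 8 = 7 := by omega
      have e2 : (X - 9 * D) % 8 = (X - 25 * D) % 8 := by omega
      rw [Int.mul_emod, e2]
      rcases e1 with h | h | h | h <;> rw [h] <;> norm_num
    have h5 : X * (X - 25 * D) * (X - 9 * D) = 2 ^ e * (w * ((X - 25 * D) * (X - 9 * D))) := by
      rw [← mul_assoc, ← hw1]; ring
    obtain ⟨h6, h7⟩ := sq2_two_pow h5 (by
      rw [Int.mul_emod, hw2]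
      have : ((X - 25 * D) * (X - 9 * D)) % 2 = 1 := by omega
      rw [this]; norm_num) habc
    have hw8 : w % 8 = 1 := by
      rw [Int.mul_emod, hbc] at h7
      omega
    have hd1' : d1 % 8 = 1 := by
      rcases useful hw1 hw2 hd1 h1 with ⟨_, _, h8⟩ | ⟨h8, _⟩
      · rw [Int.mul_emod, hw8] at h8
        omega
      · omega
    have hd3' : d3 % 2 = 1 := by
      have h8 : X - 25 * D = 2 ^ 0 * (X - 25 * D) := by ring
      rcases useful h8 (by omega) hd3 h3 with ⟨_, h9, _⟩ | ⟨h9, _⟩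
      · exact h9
      · omega
    exact ⟨by omega, hd3'⟩
  · -- X odd
    obtain ⟨j, s, hs1, hs2⟩ := exists_odd (X - 25 * D) hb0
    have hXd : d1 % 2 = 1 ∧ (X * d1) % 8 = 1 := by
      have h8 : X = 2 ^ 0 * X := by ring
      rcases useful h8 hX hd1 h1 with ⟨_, h9, h10⟩ | ⟨h9, _⟩
      · exact ⟨h9, h10⟩
      · omega
    -- consequences of `X * d1 = 1` modulo `8`
    have hd1X : d1 % 8 = X % 8 := by
      have h9 := hXd.2
      have e1 : X % 8 = 1 ∨ X % 8 = 3 ∨ X % 8 = 5 ∨ X % 8 = 7 := by omega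
      have e2 : d1 % 8 = 1 ∨ d1 % 8 = 3 ∨ d1 % 8 = 5 ∨ d1 % 8 = 7 := by omega
      rw [Int.mul_emod] at h9
      rcases e1 with h | h | h | h <;> rcases e2 with h' | h' | h' | h' <;> rw [h, h'] at h9 <;>
        simp_all
    have hd3j : j % 2 = 0 → d3 % 2 = 1 := by
      intro hj
      rcases useful hs1 hs2 hd3 h3 with ⟨_, h9, _⟩ | ⟨h9, _⟩
      · exact h9
      · omega
    have hc : X - 9 * D = 2 ^ j * s + 16 * D := by rw [← hs1]; ring
    have hXs : X = 2 ^ j * s + 25 * D := by rw [← hs1]; ring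
    have hjpos : 1 ≤ j := by
      rcases Nat.eq_zero_or_pos j with h | h
      · subst h
        rw [pow_zero, one_mul] at hs1
        omega
      · exact h
    have hs8 : (s % 8 = 1 ∨ s % 8 = 3 ∨ s % 8 = 5 ∨ s % 8 = 7) := by omega
    have hD8 : (D % 8 = 1 ∨ D % 8 = 5) := by omega
    -- the cases
    have hcases : j = 1 ∨ j = 2 ∨ j = 3 ∨ j = 4 ∨ 5 ≤ j := by omega
    rcases hcases with h | h | h | h | h
    · -- j = 1
      exfalso
      subst h
      have h5 : X * (X - 25 * D) * (X - 9 * D) = 2 ^ 2 * (X * (s * (s + 8 * D))) := by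
        rw [hc, hs1]; ring
      have e1 : (s * (s + 8 * D)) % 8 = 1 := by
        have e2 : (s + 8 * D) % 8 = s % 8 := by omega
        rw [Int.mul_emod, e2]
        rcases hs8 with h | h | h | h <;> rw [h] <;> norm_num
      obtain ⟨_, h7⟩ := sq2_two_pow h5 (by
        rw [Int.mul_emod, hX]
        have : (s * (s + 8 * D)) % 2 = 1 := by omega
        rw [this]; norm_num) habc
      rw [Int.mul_emod, e1] at h7
      rw [pow_one] at hXs
      omega
    · -- j = 2
      subst h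
      have h5 : X * (X - 25 * D) * (X - 9 * D) = 2 ^ 4 * (X * (s * (s + 4 * D))) := by
        rw [hc, hs1]; ring
      have e1 : (s * (s + 4 * D)) % 8 = 5 := by
        have e2 : (s + 4 * D) % 8 = (s + 4) % 8 := by omega
        rw [Int.mul_emod, e2, Int.add_emod]
        rcases hs8 with h | h | h | h <;> rw [h] <;> norm_num
      obtain ⟨_, h7⟩ := sq2_two_pow h5 (by
        rw [Int.mul_emod, hX]
        have : (s * (s + 4 * D)) % 2 = 1 := by omega
        rw [this]; norm_num) habc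
      have hX5 : X % 8 = 5 := by
        rw [Int.mul_emod, e1] at h7
        omega
      exact ⟨by omega, hd3j (by norm_num)⟩
    · -- j = 3
      exfalso
      subst h
      have h5 : X * (X - 25 * D) * (X - 9 * D) = 2 ^ 6 * (X * (s * (s + 2 * D))) := by
        rw [hc, hs1]; ring
      have hX8 : X % 8 = D % 8 := by
        rw [hXs]; omega
      have e1 : (s * (s + 2 * D)) % 4 = 3 := by
        have e2 : (s + 2 * D) % 4 = (s + 2) % 4 := by omega
        have e3 : s % 4 = 1 ∨ s % 4 = 3 := by omega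
        rw [Int.mul_emod, e2, Int.add_emod]
        rcases e3 with h | h <;> rw [h] <;> norm_num
      obtain ⟨_, h7⟩ := sq2_two_pow h5 (by
        rw [Int.mul_emod, hX]
        have : (s * (s + 2 * D)) % 2 = 1 := by omega
        rw [this]; norm_num) habc
      have h8 : (X * (s * (s + 2 * D))) % 4 = 1 := by omega
      rw [Int.mul_emod, e1] at h8
      omega
    · -- j = 4
      subst h
      exact ⟨by omega, hd3j (by norm_num)⟩
    · -- 5 ≤ j
      obtain ⟨m, rfl⟩ := Nat.exists_eq_add_of_le h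
      have h5 : X * (X - 25 * D) * (X - 9 * D) =
          2 ^ (9 + m) * (X * (s * (D + 2 * (2 ^ m * s)))) := by
        rw [hc, hs1, pow_add, pow_add]; ring
      have hodd : (D + 2 * (2 ^ m * s)) % 2 = 1 := by omega
      obtain ⟨h6, _⟩ := sq2_two_pow h5 (by
        rw [Int.mul_emod, hX, Int.mul_emod s, hs2, hodd]; norm_num) habc
      refine ⟨?_, hd3j (by omega)⟩
      have hX8 : X % 4 = 1 := by
        rw [hXs, pow_add, show (2 : ℤ) ^ 5 * 2 ^ m * s = 32 * (2 ^ m * s) by ring]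
        omega
      omega

end Pool.Agent.NH3.XS
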