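import Pool.Agent.NH3.XS.Stm

/-!
# XS-9: the integral conditions at `2`, `D = 3` modulo `4`
-/

set_option autoImplicit false

namespace Pool.Agent.NH3.XS

namespace J2b

/-- squares of the form `2 ^ e * w` -/
theorem sq2_pow (e : ℕ) (w : ℤ) (hw : w % 2 = 1) (h : Sq2 (2 ^ e * w)) : e % 2 = 0 ∧ w % 8 = 1 := by
  obtain ⟨k, u, h1, h2⟩ := h
  have h4 : (4 : ℤ) ^ k = 2 ^ (2 * k) := by rw [pow_mul]; norm_num
  rw [h4] at h1
  rcases lt_trichotomy e (2 * k) with hlt | heq | hgt
  · exfalso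
    obtain ⟨m, hm⟩ := Nat.exists_eq_add_of_lt hlt
    rw [hm, show e + m + 1 = e + (m + 1) by ring, pow_add, mul_assoc] at h1
    have h3 := mul_left_cancel₀ (pow_ne_zero e (two_ne_zero)) h1
    rw [pow_succ] at h3
    have h5 : w = 2 * (2 ^ m * u) := by rw [h3]; ring
    omega
  · subst heq
    have h3 := mul_left_cancel₀ (pow_ne_zero _ (two_ne_zero)) h1
    exact ⟨by omega, by rw [h3]; exact h2⟩
  · exfalso
    obtain ⟨m, hm⟩ := Nat.exists_eq_add_of_lt hgt
    rw [hm, show 2 * k + m + 1 = 2 * k + (m + 1) by ring, pow_add, mul_assoc] at h1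
    have h3 := mul_left_cancel₀ (pow_ne_zero (2 * k) (two_ne_zero)) h1
    rw [pow_succ] at h3
    have h5 : u = 2 * (2 ^ m * w) := by rw [← h3]; ring
    omega

/-- the odd part -/
theorem odd_part (n : ℤ) (hn : n ≠ 0) : ∃ (e : ℕ) (w : ℤ), n = 2 ^ e * w ∧ w % 2 = 1 := by
  obtain ⟨w, hw, h⟩ := (Int.finiteMultiplicity_iff.mpr ⟨by norm_num, hn⟩ :
    FiniteMultiplicity (2 : ℤ) n).exists_eq_pow_mul_and_not_dvd
  exact ⟨_, w, hw, by omega⟩

/-- the classes of odd numbers -/
theorem cls8 (w d : ℤ) (hw : w % 2 = 1) (h : (w * d) % 8 = 1) : d % 8 = w % 8 := by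
  have h1 : w % 8 = 1 ∨ w % 8 = 3 ∨ w % 8 = 5 ∨ w % 8 = 7 := by omega
  rw [Int.mul_emod] at h
  have h2 : d % 8 = 0 ∨ d % 8 = 1 ∨ d % 8 = 2 ∨ d % 8 = 3 ∨ d % 8 = 4 ∨ d % 8 = 5 ∨ d % 8 = 6 ∨ d % 8 = 7 := by omega
  rcases h1 with h1 | h1 | h1 | h1 <;> rcases h2 with h2 | h2 | h2 | h2 | h2 | h2 | h2 | h2 <;>
    rw [h1, h2] at h <;> rw [h1, h2] <;> omega

/-- the class of `d` -/
theorem sq2_mul (e : ℕ) (w d : ℤ) (hw : w % 2 = 1) (hd : Squarefree d) (h : Sq2 (2 ^ e * w * d)) :
    (e % 2 = 0 ∧ d % 8 = w % 8) ∨ (e % 2 = 1 ∧ d % 16 = (2 * w) % 16) := by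
  rcases Int.emod_two_eq_zero_or_one d with h0 | h1
  · right
    obtain ⟨d', hd'⟩ : ∃ d', d = 2 * d' := ⟨d / 2, by omega⟩
    have hodd : d' % 2 = 1 := by
      by_contra hcon
      obtain ⟨d'', hd''⟩ : ∃ d'', d' = 2 * d'' := ⟨d' / 2, by omega⟩
      have : IsUnit (2 : ℤ) := hd 2 ⟨d'', by rw [hd', hd'']; ring⟩
      exact absurd this (by decide)
    have h2 : 2 ^ e * w * d = 2 ^ (e + 1) * (w * d') := by rw [hd', pow_succ]; ring
    rw [h2] at h
    have h3 := sq2_pow (e + 1) (w * d') (by rw [Int.mul_emod, hw, hodd]; norm_num) h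
    have h4 := cls8 w d' hw h3.2
    refine ⟨by omega, by omega⟩
  · left
    have h2 : 2 ^ e * w * d = 2 ^ e * (w * d) := by ring
    rw [h2] at h
    have h3 := sq2_pow e (w * d) (by rw [Int.mul_emod, hw, h1]; norm_num) h
    exact ⟨h3.1, cls8 w d hw h3.2⟩

theorem odd_mul {a b : ℤ} (ha : a % 2 = 1) (hb : b % 2 = 1) : (a * b) % 2 = 1 := by
  rw [Int.mul_emod, ha, hb]; norm_num

end J2b

open J2b

theorem t_J2b : S_J2 3 := by
  intro D X d1 d3 hD hd1 hd3 hne ha hb habc
  have hX0 : X ≠ 0 := fun h => hne (by rw [h]; ring)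
  have hb0 : X - 25 * D ≠ 0 := fun h => hne (by rw [h]; ring)
  have hc0 : X - 9 * D ≠ 0 := fun h => hne (by rw [h]; ring)
  suffices hmain : (d1 % 8 = 1 ∨ d1 % 8 = D % 8) ∧ (d3 % 4 = 1 ∨ (d3 + D - 1) % 8 = 0) by
    unfold A2 C2
    omega
  rcases Int.emod_two_eq_zero_or_one X with hX | hX
  · -- X even
    obtain ⟨i, w, hi, hw⟩ := odd_part X hX0
    have e1 : X * (X - 25 * D) * (X - 9 * D) = 2 ^ i * (w * (X - 25 * D) * (X - 9 * D)) := by
      nth_rewrite 1 [hi]; ring
    rw [e1] at habc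
    have h1 := sq2_pow i _ (odd_mul (odd_mul hw (by omega)) (by omega)) habc
    have hi1 : 2 ≤ i := by
      rcases Nat.lt_or_ge i 2 with h | h
      · exfalso
        have : i = 0 := by omega
        rw [this] at hi
        omega
      · exact h
    obtain ⟨m, hm⟩ := Nat.exists_eq_add_of_le hi1
    have hX4 : X % 4 = 0 := by
      rw [hm, pow_add] at hi
      have : X = 4 * (2 ^ m * w) := by rw [hi]; ring
      omega
    have hbc : ((X - 25 * D) * (X - 9 * D)) % 8 = 1 := by
      have h2 : (X - 25 * D) % 8 = 1 ∨ (X - 25 * D) % 8 = 3 ∨ (X - 25 * D) % 8 = 5 ∨ (X - 25 * D) % 8 = 7 := by omega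
      have h3 : (X - 9 * D) % 8 = (X - 25 * D) % 8 := by omega
      rw [Int.mul_emod, h3]
      rcases h2 with h2 | h2 | h2 | h2 <;> rw [h2] <;> norm_num
    have hw8 : w % 8 = 1 := by
      have h2 := h1.2
      rw [mul_assoc, Int.mul_emod, hbc] at h2
      omega
    rw [hi] at ha
    have h2 := sq2_mul i w d1 hw hd1 ha
    have h3 := sq2_mul 0 (X - 25 * D) d3 (by omega) hd3 (by rw [pow_zero, one_mul]; exact hb)
    omega
  · -- X odd
    have h1 := sq2_mul 0 X d1 hX hd1 (by rw [pow_zero, one_mul]; exact ha)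
    obtain ⟨j, s, hj, hs⟩ := odd_part (X - 25 * D) hb0
    have hb' := hb
    rw [hj] at hb'
    have h2 := sq2_mul j s d3 hs hd3 hb'
    have hj1 : 1 ≤ j := by
      rcases Nat.eq_zero_or_pos j with h | h
      · exfalso
        rw [h] at hj
        omega
      · exact h
    have hD8 : D % 8 = 3 ∨ D % 8 = 7 := by omega
    have hs8 : s % 8 = 1 ∨ s % 8 = 3 ∨ s % 8 = 5 ∨ s % 8 = 7 := by omega
    have hXe : X = 25 * D + 2 ^ j * s := by linarith
    have hce : X - 9 * D = 2 ^ j * s + 16 * D := by linarith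
    have hlt : j < 5 ∨ 5 ≤ j := lt_or_ge j 5
    rcases hlt with hlt | hge
    · interval_cases j
      · -- j = 1
        have e1 : X * (X - 25 * D) * (X - 9 * D) = 2 ^ 2 * (X * s * (s + 8 * D)) := by
          rw [hj, hce]; ring
        rw [e1] at habc
        have h3 := (sq2_pow 2 _ (odd_mul (odd_mul hX hs) (by omega)) habc).2
        have h4 : (X * s * (s + 8 * D)) % 8 = X % 8 := by
          rw [Int.mul_emod, Int.mul_emod X s, show (s + 8 * D) % 8 = s % 8 by omega]
          have hX8 : X % 8 = 1 ∨ X % 8 = 3 ∨ X % 8 = 5 ∨ X % 8 = 7 := by omega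
          rcases hs8 with h | h | h | h <;> rcases hX8 with h' | h' | h' | h' <;> rw [h, h'] <;> norm_num
        omega
      · -- j = 2
        have e1 : X * (X - 25 * D) * (X - 9 * D) = 2 ^ 4 * (X * s * (s + 4 * D)) := by
          rw [hj, hce]; ring
        rw [e1] at habc
        have h3 := (sq2_pow 4 _ (odd_mul (odd_mul hX hs) (by omega)) habc).2
        exfalso
        have hX8 : X % 8 = (D + 4) % 8 := by omega
        have hs4 : (s + 4 * D) % 8 = (s + 4) % 8 := by omega
        rw [Int.mul_emod, Int.mul_emod X s, hX8, hs4] at h3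
        rcases hs8 with h | h | h | h <;> rcases hD8 with h' | h' <;>
          rw [Int.add_emod s, Int.add_emod D, h, h'] at h3 <;> norm_num at h3
      · -- j = 3
        have e1 : X * (X - 25 * D) * (X - 9 * D) = 2 ^ 6 * (X * s * (s + 2 * D)) := by
          rw [hj, hce]; ring
        rw [e1] at habc
        have h3 := (sq2_pow 6 _ (odd_mul (odd_mul hX hs) (by omega)) habc).2
        have hX8 : X % 8 = D % 8 := by omega
        rw [Int.mul_emod, Int.mul_emod X s, hX8] at h3
        rcases hs8 with h | h | h | h <;> rcases hD8 with h' | h' <;>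
          rw [Int.add_emod s, Int.mul_emod 2 D, h, h'] at h3 <;> norm_num at h3 <;> omega
      · -- j = 4
        have hsD : s + D ≠ 0 := by
          intro h
          apply hc0
          rw [hce]
          linarith
        obtain ⟨e, u, he, hu⟩ := odd_part (s + D) hsD
        have e1 : X * (X - 25 * D) * (X - 9 * D) = 2 ^ (8 + e) * (X * s * u) := by
          have : X - 9 * D = 2 ^ 4 * (2 ^ e * u) := by rw [← he]; linarith
          rw [hj, this, pow_add]; ring
        rw [e1] at habc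
        have h3 := sq2_pow (8 + e) _ (odd_mul (odd_mul hX hs) hu) habc
        have he1 : 2 ≤ e := by
          rcases Nat.lt_or_ge e 2 with h | h
          · exfalso
            have : e = 0 := by omega
            rw [this] at he
            omega
          · exact h
        obtain ⟨m, hm⟩ := Nat.exists_eq_add_of_le he1
        have hX4 : (s + D) % 4 = 0 := by
          rw [hm, pow_add] at he
          have : s + D = 4 * (2 ^ m * u) := by rw [he]; ring
          omega
        omega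
    · -- j ≥ 5
      obtain ⟨m, hm⟩ := Nat.exists_eq_add_of_le hge
      have e0 : X - 9 * D = 2 ^ 4 * (D + 2 ^ (m + 1) * s) := by
        rw [hce, hm, show 5 + m = 4 + (m + 1) by ring, pow_add]; ring
      have hodd : (D + 2 ^ (m + 1) * s) % 2 = 1 := by
        have : (2 : ℤ) ^ (m + 1) * s = 2 * (2 ^ m * s) := by rw [pow_succ]; ring
        omega
      have e1 : X * (X - 25 * D) * (X - 9 * D) = 2 ^ (j + 4) * (X * s * (D + 2 ^ (m + 1) * s)) := by
        rw [e0, hj, pow_add]; ring
      rw [e1] at habc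
      have h3 := sq2_pow (j + 4) _ (odd_mul (odd_mul hX hs) hodd) habc
      have hm1 : 1 ≤ m := by omega
      obtain ⟨l, hl⟩ := Nat.exists_eq_add_of_le hm1
      have hv : (D + 2 ^ (m + 1) * s) % 4 = D % 4 := by
        have : (2 : ℤ) ^ (m + 1) * s = 4 * (2 ^ l * s) := by
          rw [hl, show 1 + l + 1 = 2 + l by ring, pow_add]; ring
        omega
      have hX8 : X % 8 = D % 8 := by
        have : (2 : ℤ) ^ j * s = 8 * (2 ^ (2 + m) * s) := by
          rw [hm, show 5 + m = 3 + (2 + m) by ring, pow_add]; ring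
        omega
      have h4 : (X * s * (D + 2 ^ (m + 1) * s)) % 4 = 1 := by omega
      have hX4 : X % 4 = 3 := by omega
      have hs4 : s % 4 = 1 := by
        rw [Int.mul_emod, Int.mul_emod X s, hv, hD, hX4] at h4
        have : s % 4 = 1 ∨ s % 4 = 3 := by omega
        rcases this with h | h
        · exact h
        · rw [h] at h4
          norm_num at h4
      omega

end Pool.Agent.NH3.XS
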