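import Pool.Agent.NH3.XS.Stm

/-!
XS-10 (helper75): the necessary conditions at `2` for `D` even, points with integral `x`.
-/

set_option autoImplicit false

open scoped Classical

namespace Pool.Agent.NH3.XS

namespace J2c75

lemma uniq : ∀ (a b : ℕ) (u w : ℤ), u % 2 = 1 → w % 2 = 1 → 2 ^ a * u = 2 ^ b * w →
    a = b ∧ u = w := by
  intro a
  induction a with
  | zero =>
    intro b u w hu hw h
    cases b with
    | zero => exact ⟨rfl, by simpa using h⟩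
    | succ b =>
      exfalso
      rw [pow_succ, pow_zero, one_mul] at h
      have h2 : u = 2 * (2 ^ b * w) := by linarith
      omega
  | succ a ih =>
    intro b u w hu hw h
    cases b with
    | zero =>
      exfalso
      rw [pow_succ, pow_zero, one_mul] at h
      have h2 : w = 2 * (2 ^ a * u) := by linarith
      omega
    | succ b =>
      obtain ⟨h1, h2⟩ := ih b u w hu hw (by
        rw [pow_succ, pow_succ] at h
        linarith)
      exact ⟨by rw [h1], h2⟩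

lemma sq2_dec {e : ℕ} {w : ℤ} (hw : w % 2 = 1) (h : Sq2 (2 ^ e * w)) :
    e % 2 = 0 ∧ w % 8 = 1 := by
  obtain ⟨k, u, h1, hu⟩ := h
  have e1 : (4 : ℤ) ^ k = 2 ^ (2 * k) := by rw [pow_mul]; norm_num
  rw [e1] at h1
  obtain ⟨h2, h3⟩ := uniq e (2 * k) w u hw (by omega) h1
  exact ⟨by omega, by rw [h3]; exact hu⟩

lemma dec {n : ℤ} (hn : n ≠ 0) : ∃ (e : ℕ) (w : ℤ), n = 2 ^ e * w ∧ w % 2 = 1 := by
  have hf : FiniteMultiplicity (2 : ℤ) n := Int.finiteMultiplicity_iff.2 ⟨by decide, hn⟩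
  obtain ⟨c, hc, hc2⟩ := hf.exists_eq_pow_mul_and_not_dvd
  exact ⟨_, c, hc, by omega⟩

lemma sqf {d : ℤ} (hd : Squarefree d) : d % 2 = 1 ∨ ∃ d', d = 2 * d' ∧ d' % 2 = 1 := by
  by_cases h : d % 2 = 1
  · exact Or.inl h
  · refine Or.inr ⟨d / 2, by omega, ?_⟩
    by_contra h2
    have h4 : (2 : ℤ) * 2 ∣ d := by omega
    have := Int.isUnit_iff.1 (hd 2 h4)
    omega

lemma odd_sq {x : ℤ} (hx : x % 2 = 1) : ∃ m, x * x = 8 * m + 1 := by
  obtain ⟨k, hk⟩ : ∃ k, x = 2 * k + 1 := ⟨x / 2, by omega⟩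
  obtain ⟨l, hl⟩ := Int.even_mul_succ_self k
  exact ⟨l, by rw [hk]; linear_combination 4 * hl⟩

lemma mul_odd {x y : ℤ} (hx : x % 2 = 1) (hy : y % 2 = 1) : (x * y) % 2 = 1 := by
  rw [Int.mul_emod, hx, hy]
  norm_num

lemma inv8 {w d : ℤ} (hw : w % 2 = 1) (h : (w * d) % 8 = 1) : (d - w) % 8 = 0 := by
  obtain ⟨m, hm⟩ := odd_sq hw
  obtain ⟨k, hk⟩ : ∃ k, w * d = 8 * k + 1 := ⟨w * d / 8, by omega⟩
  have : d - w = 8 * (w * k - m * d) := by linear_combination w * hk - d * hm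
  omega

lemma cls {e : ℕ} {w d : ℤ} (hw : w % 2 = 1) (hd : Squarefree d) (h : Sq2 (2 ^ e * w * d)) :
    (e % 2 = 0 ∧ (d - w) % 8 = 0) ∨ (e % 2 = 1 ∧ (d - 2 * w) % 16 = 0) := by
  rcases sqf hd with h1 | ⟨d', rfl, h1⟩
  · rw [mul_assoc] at h
    obtain ⟨h2, h3⟩ := sq2_dec (mul_odd hw h1) h
    exact Or.inl ⟨h2, inv8 hw h3⟩
  · have e1 : 2 ^ e * w * (2 * d') = 2 ^ (e + 1) * (w * d') := by rw [pow_succ]; ring
    rw [e1] at h
    obtain ⟨h2, h3⟩ := sq2_dec (mul_odd hw h1) h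
    have := inv8 hw h3
    exact Or.inr ⟨by omega, by omega⟩

/-- `b ≡ c` modulo `8` -/
lemma bc {x y z : ℤ} (hy : y % 2 = 1) (hyz : (y - z) % 8 = 0) (h : (x * y * z) % 8 = 1) :
    x % 8 = 1 := by
  obtain ⟨m, hm⟩ := odd_sq hy
  obtain ⟨k, hk⟩ : ∃ k, y - z = 8 * k := ⟨(y - z) / 8, by omega⟩
  have e1 : x * y * z = 8 * (x * m - x * y * k) + x := by
    linear_combination (-(x * y)) * hk + x * hm
  omega

/-- `X` odd -/
lemma c1 {D X d1 d3 : ℤ} (hD : D % 4 = 2) (s1 : Squarefree d1) (s3 : Squarefree d3)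
    (h1 : Sq2 (X * d1)) (h3 : Sq2 ((X - 25 * D) * d3))
    (h : Sq2 (X * (X - 25 * D) * (X - 9 * D))) (hX : X % 2 = 1) :
    (d1 % 8 = 1 ∨ (d1 - D) % 16 = 0) ∧
    (d3 % 8 = 1 ∨ (d3 + D - 1) % 8 = 0 ∨ (d3 + D) % 16 = 0 ∨ (d3 + D - 4) % 16 = 0) := by
  have hb : (X - 25 * D) % 2 = 1 := by omega
  have hc : (X - 9 * D) % 2 = 1 := by omega
  have k1 : Sq2 (2 ^ 0 * (X * (X - 25 * D) * (X - 9 * D))) := by rwa [pow_zero, one_mul]
  obtain ⟨-, k2⟩ := sq2_dec (mul_odd (mul_odd hX hb) hc) k1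
  have k3 := bc hb (by omega) k2
  have k4 : Sq2 (2 ^ 0 * X * d1) := by rwa [pow_zero, one_mul]
  have k5 : Sq2 (2 ^ 0 * (X - 25 * D) * d3) := by rwa [pow_zero, one_mul]
  have k6 := cls hX s1 k4
  have k7 := cls hb s3 k5
  omega

/-- `X` divisible by `4` -/
lemma c2 {D X d1 d3 : ℤ} (hD : D % 4 = 2) (s1 : Squarefree d1) (s3 : Squarefree d3)
    (h0 : X ≠ 0) (h1 : Sq2 (X * d1)) (h3 : Sq2 ((X - 25 * D) * d3))
    (h : Sq2 (X * (X - 25 * D) * (X - 9 * D))) (hX : X % 4 = 0) :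
    (d1 % 8 = 1 ∨ (d1 - D) % 16 = 0) ∧
    (d3 % 8 = 1 ∨ (d3 + D - 1) % 8 = 0 ∨ (d3 + D) % 16 = 0 ∨ (d3 + D - 4) % 16 = 0) := by
  obtain ⟨g, hg⟩ : ∃ g, D = 2 * g := ⟨D / 2, by omega⟩
  obtain ⟨Y, hY⟩ : ∃ Y, X = 4 * Y := ⟨X / 4, by omega⟩
  have hY0 : Y ≠ 0 := by omega
  obtain ⟨e, w, hw, hw2⟩ := dec hY0
  have hb : (2 * Y - 25 * g) % 2 = 1 := by omega
  have hc : (2 * Y - 9 * g) % 2 = 1 := by omega
  have e1 : X * (X - 25 * D) * (X - 9 * D) =
      2 ^ (e + 4) * (w * (2 * Y - 25 * g) * (2 * Y - 9 * g)) := by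
    have e0 : X * (X - 25 * D) * (X - 9 * D) =
        16 * (Y * (2 * Y - 25 * g) * (2 * Y - 9 * g)) := by
      rw [hY, hg]
      ring
    rw [e0]
    conv_lhs => rw [show Y * (2 * Y - 25 * g) * (2 * Y - 9 * g) =
      (2 ^ e * w) * (2 * Y - 25 * g) * (2 * Y - 9 * g) by rw [← hw]]
    ring
  rw [e1] at h
  obtain ⟨k1, k2⟩ := sq2_dec (mul_odd (mul_odd hw2 hb) hc) h
  have k3 := bc hb (by omega) k2
  have e2 : X * d1 = 2 ^ (e + 2) * w * d1 := by
    rw [hY, hw]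
    ring
  have e3 : (X - 25 * D) * d3 = 2 ^ 1 * (2 * Y - 25 * g) * d3 := by
    rw [hY, hg]
    ring
  rw [e2] at h1
  rw [e3] at h3
  have k6 := cls hw2 s1 h1
  have k7 := cls hb s3 h3
  have k8 : (e = 0 ∧ Y = w) ∨ Y % 4 = 0 := by
    rcases Nat.eq_zero_or_pos e with h4 | h4
    · left
      refine ⟨h4, ?_⟩
      rw [hw, h4]
      ring
    · right
      obtain ⟨i, hi⟩ : ∃ i, e = i + 2 := ⟨e - 2, by omega⟩
      rw [hw, hi, pow_add]
      have : (2 : ℤ) ^ i * 2 ^ 2 * w = 4 * (2 ^ i * w) := by ring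
      rw [this]
      omega
  omega

/-- `X = 2 t`, `t` odd -/
lemma c3 {D X d1 d3 : ℤ} (hD : D % 4 = 2) (s1 : Squarefree d1) (s3 : Squarefree d3)
    (h0 : X * (X - 25 * D) * (X - 9 * D) ≠ 0) (h1 : Sq2 (X * d1)) (h3 : Sq2 ((X - 25 * D) * d3))
    (h : Sq2 (X * (X - 25 * D) * (X - 9 * D))) (hX : X % 4 = 2) :
    (d1 % 8 = 1 ∨ (d1 - D) % 16 = 0) ∧
    (d3 % 8 = 1 ∨ (d3 + D - 1) % 8 = 0 ∨ (d3 + D) % 16 = 0 ∨ (d3 + D - 4) % 16 = 0) := by
  obtain ⟨g, hg⟩ : ∃ g, D = 2 * g := ⟨D / 2, by omega⟩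
  obtain ⟨t, ht⟩ : ∃ t, X = 2 * t := ⟨X / 2, by omega⟩
  have hg2 : g % 2 = 1 := by omega
  have ht2 : t % 2 = 1 := by omega
  have hb0 : t - 25 * g ≠ 0 := by
    intro h2
    apply h0
    have : X - 25 * D = 0 := by rw [hg, ht]; linarith
    rw [this]
    ring
  have hc0 : t - 9 * g ≠ 0 := by
    intro h2
    apply h0
    have : X - 9 * D = 0 := by rw [hg, ht]; linarith
    rw [this]
    ring
  obtain ⟨j, s, hs, hs2⟩ := dec hb0
  obtain ⟨m, hm⟩ := odd_sq hg2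
  obtain ⟨k, hk⟩ := odd_sq hs2
  have e1 : X * (X - 25 * D) * (X - 9 * D) = 2 ^ (j + 3) * (t * s * (2 ^ j * s + 16 * g)) := by
    have e0 : X * (X - 25 * D) * (X - 9 * D) = 8 * (t * (t - 25 * g) * (t - 9 * g)) := by
      rw [hg, ht]
      ring
    have e2 : t - 9 * g = 2 ^ j * s + 16 * g := by rw [← hs]; ring
    rw [e0, e2, hs]
    ring
  have e4 : X * d1 = 2 ^ 1 * t * d1 := by
    rw [ht]
    ring
  have e5 : (X - 25 * D) * d3 = 2 ^ (j + 1) * s * d3 := by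
    have : X - 25 * D = 2 * (t - 25 * g) := by rw [ht, hg]; ring
    rw [this, hs]
    ring
  rw [e4] at h1
  rw [e5] at h3
  have k1 := cls ht2 s1 h1
  have k3 := cls hs2 s3 h3
  rw [e1] at h
  have hj : j ≤ 3 ∨ j = 4 ∨ j = 5 ∨ j = 6 ∨ ∃ i, j = 7 + i := by
    rcases Nat.lt_or_ge j 7 with h2 | h2
    · omega
    · exact Or.inr (Or.inr (Or.inr (Or.inr ⟨j - 7, by omega⟩)))
  rcases hj with hj | rfl | rfl | rfl | ⟨i, rfl⟩
  · exfalso
    have hj0 : j = 0 ∨ j = 1 ∨ j = 2 ∨ j = 3 := by omega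
    rcases hj0 with rfl | rfl | rfl | rfl
    · rw [pow_zero, one_mul] at hs
      omega
    · have e6 : (2 : ℤ) ^ (1 + 3) * (t * s * (2 ^ 1 * s + 16 * g)) =
        2 ^ 5 * (t * s * (s + 8 * g)) := by ring
      rw [e6] at h
      have := (sq2_dec (mul_odd (mul_odd ht2 hs2) (by omega)) h).1
      omega
    · have e6 : (2 : ℤ) ^ (2 + 3) * (t * s * (2 ^ 2 * s + 16 * g)) =
        2 ^ 7 * (t * s * (s + 4 * g)) := by ring
      rw [e6] at h
      have := (sq2_dec (mul_odd (mul_odd ht2 hs2) (by omega)) h).1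
      omega
    · have e6 : (2 : ℤ) ^ (3 + 3) * (t * s * (2 ^ 3 * s + 16 * g)) =
        2 ^ 9 * (t * s * (s + 2 * g)) := by ring
      rw [e6] at h
      have := (sq2_dec (mul_odd (mul_odd ht2 hs2) (by omega)) h).1
      omega
  · -- `j = 4`
    have hsg : s + g ≠ 0 := by
      intro h2
      apply hc0
      have : t - 9 * g = (2 ^ 4 * s) + 16 * g := by rw [← hs]; ring
      rw [this]
      linarith
    obtain ⟨e, u, hu, hu2⟩ := dec hsg
    have e6 : (2 : ℤ) ^ (4 + 3) * (t * s * (2 ^ 4 * s + 16 * g)) =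
        2 ^ (11 + e) * (t * s * u) := by
      have e7 : (2 : ℤ) ^ 4 * s + 16 * g = 16 * (s + g) := by ring
      rw [e7, hu]
      ring
    rw [e6] at h
    obtain ⟨k4, k5⟩ := sq2_dec (mul_odd (mul_odd ht2 hs2) hu2) h
    have ht' : t = 25 * g + 16 * s := by linarith
    have k6 : e = 1 ∨ (s + g) % 8 = 0 := by
      rcases Nat.lt_or_ge e 3 with h4 | h4
      · left
        omega
      · right
        obtain ⟨i, hi⟩ : ∃ i, e = i + 3 := ⟨e - 3, by omega⟩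
        rw [hu, hi, pow_add]
        have : (2 : ℤ) ^ i * 2 ^ 3 * u = 8 * (2 ^ i * u) := by ring
        rw [this]
        omega
    rcases k6 with rfl | k6
    · have hu' : s = 2 * u - g := by linarith
      obtain ⟨l, hl⟩ := odd_sq hu2
      have e8 : t * s * u = 8 * (50 * g * l - 25 * m * u + 2 * s * s * u) + 50 * g - 25 * u := by
        have : t * s * u = (25 * g + 16 * s) * s * u := by rw [ht']
        rw [this]
        have e9 : g * s * u = g * (2 * u - g) * u := by rw [← hu']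
        linear_combination 25 * e9 + 50 * g * hl - 25 * u * hm
      omega
    · omega
  · -- `j = 5`
    have e6 : (2 : ℤ) ^ (5 + 3) * (t * s * (2 ^ 5 * s + 16 * g)) =
        2 ^ 12 * (t * s * (g + 2 * s)) := by ring
    rw [e6] at h
    obtain ⟨k4, k5⟩ := sq2_dec (mul_odd (mul_odd ht2 hs2) (by omega)) h
    have ht' : t = 25 * g + 32 * s := by linarith
    have e8 : t * s * (g + 2 * s) = 8 * (25 * m * s + 50 * g * k + 4 * s * s * (g + 2 * s)) +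
        25 * s + 50 * g := by
      rw [ht']
      linear_combination 25 * s * hm + 50 * g * hk
    omega
  · -- `j = 6`
    exfalso
    have e6 : (2 : ℤ) ^ (6 + 3) * (t * s * (2 ^ 6 * s + 16 * g)) =
        2 ^ 13 * (t * s * (g + 4 * s)) := by ring
    rw [e6] at h
    have := (sq2_dec (mul_odd (mul_odd ht2 hs2) (by omega)) h).1
    omega
  · -- `j ≥ 7`
    have e6 : (2 : ℤ) ^ (7 + i + 3) * (t * s * (2 ^ (7 + i) * s + 16 * g)) =
        2 ^ (14 + i) * (t * s * (g + 8 * (2 ^ i * s))) := by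
      ring
    rw [e6] at h
    obtain ⟨k4, k5⟩ := sq2_dec (mul_odd (mul_odd ht2 hs2) (by omega)) h
    have ht' : t = 25 * g + 128 * (2 ^ i * s) := by
      have : (2 : ℤ) ^ (7 + i) * s = 128 * (2 ^ i * s) := by ring
      linarith
    obtain ⟨P, hP⟩ : ∃ P : ℤ, P = 2 ^ i * s := ⟨_, rfl⟩
    rw [← hP] at ht' k5
    have e8 : t * s * (g + 8 * P) = 8 * (25 * m * s + 25 * g * s * P +
        16 * P * s * (g + 8 * P)) + 25 * s := by
      rw [ht']
      linear_combination 25 * s * hm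
    omega

end J2c75

open J2c75 in
theorem t_J2c : S_J2 2 := by
  intro D X d1 d3 hD s1 s3 h0 h1 h3 h
  have key : (d1 % 8 = 1 ∨ (d1 - D) % 16 = 0) ∧
    (d3 % 8 = 1 ∨ (d3 + D - 1) % 8 = 0 ∨ (d3 + D) % 16 = 0 ∨ (d3 + D - 4) % 16 = 0) := by
    have hX : X % 2 = 1 ∨ X % 4 = 0 ∨ X % 4 = 2 := by omega
    rcases hX with hX | hX | hX
    · exact c1 hD s1 s3 h1 h3 h hX
    · refine c2 hD s1 s3 ?_ h1 h3 h hX
      rintro rfl
      apply h0
      ring
    · exact c3 hD s1 s3 h0 h1 h3 h hX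
  obtain ⟨k1, k3⟩ := key
  constructor
  · right
    refine ⟨by omega, ?_⟩
    rcases k1 with k1 | k1
    · exact Or.inl k1
    · exact Or.inr (Or.inr ⟨by omega, by omega⟩)
  · right
    right
    exact ⟨by omega, k3⟩

end Pool.Agent.NH3.XS
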