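import Mathlib
import Pool.Agent.NH4.XH.Stm
import Pool.Agent.Y667.RZ.Stm2

/-!
# Project XS (helper3): the 2-Selmer groups of the twists of `X_0(15)`: statements

`E_D : y² = x (x - 9 D) (x - 25 D)` is the twist of `X_0(15)` by `D`. For `D < 0` squarefree such that `3`
splits and `5` is inert in `ℚ(√D)` the 2-Selmer group, as the set of the pairs `(d₁, d₃)` of the classes of
`x` and `x - 25 D`, is the product `AS D × CS D`, and both factors have `nx` elements: `nx` is the number of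
the elements of the kernel of the Redei matrix of `ℚ(√D)` (`Pool.Agent.NH4.XG`). All statements were checked
numerically.
-/

set_option autoImplicit false
set_option linter.unusedVariables false

open scoped Classical

namespace Pool.Agent.NH3.XS

open Finset
open Pool.Agent.Y703.CQ (nr)
open Pool.Agent.W307.SE (Loc Sel)
open Pool.Agent.NH4.XG (nx Ram SolG)
open Pool.Agent.NH4.XH (DB)

/-! ### the local conditions -/

/-- the classes of `x` at `2`: the group `{1, D}`, and `{1, 5}` for `D = 1` modulo `4` -/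
def A2 (D d : ℤ) : Prop :=
  (D % 4 = 1 ∧ d % 4 = 1) ∨
  (D % 4 ≠ 1 ∧ (d % 8 = 1 ∨ (D % 2 = 1 ∧ d % 8 = D % 8) ∨ (D % 2 = 0 ∧ d % 16 = D % 16)))

/-- the classes of `x - 25 D` at `2`: the norms from `ℚ₂(√D)`, and the units for `D = 1` modulo `4` -/
def C2 (D d : ℤ) : Prop :=
  (D % 4 = 1 ∧ d % 2 = 1) ∨ (D % 4 = 3 ∧ (d % 4 = 1 ∨ (d + D - 1) % 8 = 0)) ∨
  (D % 2 = 0 ∧ (d % 8 = 1 ∨ (d + D - 1) % 8 = 0 ∨ (d + D) % 16 = 0 ∨ (d + D - 4) % 16 = 0))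

/-- the class of `d` is `1` or `D` -/
def H1 (p : ℕ) [Fact p.Prime] (D d : ℤ) : Prop :=
  IsSquare (d : ℚ_[p]) ∨ IsSquare ((d * D : ℤ) : ℚ_[p])

/-- the class of `d` is `1` or `-D` -/
def H3 (p : ℕ) [Fact p.Prime] (D d : ℤ) : Prop :=
  IsSquare (d : ℚ_[p]) ∨ IsSquare ((-(d * D) : ℤ) : ℚ_[p])

/-- APX: a `p`-adic point may be replaced by one with `x = X / p ^ (2 m)`, `X` an integer -/
def S_APX : Prop := ∀ (p : ℕ) [Fact p.Prime] (A B d1 d3 : ℤ), d1 ≠ 0 → d3 ≠ 0 →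
  Loc ℚ_[p] A B d1 d3 → ∃ (m : ℕ) (X : ℤ),
    X * (X - A * ((p : ℤ) ^ m) ^ 2) * (X - B * ((p : ℤ) ^ m) ^ 2) ≠ 0 ∧
    IsSquare ((X * d1 : ℤ) : ℚ_[p]) ∧ IsSquare (((X - A * ((p : ℤ) ^ m) ^ 2) * d3 : ℤ) : ℚ_[p]) ∧
    IsSquare ((X * (X - A * ((p : ℤ) ^ m) ^ 2) * (X - B * ((p : ℤ) ^ m) ^ 2) : ℤ) : ℚ_[p])

/-- TOR: the classes of the points of order two, at every prime -/
def S_TOR : Prop := ∀ (p : ℕ) [Fact p.Prime] (D d1 d3 : ℤ), D ≠ 0 → d1 ≠ 0 → d3 ≠ 0 →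
  H1 p D d1 → H3 p D d3 → Loc ℚ_[p] (25 * D) (9 * D) d1 d3

/-- LA: the odd primes which divide `D` -/
def S_LA : Prop := ∀ (p : ℕ) [Fact p.Prime] (D d1 d3 : ℤ), p ≠ 2 → p ≠ 3 → p ≠ 5 → (p : ℤ) ∣ D →
  ¬ (p : ℤ) ^ 2 ∣ D → d1 ≠ 0 → d3 ≠ 0 → Loc ℚ_[p] (25 * D) (9 * D) d1 d3 →
  H1 p D d1 ∧ H3 p D d3

/-- LG: the primes of good reduction -/
def S_LG : Prop := ∀ (p : ℕ) [Fact p.Prime] (D d1 d3 : ℤ), p ≠ 2 → p ≠ 3 → p ≠ 5 →
  ¬ (p : ℤ) ∣ D → Squarefree d1 → Squarefree d3 →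
  (Loc ℚ_[p] (25 * D) (9 * D) d1 d3 ↔ ¬ (p : ℤ) ∣ d1 ∧ ¬ (p : ℤ) ∣ d3)

/-- L3: the prime `3` -/
def S_L3 : Prop := ∀ [Fact (Nat.Prime 3)] (D d1 d3 : ℤ), D % 3 = 1 → Squarefree d1 →
  Squarefree d3 → (Loc ℚ_[3] (25 * D) (9 * D) d1 d3 ↔ ¬ (3 : ℤ) ∣ d1 ∧ ¬ (3 : ℤ) ∣ d3)

/-- L5: the prime `5` -/
def S_L5 : Prop := ∀ [Fact (Nat.Prime 5)] (D d1 d3 : ℤ), D % 5 = 2 ∨ D % 5 = 3 →
  Squarefree d1 → Squarefree d3 →
  (Loc ℚ_[5] (25 * D) (9 * D) d1 d3 ↔ ¬ (5 : ℤ) ∣ d1 ∧ ¬ (5 : ℤ) ∣ d3)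

/-- L2A1: the prime `2`, `D = 1` modulo `4`, necessary conditions -/
def S_L2A1 : Prop := ∀ [Fact (Nat.Prime 2)] (D d1 d3 : ℤ), D % 4 = 1 → Squarefree d1 →
  Squarefree d3 → Loc ℚ_[2] (25 * D) (9 * D) d1 d3 → A2 D d1 ∧ C2 D d3

/-- L2B1: the prime `2`, `D = 3` modulo `4`, necessary conditions -/
def S_L2B1 : Prop := ∀ [Fact (Nat.Prime 2)] (D d1 d3 : ℤ), D % 4 = 3 → Squarefree d1 →
  Squarefree d3 → Loc ℚ_[2] (25 * D) (9 * D) d1 d3 → A2 D d1 ∧ C2 D d3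

/-- L2C1: the prime `2`, `D = 2` modulo `4`, necessary conditions -/
def S_L2C1 : Prop := ∀ [Fact (Nat.Prime 2)] (D d1 d3 : ℤ), D % 4 = 2 → Squarefree d1 →
  Squarefree d3 → Loc ℚ_[2] (25 * D) (9 * D) d1 d3 → A2 D d1 ∧ C2 D d3

/-- L2A2: the prime `2`, `D = 1` modulo `4`, sufficient conditions -/
def S_L2A2 : Prop := ∀ [Fact (Nat.Prime 2)] (D d1 d3 : ℤ), D % 4 = 1 → Squarefree d1 →
  Squarefree d3 → A2 D d1 → C2 D d3 → Loc ℚ_[2] (25 * D) (9 * D) d1 d3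

/-- L2B2: the prime `2`, `D = 3` modulo `4`, sufficient conditions -/
def S_L2B2 : Prop := ∀ [Fact (Nat.Prime 2)] (D d1 d3 : ℤ), D % 4 = 3 → Squarefree d1 →
  Squarefree d3 → A2 D d1 → C2 D d3 → Loc ℚ_[2] (25 * D) (9 * D) d1 d3

/-- L2C2: the prime `2`, `D = 2` modulo `4`, sufficient conditions -/
def S_L2C2 : Prop := ∀ [Fact (Nat.Prime 2)] (D d1 d3 : ℤ), D % 4 = 2 → Squarefree d1 →
  Squarefree d3 → A2 D d1 → C2 D d3 → Loc ℚ_[2] (25 * D) (9 * D) d1 d3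

/-- a nonzero integer which is a square in `ℚ₂` -/
def Sq2 (n : ℤ) : Prop := ∃ (k : ℕ) (u : ℤ), n = 4 ^ k * u ∧ u % 8 = 1

/-- SQ2: squares in `ℚ₂` -/
def S_SQ2 : Prop := ∀ [Fact (Nat.Prime 2)] (n : ℤ), n ≠ 0 → (IsSquare (n : ℚ_[2]) ↔ Sq2 n)

/-- J2: the necessary conditions at `2` for the points with integral `x` -/
def S_J2 (c : ℤ) : Prop := ∀ D X d1 d3 : ℤ, D % 4 = c → Squarefree d1 → Squarefree d3 →
  X * (X - 25 * D) * (X - 9 * D) ≠ 0 → Sq2 (X * d1) → Sq2 ((X - 25 * D) * d3) →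
  Sq2 (X * (X - 25 * D) * (X - 9 * D)) → A2 D d1 ∧ C2 D d3

/-- L2R: the necessary conditions at `2`, reduction to the points with integral `x` -/
def S_L2R : Prop := S_APX → S_SQ2 → S_J2 1 → S_J2 3 → S_J2 2 → S_L2A1 ∧ S_L2B1 ∧ S_L2C1

/-- LR: the real place -/
def S_LR : Prop := ∀ D d1 d3 : ℤ, D < 0 → d1 ≠ 0 → d3 ≠ 0 →
  (Loc ℝ (25 * D) (9 * D) d1 d3 ↔ 0 < d3)

/-! ### the two factors -/

/-- the classes `d₁` -/
def AS (D : ℤ) : Set ℤ := {d | Squarefree d ∧ A2 D d ∧ ∀ (p : ℕ) [Fact p.Prime], p ≠ 2 →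
  ((p : ℤ) ∣ D → H1 p D d) ∧ (¬ (p : ℤ) ∣ D → ¬ (p : ℤ) ∣ d)}

/-- the classes `d₃` -/
def CS (D : ℤ) : Set ℤ := {d | Squarefree d ∧ 0 < d ∧ C2 D d ∧ ∀ (p : ℕ) [Fact p.Prime], p ≠ 2 →
  ((p : ℤ) ∣ D → H3 p D d) ∧ (¬ (p : ℤ) ∣ D → ¬ (p : ℤ) ∣ d)}

/-- SEL: the Selmer group is the product -/
def S_SEL : Prop := S_TOR → S_LA → S_LG → S_L3 → S_L5 → S_L2A1 → S_L2B1 → S_L2C1 → S_L2A2 →
  S_L2B2 → S_L2C2 → S_LR → ∀ D : ℤ, DB D → Sel (25 * D) (9 * D) = AS D ×ˢ CS D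

/-- SQ: the conditions `H1`, `H3` in terms of quadratic symbols -/
def S_SQ : Prop := ∀ (p : ℕ) [Fact p.Prime] (D d : ℤ), p ≠ 2 → Squarefree D → Squarefree d →
  (p : ℤ) ∣ D →
  (H1 p D d ↔ if (p : ℤ) ∣ d then jacobiSym ((D / p) * (d / p)) p = 1 else jacobiSym d p = 1) ∧
  (H3 p D d ↔ if (p : ℤ) ∣ d then jacobiSym (-((D / p) * (d / p))) p = 1 else jacobiSym d p = 1)

/-- CS: the number of the classes `d₃` -/
def S_CS (c : ℤ) : Prop := S_SQ → ∀ D : ℤ, D < 0 → Squarefree D → D % 4 = c →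
  (CS D).Finite ∧ (CS D).ncard = nx D.natAbs.primeFactors

/-- the entries of the Redei matrix, the row of the odd prime `p` -/
noncomputable def me (S : Finset ℕ) (p q : ℕ) : ZMod 2 :=
  if q = p then ∑ q' ∈ S.erase p, nr p q' else nr p q

/-- the Redei matrix, the row of `2` is the sum of the other rows -/
noncomputable def mM (S : Finset ℕ) (p q : ℕ) : ZMod 2 :=
  if p = 2 then ∑ p' ∈ S.erase 2, me S p' q else me S p q

/-- the number of the elements of the kernel of the transposed matrix -/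
noncomputable def nxT (S : Finset ℕ) : ℕ :=
  ((Ram S).powerset.filter fun T => ∀ q ∈ Ram S, ∑ p ∈ T, mM S p q = 0).card

/-- TR: a square matrix and the transposed matrix have kernels of the same size -/
def S_TR : Prop := ∀ S : Finset ℕ, (∀ p ∈ S, p.Prime) → nxT S = nx S

/-- `p* = ± p = 1` modulo `4` -/
def ps (q : ℕ) : ℤ := if q % 4 = 1 then q else -q

/-- the factors of the discriminant; `∏ psh D q = D`, `q` in `Ram` -/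
noncomputable def psh (D : ℤ) (q : ℕ) : ℤ :=
  if q = 2 then (if D % 2 = 1 then -1 else D / ∏ p ∈ D.natAbs.primeFactors.erase 2, ps p) else ps q

/-- AS: the number of the classes `d₁` -/
def S_AS (c : ℤ) : Prop := S_SQ → ∀ D : ℤ, D < 0 → Squarefree D → D % 4 = c →
  (AS D).Finite ∧ (AS D).ncard = nxT D.natAbs.primeFactors

/-- the order of the 2-Selmer group -/
def S_CARD : Prop := ∀ D : ℤ, DB D → (Sel (25 * D) (9 * D)).Finite ∧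
  (Sel (25 * D) (9 * D)).ncard = nx D.natAbs.primeFactors ^ 2

end Pool.Agent.NH3.XS
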