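import Mathlib
import Pool.Agent.NH3.XS.Stm
import Pool.Agent.Y535.RZ.Pts2

/-!
# Project XS: the prime `2`, `D = 1` modulo `4`, sufficient conditions
-/

set_option autoImplicit false

namespace Pool.Agent.NH3.XS

open Pool.Agent.Y535.RZ (loc_2 mul8)

theorem t_L2A2 : S_L2A2 := by
  intro _ D d1 d3 hD _ _ hA hC
  have h1 : d1 % 4 = 1 := by
    rcases hA with h | h
    · exact h.2
    · exact absurd hD h.1
  have h3 : d3 % 2 = 1 := by
    rcases hC with h | h | h
    · exact h.2
    · omega
    · omega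
  have h1' : d1 % 8 = 1 ∨ d1 % 8 = 5 := by omega
  have h3' : d3 % 8 = 1 ∨ d3 % 8 = 3 ∨ d3 % 8 = 5 ∨ d3 % 8 = 7 := by omega
  have hD' : D % 8 = 1 ∨ D % 8 = 5 := by omega
  rcases h1' with h1' | h1'
  · -- d1 = 1 mod 8
    have case16 : d3 % 8 = (-D) % 8 → Pool.Agent.W307.SE.Loc ℚ_[2] (25 * D) (9 * D) d1 d3 := by
      intro hh
      refine loc_2 1 16 (by norm_num) 2 0 2 (M1 := d1) (M2 := (16 - 25 * D) * d3)
        (M3 := (16 - 25 * D) * (16 - 9 * D)) (by ring) (by ring) (by ring) h1' ?_ ?_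
      · rcases hD' with h | h
        · rw [mul8 (show (16 - 25 * D) % 8 = 7 by omega) (show d3 % 8 = 7 by omega)]; norm_num
        · rw [mul8 (show (16 - 25 * D) % 8 = 3 by omega) (show d3 % 8 = 3 by omega)]; norm_num
      · rcases hD' with h | h
        · rw [mul8 (show (16 - 25 * D) % 8 = 7 by omega) (show (16 - 9 * D) % 8 = 7 by omega)]
          norm_num
        · rw [mul8 (show (16 - 25 * D) % 8 = 3 by omega) (show (16 - 9 * D) % 8 = 3 by omega)]
          norm_num
    have case4 : d3 % 8 = (4 - D) % 8 → Pool.Agent.W307.SE.Loc ℚ_[2] (25 * D) (9 * D) d1 d3 := by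
      intro hh
      refine loc_2 1 4 (by norm_num) 1 0 1 (M1 := d1) (M2 := (4 - 25 * D) * d3)
        (M3 := (4 - 25 * D) * (4 - 9 * D)) (by ring) (by ring) (by ring) h1' ?_ ?_
      · rcases hD' with h | h
        · rw [mul8 (show (4 - 25 * D) % 8 = 3 by omega) (show d3 % 8 = 3 by omega)]; norm_num
        · rw [mul8 (show (4 - 25 * D) % 8 = 7 by omega) (show d3 % 8 = 7 by omega)]; norm_num
      · rcases hD' with h | h
        · rw [mul8 (show (4 - 25 * D) % 8 = 3 by omega) (show (4 - 9 * D) % 8 = 3 by omega)]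
          norm_num
        · rw [mul8 (show (4 - 25 * D) % 8 = 7 by omega) (show (4 - 9 * D) % 8 = 7 by omega)]
          norm_num
    rcases h3' with h | h | h | h
    · refine loc_2 4 1 (by norm_num) 0 0 0 (M1 := d1) (M2 := (1 - 25 * D * 4 ^ 2) * d3)
        (M3 := (1 - 25 * D * 4 ^ 2) * (1 - 9 * D * 4 ^ 2)) (by ring) (by ring) (by ring) h1' ?_ ?_
      · rw [mul8 (show (1 - 25 * D * 4 ^ 2) % 8 = 1 by omega) h]; norm_num
      · rw [mul8 (show (1 - 25 * D * 4 ^ 2) % 8 = 1 by omega)
          (show (1 - 9 * D * 4 ^ 2) % 8 = 1 by omega)]; norm_num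
    · rcases hD' with h' | h'
      · exact case4 (by omega)
      · exact case16 (by omega)
    · refine loc_2 2 1 (by norm_num) 0 0 0 (M1 := d1) (M2 := (1 - 25 * D * 2 ^ 2) * d3)
        (M3 := (1 - 25 * D * 2 ^ 2) * (1 - 9 * D * 2 ^ 2)) (by ring) (by ring) (by ring) h1' ?_ ?_
      · rw [mul8 (show (1 - 25 * D * 2 ^ 2) % 8 = 5 by omega) h]; norm_num
      · rw [mul8 (show (1 - 25 * D * 2 ^ 2) % 8 = 5 by omega)
          (show (1 - 9 * D * 2 ^ 2) % 8 = 5 by omega)]; norm_num
    · rcases hD' with h' | h'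
      · exact case16 (by omega)
      · exact case4 (by omega)
  · -- d1 = 5 mod 8
    rcases hD' with hD8 | hD8
    · -- D = 1 mod 8
      have hsq : (d3 * d3) % 8 = 1 := by
        rcases h3' with h | h | h | h <;> rw [mul8 h h] <;> norm_num
      refine loc_2 1 (25 * D + 4 * d3) (by norm_num) 0 1 2 (M1 := (25 * D + 4 * d3) * d1)
        (M2 := d3 * d3) (M3 := (25 * D + 4 * d3) * (d3 * d3 + 4 * (D * d3)))
        (by ring) (by ring) (by ring) ?_ hsq ?_
      · rw [mul8 (show (25 * D + 4 * d3) % 8 = 5 by omega) h1']; norm_num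
      · have hDd : (D * d3) % 2 = 1 := by
          rw [Int.mul_emod, show D % 2 = 1 by omega, h3]; norm_num
        rw [mul8 (show (25 * D + 4 * d3) % 8 = 5 by omega)
          (show (d3 * d3 + 4 * (D * d3)) % 8 = 5 by omega)]; norm_num
    · -- D = 5 mod 8
      rcases h3' with h | h | h | h
      · -- d3 = 1
        refine loc_2 1 (25 * D + 1024) (by norm_num) 0 5 7 (M1 := (25 * D + 1024) * d1)
          (M2 := d3) (M3 := (25 * D + 1024) * (D + 64))
          (by ring) (by ring) (by ring) ?_ h ?_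
        · rw [mul8 (show (25 * D + 1024) % 8 = 5 by omega) h1']; norm_num
        · rw [mul8 (show (25 * D + 1024) % 8 = 5 by omega)
            (show (D + 64) % 8 = 5 by omega)]; norm_num
      · -- d3 = 3
        refine loc_2 1 (25 * D + 16 * (112 - D)) (by norm_num) 0 2 6
          (M1 := (25 * D + 16 * (112 - D)) * d1)
          (M2 := (112 - D) * d3) (M3 := (25 * D + 16 * (112 - D)) * ((112 - D) * 7))
          (by ring) (by ring) (by ring) ?_ ?_ ?_
        · rw [mul8 (show (25 * D + 16 * (112 - D)) % 8 = 5 by omega) h1']; norm_num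
        · rw [mul8 (show (112 - D) % 8 = 3 by omega) h]; norm_num
        · rw [mul8 (show (25 * D + 16 * (112 - D)) % 8 = 5 by omega)
            (show ((112 - D) * 7) % 8 = 5 by omega)]; norm_num
      · -- d3 = 5
        refine loc_2 1 (25 * D + 320) (by norm_num) 0 3 5 (M1 := (25 * D + 320) * d1)
          (M2 := 5 * d3) (M3 := (25 * D + 320) * (5 * (D + 20)))
          (by ring) (by ring) (by ring) ?_ ?_ ?_
        · rw [mul8 (show (25 * D + 320) % 8 = 5 by omega) h1']; norm_num
        · rw [mul8 (show (5 : ℤ) % 8 = 5 by norm_num) h]; norm_num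
        · rw [mul8 (show (25 * D + 320) % 8 = 5 by omega)
            (show (5 * (D + 20)) % 8 = 5 by omega)]; norm_num
      · -- d3 = 7
        refine loc_2 1 (25 * D + 16 * (12 - D)) (by norm_num) 0 2 5
          (M1 := (25 * D + 16 * (12 - D)) * d1)
          (M2 := (12 - D) * d3) (M3 := (25 * D + 16 * (12 - D)) * ((12 - D) * 3))
          (by ring) (by ring) (by ring) ?_ ?_ ?_
        · rw [mul8 (show (25 * D + 16 * (12 - D)) % 8 = 5 by omega) h1']; norm_num
        · rw [mul8 (show (12 - D) % 8 = 7 by omega) h]; norm_num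
        · rw [mul8 (show (25 * D + 16 * (12 - D)) % 8 = 5 by omega)
            (show ((12 - D) * 3) % 8 = 5 by omega)]; norm_num

end Pool.Agent.NH3.XS
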