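import Pool.Agent.NH3.XS.Stm
import Pool.Agent.Y535.RZ.Pts2

/-!
# XS-12: the prime `2`, `D = 3` modulo `4`, sufficient conditions
-/

set_option autoImplicit false

namespace Pool.Agent.NH3.XS

open Pool.Agent.W307.SE (Loc)
open Pool.Agent.Y535.RZ (loc_2 mul8)

namespace L2B2

variable [Fact (Nat.Prime 2)] {D d1 d3 : ℤ}

theorem sq8 {s : ℤ} (hs : s % 2 = 1) : (s * s) % 8 = 1 := by
  have : s % 8 = 1 ∨ s % 8 = 3 ∨ s % 8 = 5 ∨ s % 8 = 7 := by omega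
  rcases this with h | h | h | h <;> rw [mul8 h h] <;> norm_num

theorem one_one (hd1 : d1 % 8 = 1) (hd3 : d3 % 8 = 1) : Loc ℚ_[2] (25 * D) (9 * D) d1 d3 := by
  refine loc_2 4 1 (by norm_num) 0 0 0 (M1 := d1) (M2 := (1 - 25 * D * 4 ^ 2) * d3)
    (M3 := (1 - 25 * D * 4 ^ 2) * (1 - 9 * D * 4 ^ 2)) (by ring) (by ring) (by ring) hd1 ?_ ?_
  · rw [mul8 (show (1 - 25 * D * 4 ^ 2) % 8 = 1 by omega) hd3]; norm_num
  · rw [mul8 (show (1 - 25 * D * 4 ^ 2) % 8 = 1 by omega)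
      (show (1 - 9 * D * 4 ^ 2) % 8 = 1 by omega)]; norm_num

theorem one_five (hD : D % 2 = 1) (hd1 : d1 % 8 = 1) (hd3 : d3 % 8 = 5) :
    Loc ℚ_[2] (25 * D) (9 * D) d1 d3 := by
  refine loc_2 2 1 (by norm_num) 0 0 0 (M1 := d1) (M2 := (1 - 25 * D * 2 ^ 2) * d3)
    (M3 := (1 - 25 * D * 2 ^ 2) * (1 - 9 * D * 2 ^ 2)) (by ring) (by ring) (by ring) hd1 ?_ ?_
  · rw [mul8 (show (1 - 25 * D * 2 ^ 2) % 8 = 5 by omega) hd3]; norm_num
  · rw [mul8 (show (1 - 25 * D * 2 ^ 2) % 8 = 5 by omega)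
      (show (1 - 9 * D * 2 ^ 2) % 8 = 5 by omega)]; norm_num

theorem one_ev {s : ℤ} (hs : s % 2 = 1) (hD : (2 * s + D - 1) % 8 = 0) (hd1 : d1 % 8 = 1) :
    Loc ℚ_[2] (25 * D) (9 * D) d1 (2 * s) := by
  have hX : (25 * D + 2 * s) % 8 = 1 := by omega
  refine loc_2 1 (25 * D + 2 * s) one_ne_zero 0 1 1 (M1 := (25 * D + 2 * s) * d1) (M2 := s * s)
    (M3 := (25 * D + 2 * s) * (s * (s + 8 * D))) (by ring) (by ring) (by ring) ?_ (sq8 hs) ?_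
  · rw [mul8 hX hd1]; norm_num
  · have h : (s * (s + 8 * D)) % 8 = 1 := by
      have e : s * (s + 8 * D) = s * s + 8 * (s * D) := by ring
      rw [e]
      have := sq8 hs
      omega
    rw [mul8 hX h]; norm_num

theorem D_one (hD : D % 2 = 1) (hd1 : d1 % 8 = D % 8) (hd3 : d3 % 8 = 1) :
    Loc ℚ_[2] (25 * D) (9 * D) d1 d3 := by
  have hX : (25 * D + 1024) % 8 = D % 8 := by omega
  have hDD := sq8 hD
  refine loc_2 1 (25 * D + 1024) one_ne_zero 0 5 7 (M1 := (25 * D + 1024) * d1) (M2 := d3)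
    (M3 := (25 * D + 1024) * (D + 64)) (by ring) (by ring) (by ring) ?_ hd3 ?_
  · rw [mul8 hX hd1, ← Int.mul_emod]; exact hDD
  · rw [mul8 hX (show (D + 64) % 8 = D % 8 by omega), ← Int.mul_emod]; exact hDD

theorem D_five (hD : D % 2 = 1) (hd1 : d1 % 8 = D % 8) (hd3 : d3 % 8 = 5) :
    Loc ℚ_[2] (25 * D) (9 * D) d1 d3 := by
  have hX : (25 * D + 320) % 8 = D % 8 := by omega
  have hDD := sq8 hD
  refine loc_2 1 (25 * D + 320) one_ne_zero 0 3 5 (M1 := (25 * D + 320) * d1) (M2 := 5 * d3)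
    (M3 := (25 * D + 320) * (5 * (D + 20))) (by ring) (by ring) (by ring) ?_ ?_ ?_
  · rw [mul8 hX hd1, ← Int.mul_emod]; exact hDD
  · omega
  · have h : D % 8 = 1 ∨ D % 8 = 3 ∨ D % 8 = 5 ∨ D % 8 = 7 := by omega
    rcases h with h | h | h | h
    · rw [mul8 (hX.trans h) (show (5 * (D + 20)) % 8 = 1 by omega)]; norm_num
    · rw [mul8 (hX.trans h) (show (5 * (D + 20)) % 8 = 3 by omega)]; norm_num
    · rw [mul8 (hX.trans h) (show (5 * (D + 20)) % 8 = 5 by omega)]; norm_num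
    · rw [mul8 (hX.trans h) (show (5 * (D + 20)) % 8 = 7 by omega)]; norm_num

theorem D_ev {s : ℤ} (hs : s % 2 = 1) (hD : (2 * s + D - 1) % 8 = 0) (hd1 : d1 % 8 = D % 8) :
    Loc ℚ_[2] (25 * D) (9 * D) d1 (2 * s) := by
  have hD2 : D % 2 = 1 := by omega
  have hX : (25 * D + 8 * s) % 8 = D % 8 := by omega
  have hDD := sq8 hD2
  refine loc_2 1 (25 * D + 8 * s) one_ne_zero 0 2 3 (M1 := (25 * D + 8 * s) * d1) (M2 := s * s)
    (M3 := (25 * D + 8 * s) * (s * (s + 2 * D))) (by ring) (by ring) (by ring) ?_ (sq8 hs) ?_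
  · rw [mul8 hX hd1, ← Int.mul_emod]; exact hDD
  · have h : (D % 8 = 3 ∧ (s % 8 = 3 ∨ s % 8 = 7)) ∨ (D % 8 = 7 ∧ (s % 8 = 1 ∨ s % 8 = 5)) := by
      omega
    rcases h with ⟨h, h' | h'⟩ | ⟨h, h' | h'⟩
    · rw [mul8 (hX.trans h) (mul8 h' (show (s + 2 * D) % 8 = 1 by omega))]; norm_num
    · rw [mul8 (hX.trans h) (mul8 h' (show (s + 2 * D) % 8 = 5 by omega))]; norm_num
    · rw [mul8 (hX.trans h) (mul8 h' (show (s + 2 * D) % 8 = 7 by omega))]; norm_num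
    · rw [mul8 (hX.trans h) (mul8 h' (show (s + 2 * D) % 8 = 3 by omega))]; norm_num

end L2B2

open L2B2 in
theorem t_L2B2 : S_L2B2 := by
  intro _ D d1 d3 hD _ _ hA hC
  have hD2 : D % 2 = 1 := by omega
  have h1 : d1 % 8 = 1 ∨ d1 % 8 = D % 8 := by
    rcases hA with ⟨h, _⟩ | ⟨_, h | ⟨_, h⟩ | ⟨h, _⟩⟩
    · omega
    · exact Or.inl h
    · exact Or.inr h
    · omega
  have h3 : d3 % 4 = 1 ∨ (d3 + D - 1) % 8 = 0 := by
    rcases hC with ⟨h, _⟩ | ⟨_, h⟩ | ⟨h, _⟩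
    · omega
    · exact h
    · omega
  rcases h3 with h3 | h3
  · have h4 : d3 % 8 = 1 ∨ d3 % 8 = 5 := by omega
    rcases h1 with h1 | h1 <;> rcases h4 with h4 | h4
    · exact one_one h1 h4
    · exact one_five hD2 h1 h4
    · exact D_one hD2 h1 h4
    · exact D_five hD2 h1 h4
  · obtain ⟨s, rfl⟩ : ∃ s, d3 = 2 * s := ⟨d3 / 2, by omega⟩
    have hs : s % 2 = 1 := by omega
    rcases h1 with h1 | h1
    · exact one_ev hs h3 h1
    · exact D_ev hs h3 h1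

end Pool.Agent.NH3.XS
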