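import Pool.Agent.NH3.XS.Stm
import Pool.Agent.Y667.RP.Two

/-!
# Project XS, L2C2: 2-adic points, `D = 2` modulo `4`
-/

set_option autoImplicit false

namespace Pool.Agent.NH3.XS.L2C2

open Pool.Agent.W307.SE (Loc)

lemma sq2' [Fact (Nat.Prime 2)] (k : ℕ) {M N : ℤ} (hM : M % 8 = 1)
    (hN : N = ((2 : ℤ) ^ k) ^ 2 * M) : IsSquare ((N : ℤ) : ℚ_[2]) := by
  have h1 : (2 : ℤ) ^ 3 ∣ M - 1 := by norm_num; omega
  have h2 := Pool.Agent.Y667.RP.norm_int_le h1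
  obtain ⟨v, hv⟩ := Pool.Agent.Y667.RP.sq_near_one (w := ((M - 1 : ℤ) : ℚ_[2])) (by
    refine h2.trans (le_of_eq (by norm_num)))
  refine ⟨2 ^ k * v, ?_⟩
  have h3 : (M : ℚ_[2]) = v * v := by
    rw [← hv]; push_cast; ring
  rw [hN]
  push_cast
  rw [h3]
  ring

lemma loc_of' {K : Type} [Field K] [CharZero K] {A B d1 d2 : ℤ} (m X : ℤ) (hm : m ≠ 0)
    (h1 : IsSquare ((X * d1 : ℤ) : K)) (h2 : IsSquare (((X - A * m ^ 2) * d2 : ℤ) : K))
    (h3 : IsSquare ((X * (X - A * m ^ 2) * (X - B * m ^ 2) : ℤ) : K))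
    (h0 : X * (X - A * m ^ 2) * (X - B * m ^ 2) ≠ 0) : Loc K A B d1 d2 := by
  have hm' : (m : K) ≠ 0 := by exact_mod_cast hm
  obtain ⟨r1, hr1⟩ := h1
  obtain ⟨r2, hr2⟩ := h2
  obtain ⟨r3, hr3⟩ := h3
  push_cast at hr1 hr2 hr3
  have h0' : (X : K) * (X - A * m ^ 2) * (X - B * m ^ 2) ≠ 0 := by exact_mod_cast h0
  refine ⟨X / m ^ 2, r3 / m ^ 3, ?_, ?_, ⟨r1 / m, ?_⟩, ⟨r2 / m, ?_⟩⟩
  · refine div_ne_zero ?_ (pow_ne_zero _ hm')
    rintro rfl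
    apply h0'
    rw [hr3, mul_zero]
  · rw [div_pow, sq, ← hr3]
    field_simp
  · field_simp
    linear_combination hr1
  · field_simp
    linear_combination hr2

lemma loc_2' [Fact (Nat.Prime 2)] {A B d1 d2 : ℤ} (m X : ℤ) (hm : m ≠ 0) (k1 k2 k3 : ℕ)
    (M1 M2 M3 : ℤ) (e1 : X * d1 = ((2 : ℤ) ^ k1) ^ 2 * M1)
    (e2 : (X - A * m ^ 2) * d2 = ((2 : ℤ) ^ k2) ^ 2 * M2)
    (e3 : X * (X - A * m ^ 2) * (X - B * m ^ 2) = ((2 : ℤ) ^ k3) ^ 2 * M3)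
    (j1 : M1 % 8 = 1) (j2 : M2 % 8 = 1) (j3 : M3 % 8 = 1) :
    Loc ℚ_[2] A B d1 d2 := by
  refine loc_of' m X hm (sq2' k1 j1 e1) (sq2' k2 j2 e2) (sq2' k3 j3 e3) ?_
  rw [e3]
  have h3 : M3 ≠ 0 := by omega
  positivity

lemma mul8' {x y a b : ℤ} (hx : x % 8 = a) (hy : y % 8 = b) : (x * y) % 8 = (a * b) % 8 := by
  rw [Int.mul_emod, hx, hy]

lemma sq8 {x y : ℤ} (h : (x - y) % 8 = 0) (hx : x % 2 = 1) : (x * y) % 8 = 1 := by
  have h1 : x % 8 = 1 ∨ x % 8 = 3 ∨ x % 8 = 5 ∨ x % 8 = 7 := by omega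
  rcases h1 with h1 | h1 | h1 | h1
  · rw [mul8' h1 (show y % 8 = 1 by omega)]; norm_num
  · rw [mul8' h1 (show y % 8 = 3 by omega)]; norm_num
  · rw [mul8' h1 (show y % 8 = 5 by omega)]; norm_num
  · rw [mul8' h1 (show y % 8 = 7 by omega)]; norm_num

/-- the class `1` of `x` -/
lemma part1 [Fact (Nat.Prime 2)] (g d1 d3 : ℤ) (hg : g % 2 = 1) (h1 : d1 % 8 = 1)
    (hC : d3 % 8 = 1 ∨ (d3 + 2 * g - 1) % 8 = 0 ∨ (d3 + 2 * g) % 16 = 0 ∨ (d3 + 2 * g - 4) % 16 = 0) :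
    Loc ℚ_[2] (25 * (2 * g)) (9 * (2 * g)) d1 d3 := by
  rcases hC with h | h | h | h
  · exact loc_2' 4 1 (by norm_num) 0 0 0 d1 ((1 - 800 * g) * d3) ((1 - 800 * g) * (1 - 288 * g))
      (by ring) (by ring) (by ring) h1 (sq8 (by omega) (by omega)) (sq8 (by omega) (by omega))
  · exact loc_2' 1 1 (by norm_num) 0 0 0 d1 ((1 - 50 * g) * d3) ((1 - 50 * g) * (1 - 18 * g))
      (by ring) (by ring) (by ring) h1 (sq8 (by omega) (by omega)) (sq8 (by omega) (by omega))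
  · obtain ⟨s, rfl⟩ : ∃ s, d3 = 2 * s := ⟨d3 / 2, by omega⟩
    exact loc_2' 1 16 (by norm_num) 2 1 3 d1 ((8 - 25 * g) * s) ((8 - 25 * g) * (8 - 9 * g))
      (by ring) (by ring) (by ring) h1 (sq8 (by omega) (by omega)) (sq8 (by omega) (by omega))
  · obtain ⟨s, rfl⟩ : ∃ s, d3 = 2 * s := ⟨d3 / 2, by omega⟩
    exact loc_2' 1 4 (by norm_num) 1 1 2 d1 ((2 - 25 * g) * s) ((2 - 25 * g) * (2 - 9 * g))
      (by ring) (by ring) (by ring) h1 (sq8 (by omega) (by omega)) (sq8 (by omega) (by omega))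

/-- the class `D` of `x` -/
lemma part2 [Fact (Nat.Prime 2)] (g e d3 : ℤ) (hg : g % 2 = 1) (h1 : (e - g) % 8 = 0)
    (hC : d3 % 8 = 1 ∨ (d3 + 2 * g - 1) % 8 = 0 ∨ (d3 + 2 * g) % 16 = 0 ∨ (d3 + 2 * g - 4) % 16 = 0) :
    Loc ℚ_[2] (25 * (2 * g)) (9 * (2 * g)) (2 * e) d3 := by
  rcases hC with h | h | h | h
  · exact loc_2' 1 (2 * (25 * g + 512)) (by norm_num) 1 5 8 ((25 * g + 512) * e) d3
      ((25 * g + 512) * (g + 32)) (by ring) (by ring) (by ring) (sq8 (by omega) (by omega)) h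
      (sq8 (by omega) (by omega))
  · refine loc_2' 1 (2 * (25 * g + 32 * d3)) (by norm_num) 1 3 6 ((25 * g + 32 * d3) * e) (d3 * d3)
      ((25 * g + 32 * d3) * (d3 * (g + 2 * d3))) (by ring) (by ring) (by ring)
      (sq8 (by omega) (by omega)) (sq8 (by omega) (by omega)) (sq8 ?_ (by omega))
    have h2 : g % 8 = 1 ∨ g % 8 = 3 ∨ g % 8 = 5 ∨ g % 8 = 7 := by omega
    rcases h2 with h2 | h2 | h2 | h2
    · have := mul8' (show d3 % 8 = 7 by omega) (show (g + 2 * d3) % 8 = 7 by omega)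
      norm_num at this; omega
    · have := mul8' (show d3 % 8 = 3 by omega) (show (g + 2 * d3) % 8 = 1 by omega)
      norm_num at this; omega
    · have := mul8' (show d3 % 8 = 7 by omega) (show (g + 2 * d3) % 8 = 3 by omega)
      norm_num at this; omega
    · have := mul8' (show d3 % 8 = 3 by omega) (show (g + 2 * d3) % 8 = 5 by omega)
      norm_num at this; omega
  · obtain ⟨s, rfl⟩ : ∃ s, d3 = 2 * s := ⟨d3 / 2, by omega⟩
    exact loc_2' 1 (2 * (9 * g - 2048)) (by norm_num) 1 3 9 ((9 * g - 2048) * e)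
      ((-(g + 128)) * s) ((9 * g - 2048) * (g + 128)) (by ring) (by ring) (by ring)
      (sq8 (by omega) (by omega)) (sq8 (by omega) (by omega)) (sq8 (by omega) (by omega))
  · obtain ⟨s, rfl⟩ : ∃ s, d3 = 2 * s := ⟨d3 / 2, by omega⟩
    have h2 : g % 4 = 1 ∨ g % 4 = 3 := by omega
    rcases h2 with h2 | h2
    · exact loc_2' 1 (2 * (9 * g + 32)) (by norm_num) 1 3 6 ((9 * g + 32) * e)
        ((2 - g) * s) ((9 * g + 32) * (2 - g)) (by ring) (by ring) (by ring)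
        (sq8 (by omega) (by omega)) (sq8 (by omega) (by omega)) (sq8 (by omega) (by omega))
    · exact loc_2' 1 (2 * (9 * g + 160)) (by norm_num) 1 3 6 ((9 * g + 160) * e)
        ((10 - g) * s) ((9 * g + 160) * (5 * (10 - g))) (by ring) (by ring) (by ring)
        (sq8 (by omega) (by omega)) (sq8 (by omega) (by omega)) (sq8 (by omega) (by omega))

theorem t_L2C2 : S_L2C2 := by
  intro _ D d1 d3 hD _ _ hA hC
  obtain ⟨g, rfl⟩ : ∃ g, D = 2 * g := ⟨D / 2, by omega⟩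
  have hg : g % 2 = 1 := by omega
  have hC' : d3 % 8 = 1 ∨ (d3 + 2 * g - 1) % 8 = 0 ∨ (d3 + 2 * g) % 16 = 0 ∨ (d3 + 2 * g - 4) % 16 = 0 := by
    unfold C2 at hC
    rcases hC with h | h | h
    · exact absurd h.1 (by omega)
    · exact absurd h.1 (by omega)
    · exact h.2
  unfold A2 at hA
  rcases hA with h | ⟨-, h | h | h⟩
  · exact absurd h.1 (by omega)
  · exact part1 g d1 d3 hg h hC'
  · exact absurd h.1 (by omega)
  · obtain ⟨e, rfl⟩ : ∃ e, d1 = 2 * e := ⟨d1 / 2, by omega⟩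
    exact part2 g e d3 hg (by omega) hC'

end Pool.Agent.NH3.XS.L2C2
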