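import Pool.Agent.NH3.XS.Stm
import Pool.Agent.Y667.RP.Two

/-!
# XS-7: squares in `ℚ_2` and the reduction of the conditions at `2` to integral `x` (helper58)
-/

set_option autoImplicit false
set_option linter.unusedVariables false

open scoped Classical

namespace Pool.Agent.NH3.XS.L2R

open Pool.Agent.W307.SE (Loc)

/-- an integer that is a square in `ℚ_2` is a square modulo `8` -/
lemma sq_mod8 [Fact (Nat.Prime 2)] {d : ℤ} (h : IsSquare (d : ℚ_[2])) :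
    d % 8 = 0 ∨ d % 8 = 1 ∨ d % 8 = 4 := by
  obtain ⟨r, hr⟩ := h
  have h1 : ‖r‖ ≤ 1 := by
    by_contra hcon
    push Not at hcon
    have h2 : ‖(d : ℚ_[2])‖ ≤ 1 := Padic.norm_int_le_one d
    rw [hr, norm_mul] at h2
    nlinarith
  obtain ⟨v, hv⟩ : ∃ v : ℤ_[2], (v : ℚ_[2]) = r := ⟨⟨r, h1⟩, rfl⟩
  have h2 : ((d : ℤ) : ℤ_[2]) = v * v := by
    apply Subtype.ext
    rw [PadicInt.coe_mul, hv]
    push_cast
    exact hr
  have h3 := congrArg (PadicInt.toZModPow (p := 2) 3) h2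
  rw [map_mul, map_intCast] at h3
  have h4 : ∀ t e : ZMod (2 ^ 3), e = t * t → e = 0 ∨ e = 1 ∨ e = 4 := by decide
  have h7 : ∀ c : ℤ, ((d : ℤ) : ZMod 8) = (c : ZMod 8) → d % 8 = c % 8 := by
    intro c hc
    have h6 : ((d - c : ℤ) : ZMod 8) = 0 := by
      push_cast
      rw [hc, sub_self]
    have : ((8 : ℕ) : ℤ) ∣ d - c := (ZMod.intCast_zmod_eq_zero_iff_dvd _ 8).1 h6
    push_cast at this
    omega
  rcases h4 _ _ h3 with h5 | h5 | h5
  · left
    have := h7 0 (by simpa using (show ((d : ℤ) : ZMod 8) = 0 from h5))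
    omega
  · right
    left
    have := h7 1 (by simpa using (show ((d : ℤ) : ZMod 8) = 1 from h5))
    omega
  · right
    right
    have := h7 4 (by
      have : ((d : ℤ) : ZMod 8) = 4 := h5
      rw [this]
      norm_num)
    omega

lemma split_four : ∀ (N : ℕ) (n : ℤ), n.natAbs ≤ N → n ≠ 0 →
    ∃ (k : ℕ) (u : ℤ), n = 4 ^ k * u ∧ ¬ (4 : ℤ) ∣ u := by
  intro N
  induction N with
  | zero =>
    intro n hn h0
    exfalso
    omega
  | succ N ih =>
    intro n hn h0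
    by_cases h : (4 : ℤ) ∣ n
    · obtain ⟨v, rfl⟩ := h
      obtain ⟨k, u, hk, hu⟩ := ih v (by omega) (by omega)
      refine ⟨k + 1, u, ?_, hu⟩
      rw [hk, pow_succ]
      ring
    · exact ⟨0, n, by simp, h⟩

/-- `1` modulo `8` is a square -/
lemma sq_of_mod8 [Fact (Nat.Prime 2)] {u : ℤ} (hu : u % 8 = 1) : IsSquare (u : ℚ_[2]) := by
  obtain ⟨w, rfl⟩ : ∃ w, u = 8 * w + 1 := ⟨u / 8, by omega⟩
  obtain ⟨z, hz⟩ := Pool.Agent.Y667.RP.hens 2 ((w : ℤ) : ℤ_[2])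
  refine ⟨(z : ℚ_[2]), ?_⟩
  have h := congrArg (fun t : ℤ_[2] => (t : ℚ_[2])) hz
  simp only [PadicInt.coe_mul, PadicInt.coe_add, PadicInt.coe_one] at h
  have e4 : ((4 : ℤ_[2]) : ℚ_[2]) = 4 := rfl
  have e2 : (((2 : ℕ) : ℤ_[2]) : ℚ_[2]) = 2 := rfl
  have ew : (((w : ℤ) : ℤ_[2]) : ℚ_[2]) = (w : ℚ_[2]) := PadicInt.coe_intCast w
  rw [e4, e2, ew] at h
  rw [← h]
  push_cast
  ring

end Pool.Agent.NH3.XS.L2R

namespace Pool.Agent.NH3.XS

open L2R

theorem t_SQ2 : S_SQ2 := by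
  intro _ n hn
  constructor
  · intro h
    obtain ⟨k, u, rfl, hu⟩ := split_four _ n le_rfl hn
    refine ⟨k, u, rfl, ?_⟩
    obtain ⟨r, hr⟩ := h
    have h2 : ((2 : ℚ_[2]) ^ k) ≠ 0 := pow_ne_zero _ two_ne_zero
    have h3 : IsSquare (u : ℚ_[2]) := by
      refine ⟨r / 2 ^ k, ?_⟩
      have e : (4 : ℚ_[2]) ^ k = 2 ^ k * 2 ^ k := by
        rw [← mul_pow]
        norm_num
      push_cast at hr
      rw [e] at hr
      field_simp
      linear_combination hr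
    rcases sq_mod8 h3 with h | h | h <;> omega
  · rintro ⟨k, u, rfl, hu⟩
    obtain ⟨r, hr⟩ := sq_of_mod8 hu
    refine ⟨2 ^ k * r, ?_⟩
    have e : (4 : ℚ_[2]) ^ k = 2 ^ k * 2 ^ k := by
      rw [← mul_pow]
      norm_num
    push_cast
    rw [e, hr]
    ring

end Pool.Agent.NH3.XS

namespace Pool.Agent.NH3.XS.L2R

open Pool.Agent.W307.SE (Loc)

lemma sq2_mod {n : ℤ} (h : Sq2 n) : n % 8 = 0 ∨ n % 8 = 1 ∨ n % 8 = 4 := by
  obtain ⟨k, u, rfl, hu⟩ := h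
  rcases k with _ | _ | k
  · rw [pow_zero, one_mul]
    omega
  · rw [zero_add, pow_one]
    omega
  · have e : (4 : ℤ) ^ (k + 1 + 1) * u = 8 * (2 * (4 ^ k * u)) := by ring
    rw [e]
    omega

lemma sq2_four {n : ℤ} (h : Sq2 (4 * n)) : Sq2 n := by
  obtain ⟨k, u, hk, hu⟩ := h
  rcases k with _ | k
  · rw [pow_zero, one_mul] at hk
    omega
  · refine ⟨k, u, ?_, hu⟩
    have e : (4 : ℤ) ^ (k + 1) * u = 4 * (4 ^ k * u) := by ring
    rw [e] at hk
    omega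

lemma not_four {d : ℤ} (h : Squarefree d) : ¬ (4 : ℤ) ∣ d := by
  intro hd
  have h1 : (2 : ℤ) * 2 ∣ d := by norm_num; exact hd
  have h2 := h 2 h1
  rw [Int.isUnit_iff] at h2
  omega

/-- the case of an odd `X` -/
lemma odd_case {D E X d1 d3 : ℤ} (hE : D % 2 = 0 → E % 2 = 0) (hX : X % 2 = 1)
    (h1 : Squarefree d1) (h3 : Squarefree d3)
    (s1 : Sq2 (X * d1)) (s3 : Sq2 ((X - 100 * E) * d3))
    (s : Sq2 (X * (X - 100 * E) * (X - 36 * E))) : A2 D d1 ∧ C2 D d3 := by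
  have n1 := not_four h1
  have n3 := not_four h3
  -- `X = 1` modulo `8`
  obtain ⟨a, ha⟩ : ∃ a, X = 2 * a + 1 := ⟨X / 2, by omega⟩
  obtain ⟨b, hb⟩ := Int.even_mul_succ_self a
  have hX8 : X % 8 = 1 := by
    have e : X * (X - 100 * E) * (X - 36 * E) =
        X + 8 * (X * (b - 17 * X * E + 450 * E ^ 2)) := by
      have e2 : X ^ 2 = 8 * b + 1 := by
        rw [ha]
        linear_combination 4 * hb
      linear_combination X * e2
    have := sq2_mod s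
    rw [e] at this
    omega
  obtain ⟨q, hq⟩ : ∃ q, X = 8 * q + 1 := ⟨X / 8, by omega⟩
  have hd1 : d1 % 8 = 1 := by
    have e : X * d1 = 8 * (q * d1) + d1 := by rw [hq]; ring
    have := sq2_mod s1
    rw [e] at this
    omega
  have hd3 : d3 % 8 = 1 ∨ (D % 2 = 1 ∧ d3 % 8 = 5) := by
    have := sq2_mod s3
    rcases Int.emod_two_eq_zero_or_one E with h | h
    · left
      obtain ⟨f, hf⟩ : ∃ f, E = 2 * f := ⟨E / 2, by omega⟩
      have e : (X - 100 * E) * d3 = 8 * (q * d3 - 25 * (f * d3)) + d3 := by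
        rw [hq, hf]
        ring
      rw [e] at this
      omega
    · right
      obtain ⟨f, hf⟩ : ∃ f, E = 2 * f + 1 := ⟨E / 2, by omega⟩
      have e : (X - 100 * E) * d3 = 8 * (q * d3 - 25 * (f * d3) - 13 * d3) + 5 * d3 := by
        rw [hq, hf]
        ring
      rw [e] at this
      refine ⟨?_, by omega⟩
      by_contra hc
      have := hE (by omega)
      omega
  unfold A2 C2
  omega

lemma red {c : ℤ} (J : S_J2 c) : ∀ (m : ℕ) (D X d1 d3 : ℤ), D % 4 = c → Squarefree d1 →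
    Squarefree d3 → X * (X - 25 * D * 4 ^ m) * (X - 9 * D * 4 ^ m) ≠ 0 → Sq2 (X * d1) →
    Sq2 ((X - 25 * D * 4 ^ m) * d3) → Sq2 (X * (X - 25 * D * 4 ^ m) * (X - 9 * D * 4 ^ m)) →
    A2 D d1 ∧ C2 D d3 := by
  intro m
  induction m with
  | zero =>
    intro D X d1 d3 hD h1 h3 hne s1 s3 s
    simp only [pow_zero, mul_one] at hne s3 s
    exact J D X d1 d3 hD h1 h3 hne s1 s3 s
  | succ m ih =>
    intro D X d1 d3 hD h1 h3 hne s1 s3 s
    by_cases h4 : (4 : ℤ) ∣ X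
    · obtain ⟨Y, rfl⟩ := h4
      refine ih D Y d1 d3 hD h1 h3 ?_ (sq2_four ?_) (sq2_four ?_)
        (sq2_four (sq2_four (sq2_four ?_)))
      · intro h0
        apply hne
        have e : 4 * Y * (4 * Y - 25 * D * 4 ^ (m + 1)) * (4 * Y - 9 * D * 4 ^ (m + 1)) =
            64 * (Y * (Y - 25 * D * 4 ^ m) * (Y - 9 * D * 4 ^ m)) := by ring
        rw [e, h0, mul_zero]
      · convert s1 using 1
        ring
      · convert s3 using 1
        ring
      · convert s using 1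
        ring
    · rcases Int.emod_two_eq_zero_or_one X with h2 | h2
      · exfalso
        obtain ⟨Y, hY, hY2⟩ : ∃ Y, X = 2 * Y ∧ Y % 2 = 1 := ⟨X / 2, by omega, by omega⟩
        obtain ⟨Z, hZ⟩ : ∃ Z, Y = 2 * Z + 1 := ⟨Y / 2, by omega⟩
        have e : X * (X - 25 * D * 4 ^ (m + 1)) * (X - 9 * D * 4 ^ (m + 1)) =
            4 * (2 * (2 * (Z * (Y - 50 * D * 4 ^ m) * (Y - 18 * D * 4 ^ m)
              + Z * (Y - 18 * D * 4 ^ m) - 25 * D * 4 ^ m * (Y - 18 * D * 4 ^ m)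
              + Z - 9 * D * 4 ^ m) + 1)) := by
          rw [hY, hZ]
          ring
        rw [e] at s
        have := sq2_mod (sq2_four s)
        omega
      · refine odd_case (E := D * 4 ^ m) (fun h => ?_) h2 h1 h3 s1 ?_ ?_
        · rw [Int.mul_emod, h, zero_mul, Int.zero_emod]
        · convert s3 using 1
          ring
        · convert s using 1
          ring

lemma fin {c : ℤ} (hA : S_APX) (hS : S_SQ2) (J : S_J2 c) [Fact (Nat.Prime 2)] (D d1 d3 : ℤ)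
    (hD : D % 4 = c) (h1 : Squarefree d1) (h3 : Squarefree d3)
    (h : Loc ℚ_[2] (25 * D) (9 * D) d1 d3) : A2 D d1 ∧ C2 D d3 := by
  obtain ⟨m, X, hne, s1, s3, s⟩ := hA 2 (25 * D) (9 * D) d1 d3 h1.ne_zero h3.ne_zero h
  have e : (((2 : ℕ) : ℤ) ^ m) ^ 2 = 4 ^ m := by
    rw [← pow_mul, mul_comm, pow_mul]
    norm_num
  rw [e] at hne s3 s
  have hX : X ≠ 0 := fun h0 => hne (by rw [h0]; ring)
  have hY : X - 25 * D * 4 ^ m ≠ 0 := fun h0 => hne (by rw [h0]; ring)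
  exact red J m D X d1 d3 hD h1 h3 hne ((hS _ (mul_ne_zero hX h1.ne_zero)).1 s1)
    ((hS _ (mul_ne_zero hY h3.ne_zero)).1 s3) ((hS _ hne).1 s)

end Pool.Agent.NH3.XS.L2R

namespace Pool.Agent.NH3.XS

open L2R

theorem t_L2R : S_L2R := fun hA hS J1 J3 J2 =>
  ⟨fun D d1 d3 hD h1 h3 h => fin hA hS J1 D d1 d3 hD h1 h3 h,
    fun D d1 d3 hD h1 h3 h => fin hA hS J3 D d1 d3 hD h1 h3 h,
    fun D d1 d3 hD h1 h3 h => fin hA hS J2 D d1 d3 hD h1 h3 h⟩

end Pool.Agent.NH3.XS
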