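import Pool.Agent.NH3.XS.Stm

/-! Project XS, job XS-5: the prime `3` (helper86). -/

set_option autoImplicit false

namespace Pool.Agent.NH3.XS.L3P

section sq

variable {p : ℕ} [hp : Fact p.Prime]

lemma isSquare_one_add (hp2 : p ≠ 2) (r : ℚ_[p]) (hr : ‖r‖ < 1) : IsSquare (1 + r) := by
  let r' : ℤ_[p] := ⟨r, hr.le⟩
  let F : Polynomial ℤ_[p] := Polynomial.X ^ 2 - Polynomial.C (1 + r')
  have hr' : ‖r'‖ < 1 := hr
  have h1 : F.aeval (1 : ℤ_[p]) = -r' := by
    simp [F]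
  have h2 : F.derivative.aeval (1 : ℤ_[p]) = 2 := by
    simp [F, one_add_one_eq_two]
  have h3 : ‖(2 : ℤ_[p])‖ = 1 := by
    have h4 : ¬ (p : ℤ) ∣ 2 := by
      intro h
      have h5 : p ∣ 2 := by exact_mod_cast h
      exact hp2 ((Nat.prime_dvd_prime_iff_eq hp.out Nat.prime_two).1 h5)
    have h5 := (PadicInt.norm_int_lt_one_iff_dvd (p := p) 2).not.2 h4
    have h6 := PadicInt.norm_le_one ((2 : ℤ) : ℤ_[p])
    push_cast at h5 h6
    exact le_antisymm h6 (not_lt.1 h5)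
  have h7 : ‖F.aeval (1 : ℤ_[p])‖ < ‖F.derivative.aeval (1 : ℤ_[p])‖ ^ 2 := by
    rw [h1, h2, h3, norm_neg]
    simpa using hr'
  obtain ⟨z, hz, -⟩ := hensels_lemma h7
  have h8 : z ^ 2 = 1 + r' := by
    have : F.aeval z = z ^ 2 - (1 + r') := by simp [F]
    rw [this] at hz
    linear_combination hz
  refine ⟨(z : ℚ_[p]), ?_⟩
  have h9 : ((z ^ 2 : ℤ_[p]) : ℚ_[p]) = ((1 + r' : ℤ_[p]) : ℚ_[p]) := by rw [h8]
  have h10 : ((1 + r' : ℤ_[p]) : ℚ_[p]) = 1 + r := by
    push_cast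
    rfl
  rw [h10] at h9
  rw [← h9]
  push_cast
  ring

end sq

lemma key3 : ∀ w : ZMod 3, w * w ≠ -1 := by decide

section three

variable [hp : Fact (Nat.Prime 3)]

lemma n3 {z : ℤ} (h : z % 3 = 0) : ‖(z : ℚ_[3])‖ < 1 := by
  rw [Padic.norm_intCast_lt_one_iff]
  exact_mod_cast Int.dvd_of_emod_eq_zero h

lemma n1 {z : ℤ} (h : z % 3 ≠ 0) : ‖(z : ℚ_[3])‖ = 1 := by
  apply le_antisymm (Padic.norm_int_le_one z)
  rw [← not_lt, Padic.norm_intCast_lt_one_iff]
  intro h'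
  exact h (Int.emod_eq_zero_of_dvd (by exact_mod_cast h'))

lemma sqi {z : ℤ} (h : z % 3 = 1) : IsSquare (z : ℚ_[3]) := by
  have h1 := isSquare_one_add (p := 3) (by norm_num) ((z - 1 : ℤ) : ℚ_[3]) (n3 (by omega))
  have h2 : (1 : ℚ_[3]) + ((z - 1 : ℤ) : ℚ_[3]) = z := by push_cast; ring
  rwa [h2] at h1

lemma sqk {z M : ℤ} (k : ℤ) (hz : z = k ^ 2 * M) (h : M % 3 = 1) : IsSquare (z : ℚ_[3]) := by
  obtain ⟨w, hw⟩ := sqi h
  refine ⟨k * w, ?_⟩
  rw [hz]
  push_cast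
  rw [hw]
  ring

lemma not_neg {a b : ℚ_[3]} (ha : a ≠ 0) (h : a * a = -(b * b)) : False := by
  have hb : b ≠ 0 := by
    rintro rfl
    simp at h
    exact ha h
  have h1 : (b / a) * (b / a) = -1 := by
    field_simp
    linear_combination h
  have h2 : ‖b / a‖ = 1 := by
    have := congrArg norm h1
    rw [norm_mul, norm_neg, norm_one] at this
    nlinarith [norm_nonneg (b / a)]
  let u : ℤ_[3] := ⟨b / a, h2.le⟩
  have h3 : u * u = -1 := by
    apply Subtype.ext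
    push_cast
    exact h1
  have h4 := congrArg (PadicInt.toZMod (p := 3)) h3
  rw [map_mul, map_neg, map_one] at h4
  exact key3 _ h4

lemma ev {x w : ℚ_[3]} (hx : x ≠ 0) (h : x = w * w ∨ x = -(w * w)) : Even x.valuation := by
  have hw : w ≠ 0 := by
    rintro rfl
    rcases h with h | h <;> simp at h <;> exact hx h
  rcases h with rfl | rfl
  · rw [Padic.valuation_mul hw hw]
    exact ⟨_, rfl⟩
  · have : (-(w * w)).valuation = (w * w).valuation := by
      have h1 : -(w * w) = (-1 : ℚ_[3]) * (w * w) := by ring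
      rw [h1, Padic.valuation_mul (by norm_num) (mul_ne_zero hw hw)]
      have h2 : (-1 : ℚ_[3]).valuation = 0 := by
        have := Padic.valuation_intCast (p := 3) (-1)
        simpa [padicValInt] using this
      rw [h2, zero_add]
    rw [this, Padic.valuation_mul hw hw]
    exact ⟨_, rfl⟩

lemma nd {a : ℚ_[3]} {d : ℤ} (ha : a ≠ 0) (hd : Squarefree d) (h : Even a.valuation)
    (hs : IsSquare (a * d)) : ¬ (3 : ℤ) ∣ d := by
  intro h3
  have hd0 : d ≠ 0 := hd.ne_zero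
  have hdq : (d : ℚ_[3]) ≠ 0 := by exact_mod_cast hd0
  obtain ⟨w, hw⟩ := hs
  have h1 := ev (mul_ne_zero ha hdq) (Or.inl hw)
  rw [Padic.valuation_mul ha hdq, Padic.valuation_intCast] at h1
  have h2 : padicValInt 3 d = 1 := by
    obtain ⟨e, rfl⟩ := h3
    have he : ¬ (3 : ℤ) ∣ e := by
      intro h
      obtain ⟨f, rfl⟩ := h
      have := hd 3 ⟨f, by ring⟩
      rw [Int.isUnit_iff] at this
      omega
    have he0 : e ≠ 0 := by
      rintro rfl
      simp at he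
    have t1 : padicValInt 3 e = 0 := padicValInt.eq_zero_of_not_dvd (by exact_mod_cast he)
    have t2 : padicValInt 3 3 = 1 := by
      have := padicValInt.self (p := 3) (by norm_num)
      exact_mod_cast this
    rw [padicValInt.mul (by norm_num) he0, t1, t2]
  rw [h2] at h1
  have h3 := (Int.even_add.1 h1).1 h
  revert h3
  decide

/-- `a - b = a (1 - b / a)` is `a` times a square -/
lemma near {a b : ℚ_[3]} (ha : a ≠ 0) (h : ‖b‖ < ‖a‖) : ∃ s : ℚ_[3], a - b = a * (s * s) := by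
  have h1 : ‖-(b / a)‖ < 1 := by
    rw [norm_neg, norm_div, div_lt_one (norm_pos_iff.2 ha)]
    exact h
  obtain ⟨s, hs⟩ := isSquare_one_add (p := 3) (by norm_num) _ h1
  refine ⟨s, ?_⟩
  rw [← hs]
  field_simp
  ring

lemma nec {D : ℤ} (hD : D % 3 = 1) {x y : ℚ_[3]} (hy : y ≠ 0)
    (h : y ^ 2 = x * (x - (25 * D : ℤ)) * (x - (9 * D : ℤ))) :
    Even x.valuation ∧ Even (x - (25 * D : ℤ)).valuation := by
  have hx : x ≠ 0 := by
    rintro rfl
    apply hy
    simpa using h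
  have hb : x - (25 * D : ℤ) ≠ 0 := by
    intro h'
    apply hy
    rw [h'] at h
    simpa using h
  have hc : x - (9 * D : ℤ) ≠ 0 := by
    intro h'
    apply hy
    rw [h'] at h
    simpa using h
  obtain ⟨z, hz⟩ := sqi (z := 25 * D) (by omega)
  obtain ⟨w, hw⟩ := sqi hD
  have n25 : ‖((25 * D : ℤ) : ℚ_[3])‖ = 1 := n1 (by omega)
  have n9 : ‖((9 * D : ℤ) : ℚ_[3])‖ = ‖(9 : ℚ_[3])‖ := by
    push_cast
    rw [norm_mul, n1 (z := D) (by omega), mul_one]
  have e9 : ‖(9 : ℚ_[3])‖ = 1 / 9 := by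
    have h3 : (9 : ℚ_[3]) = ((3 : ℕ) : ℚ_[3]) ^ 2 := by norm_num
    rw [h3, norm_pow, Padic.norm_p]
    norm_num
  have hn := Padic.norm_eq_zpow_neg_valuation hx
  have hn9 : (9 * D : ℤ) ≠ 0 := by
    intro h0
    have : D = 0 := by omega
    omega
  rcases lt_trichotomy x.valuation 0 with hv | hv | hv
  · -- negative valuation
    have h1 : 1 < ‖x‖ := by
      rw [hn]
      exact one_lt_zpow₀ (by norm_num) (by omega)
    obtain ⟨s, hs⟩ := near (b := ((25 * D : ℤ) : ℚ_[3])) hx (by rw [n25]; exact h1)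
    obtain ⟨t, ht⟩ := near (b := ((9 * D : ℤ) : ℚ_[3])) hx (by
      rw [n9, e9]; exact lt_trans (by norm_num) h1)
    have hs0 : s ≠ 0 := by
      rintro rfl
      apply hb
      rw [hs]; ring
    have ht0 : t ≠ 0 := by
      rintro rfl
      apply hc
      rw [ht]; ring
    have h2 : x = (y / (x * s * t)) * (y / (x * s * t)) := by
      rw [hs, ht] at h
      field_simp
      linear_combination -h
    refine ⟨ev hx (Or.inl h2), ev (w := y / (x * s * t) * s) hb (Or.inl ?_)⟩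
    rw [hs]
    conv_lhs => rw [h2]
    ring
  · -- valuation zero
    have h1 : ‖x‖ = 1 := by
      rw [hn, hv]
      simp
    obtain ⟨t, ht⟩ := near (b := ((9 * D : ℤ) : ℚ_[3])) hx (by
      rw [n9, e9, h1]; norm_num)
    have ht0 : t ≠ 0 := by
      rintro rfl
      apply hc
      rw [ht]; ring
    refine ⟨by rw [hv]; decide, ev (w := y / (x * t)) hb (Or.inl ?_)⟩
    rw [ht] at h
    field_simp
    linear_combination -h
  · -- positive valuation
    have h1 : ‖x‖ < 1 := by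
      rw [hn]
      exact zpow_lt_one_of_neg₀ (by norm_num) (by omega)
    have h25 : ((25 * D : ℤ) : ℚ_[3]) ≠ 0 := by
      intro h0
      rw [h0, norm_zero] at n25
      norm_num at n25
    obtain ⟨s, hs⟩ := near (a := ((25 * D : ℤ) : ℚ_[3])) (b := x) h25 (by rw [n25]; exact h1)
    have hb' : x - (25 * D : ℤ) = -((z * s) * (z * s)) := by
      have : x - ((25 * D : ℤ) : ℚ_[3]) = -(((25 * D : ℤ) : ℚ_[3]) - x) := by ring
      rw [this, hs, hz]
      ring
    have evb := ev hb (Or.inr hb')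
    refine ⟨?_, evb⟩
    rcases lt_trichotomy x.valuation 2 with hv2 | hv2 | hv2
    · exfalso
      have hv1 : x.valuation = 1 := by omega
      obtain ⟨t, ht⟩ := near (b := ((9 * D : ℤ) : ℚ_[3])) hx (by
        rw [n9, e9, hn, hv1]; norm_num)
      have ht0 : t ≠ 0 := by
        rintro rfl
        apply hc
        rw [ht]; ring
      have h3 : (y / (x * t)) * (y / (x * t)) = -((z * s) * (z * s)) := by
        rw [← hb']
        rw [ht] at h
        field_simp
        linear_combination h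
      exact not_neg (div_ne_zero hy (mul_ne_zero hx ht0)) h3
    · rw [hv2]
      decide
    · have h9 : ((9 * D : ℤ) : ℚ_[3]) ≠ 0 := by exact_mod_cast hn9
      obtain ⟨t, ht⟩ := near (a := ((9 * D : ℤ) : ℚ_[3])) (b := x) h9 (by
        rw [n9, e9, hn]
        have h4 : ((3 : ℕ) : ℝ) ^ (-x.valuation) ≤ ((3 : ℕ) : ℝ) ^ (-3 : ℤ) :=
          zpow_le_zpow_right₀ (by norm_num) (by omega)
        refine lt_of_le_of_lt h4 ?_
        norm_num)
      have hc' : x - (9 * D : ℤ) = -((3 * w * t) * (3 * w * t)) := by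
        have : x - ((9 * D : ℤ) : ℚ_[3]) = -(((9 * D : ℤ) : ℚ_[3]) - x) := by ring
        rw [this, ht]
        push_cast
        rw [hw]
        ring
      have hbn : (z * s) ≠ 0 := by
        intro h0
        apply hb
        rw [hb', h0]; ring
      have hcn : (3 * w * t) ≠ 0 := by
        intro h0
        apply hc
        rw [hc', h0]; ring
      refine ev (w := y / ((z * s) * (3 * w * t))) hx (Or.inl ?_)
      rw [hb', hc'] at h
      have hbn1 := left_ne_zero_of_mul hbn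
      have hbn2 := right_ne_zero_of_mul hbn
      have hcn2 := right_ne_zero_of_mul hcn
      have hcn1 := right_ne_zero_of_mul (left_ne_zero_of_mul hcn)
      field_simp
      linear_combination -h

lemma mk3 {A B d1 d2 : ℤ} (m X : ℤ) (hm : m ≠ 0) {k1 k2 k3 M1 M2 M3 : ℤ}
    (e1 : X * d1 = k1 ^ 2 * M1) (e2 : (X - A * m ^ 2) * d2 = k2 ^ 2 * M2)
    (e3 : X * (X - A * m ^ 2) * (X - B * m ^ 2) = k3 ^ 2 * M3) (hk : k3 ≠ 0)
    (j1 : M1 % 3 = 1) (j2 : M2 % 3 = 1) (j3 : M3 % 3 = 1) :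
    ∃ x y : ℚ_[3], y ≠ 0 ∧ y ^ 2 = x * (x - A) * (x - B) ∧ IsSquare (x * d1) ∧
      IsSquare ((x - A) * d2) := by
  have h3 : M3 ≠ 0 := by omega
  have h0 : X * (X - A * m ^ 2) * (X - B * m ^ 2) ≠ 0 := by
    rw [e3]
    exact mul_ne_zero (pow_ne_zero _ hk) h3
  have hm' : (m : ℚ_[3]) ≠ 0 := by exact_mod_cast hm
  obtain ⟨r1, hr1⟩ := sqk k1 e1 j1
  obtain ⟨r2, hr2⟩ := sqk k2 e2 j2
  obtain ⟨r3, hr3⟩ := sqk k3 e3 j3
  push_cast at hr1 hr2 hr3
  have h0' : (X : ℚ_[3]) * (X - A * m ^ 2) * (X - B * m ^ 2) ≠ 0 := by exact_mod_cast h0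
  refine ⟨X / m ^ 2, r3 / m ^ 3, ?_, ?_, ⟨r1 / m, ?_⟩, ⟨r2 / m, ?_⟩⟩
  · refine div_ne_zero ?_ (pow_ne_zero _ hm')
    rintro rfl
    apply h0'
    rw [hr3, mul_zero]
  · rw [div_pow, sq, ← hr3]
    field_simp
  · field_simp
    linear_combination hr1
  · field_simp
    linear_combination hr2

lemma suff {D d1 d3 : ℤ} (hD : D % 3 = 1) (h1 : ¬ (3 : ℤ) ∣ d1) (h3 : ¬ (3 : ℤ) ∣ d3) :
    ∃ x y : ℚ_[3], y ≠ 0 ∧ y ^ 2 = x * (x - (25 * D : ℤ)) * (x - (9 * D : ℤ)) ∧
      IsSquare (x * d1) ∧ IsSquare ((x - (25 * D : ℤ)) * d3) := by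
  have a1 : d1 % 3 = 1 ∨ d1 % 3 = 2 := by omega
  have a3 : d3 % 3 = 1 ∨ d3 % 3 = 2 := by omega
  rcases a1 with a1 | a1 <;> rcases a3 with a3 | a3
  · refine mk3 3 1 (by norm_num) (k1 := 1) (k2 := 1) (k3 := 1) (M1 := d1)
      (M2 := (1 - 225 * D) * d3) (M3 := (1 - 225 * D) * (1 - 81 * D)) (by ring) (by ring)
      (by ring) (by norm_num) a1 ?_ ?_
    · rw [Int.mul_emod, a3, show (1 - 225 * D) % 3 = 1 by omega]; rfl
    · rw [Int.mul_emod, show (1 - 81 * D) % 3 = 1 by omega,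
        show (1 - 225 * D) % 3 = 1 by omega]; rfl
  · refine mk3 1 81 (by norm_num) (k1 := 9) (k2 := 1) (k3 := 27) (M1 := d1)
      (M2 := (81 - 25 * D) * d3) (M3 := (81 - 25 * D) * (9 - D)) (by ring) (by ring)
      (by ring) (by norm_num) a1 ?_ ?_
    · rw [Int.mul_emod, a3, show (81 - 25 * D) % 3 = 2 by omega]; rfl
    · rw [Int.mul_emod, show (9 - D) % 3 = 2 by omega,
        show (81 - 25 * D) % 3 = 2 by omega]; rfl
  · refine mk3 1 2 (by norm_num) (k1 := 1) (k2 := 1) (k3 := 1) (M1 := 2 * d1)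
      (M2 := (2 - 25 * D) * d3) (M3 := (2 - 25 * D) * (2 * (2 - 9 * D))) (by ring) (by ring)
      (by ring) (by norm_num) (by omega) ?_ ?_
    · rw [Int.mul_emod, a3, show (2 - 25 * D) % 3 = 1 by omega]; rfl
    · rw [Int.mul_emod, show (2 * (2 - 9 * D)) % 3 = 1 by omega,
        show (2 - 25 * D) % 3 = 1 by omega]; rfl
  · refine mk3 1 18 (by norm_num) (k1 := 3) (k2 := 1) (k3 := 9) (M1 := 2 * d1)
      (M2 := (18 - 25 * D) * d3) (M3 := (18 - 25 * D) * (2 * (2 - D))) (by ring) (by ring)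
      (by ring) (by norm_num) (by omega) ?_ ?_
    · rw [Int.mul_emod, a3, show (18 - 25 * D) % 3 = 2 by omega]; rfl
    · rw [Int.mul_emod, show (2 * (2 - D)) % 3 = 2 by omega,
        show (18 - 25 * D) % 3 = 2 by omega]; rfl

end three

end Pool.Agent.NH3.XS.L3P

namespace Pool.Agent.NH3.XS

theorem t_L3 : S_L3 := by
  intro _ D d1 d3 hD q1 q3
  constructor
  · rintro ⟨x, y, hy, he, h1, h3⟩
    have h := L3P.nec hD hy he
    have hx : x ≠ 0 := by
      rintro rfl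
      apply hy
      simpa using he
    have hb : x - (25 * D : ℤ) ≠ 0 := by
      intro h'
      apply hy
      rw [h'] at he
      simpa using he
    exact ⟨L3P.nd hx q1 h.1 h1, L3P.nd hb q3 h.2 h3⟩
  · rintro ⟨h1, h3⟩
    exact L3P.suff hD h1 h3

end Pool.Agent.NH3.XS
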