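import Pool.Agent.NH3.XS.Stm

/-!
# Project XS: the prime 5
-/

set_option autoImplicit false

namespace Pool.Agent.NH3.XS

open Pool.Agent.W307.SE (Loc)

namespace L5

section gen

variable {p : ℕ} [hp : Fact p.Prime]

/-- `1 + r` is a square if `r` has positive valuation and `p` is odd. -/
lemma sq1 (hp2 : p ≠ 2) (r : ℚ_[p]) (hr : ‖r‖ < 1) : IsSquare (1 + r) := by
  let r' : ℤ_[p] := ⟨r, hr.le⟩
  let F : Polynomial ℤ_[p] := Polynomial.X ^ 2 - Polynomial.C (1 + r')
  have hr' : ‖r'‖ < 1 := hr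
  have h1 : F.aeval (1 : ℤ_[p]) = -r' := by
    simp [F]
  have h2 : F.derivative.aeval (1 : ℤ_[p]) = 2 := by
    simp [F, one_add_one_eq_two]
  have h3 : ‖(2 : ℤ_[p])‖ = 1 := by
    have h4 : ¬ (p : ℤ) ∣ 2 := by
      intro h
      have h5 : p ∣ 2 := by exact_mod_cast h
      exact hp2 ((Nat.prime_dvd_prime_iff_eq hp.out Nat.prime_two).1 h5)
    have h5 : ¬ ‖((2 : ℤ) : ℚ_[p])‖ < 1 := by
      rw [Padic.norm_intCast_lt_one_iff]
      exact h4
    have h6 : ‖(2 : ℤ_[p])‖ = ‖((2 : ℤ) : ℚ_[p])‖ := by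
      rw [PadicInt.norm_def]
      norm_cast
    have h7 := PadicInt.norm_le_one (2 : ℤ_[p])
    rw [h6] at h7 ⊢
    exact le_antisymm h7 (not_lt.1 h5)
  obtain ⟨z, hz, -⟩ := hensels_lemma (p := p) (R := ℤ_[p]) (F := F) (a := 1) (by
    rw [h1, h2, h3, norm_neg]
    simpa using hr')
  have h8 : z ^ 2 = 1 + r' := by
    have : F.aeval z = z ^ 2 - (1 + r') := by simp [F]
    rw [this] at hz
    exact sub_eq_zero.1 hz
  refine ⟨(z : ℚ_[p]), ?_⟩
  have h9 := congrArg (fun w : ℤ_[p] => (w : ℚ_[p])) h8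
  simp only [PadicInt.coe_pow, PadicInt.coe_add, PadicInt.coe_one] at h9
  rw [← pow_two, h9]

lemma p1 : (1 : ℝ) < p := by exact_mod_cast hp.out.one_lt

lemma norm_lt {a : ℚ_[p]} (ha : a ≠ 0) (h : 0 < a.valuation) : ‖a‖ < 1 := by
  rw [Padic.norm_eq_zpow_neg_valuation ha]
  exact zpow_lt_one_of_neg₀ p1 (by omega)

lemma val_sub {a b : ℚ_[p]} (ha : a ≠ 0) (hb : b ≠ 0) (h : a.valuation < b.valuation) :
    (a - b).valuation = a.valuation := by
  have h1 : ‖b‖ < ‖a‖ := by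
    rw [Padic.norm_eq_zpow_neg_valuation ha, Padic.norm_eq_zpow_neg_valuation hb]
    exact zpow_lt_zpow_right₀ p1 (by omega)
  have h2 : ‖a - b‖ = ‖a‖ := by
    rw [sub_eq_add_neg, Padic.add_eq_max_of_ne (by rw [norm_neg]; exact h1.ne'), norm_neg,
      max_eq_left h1.le]
  have h3 : a - b ≠ 0 := by
    intro h0
    rw [h0, norm_zero] at h2
    exact ha (norm_eq_zero.1 h2.symm)
  rw [Padic.norm_eq_zpow_neg_valuation ha, Padic.norm_eq_zpow_neg_valuation h3,
    zpow_right_inj₀ (by linarith [p1 (p := p)]) p1.ne'] at h2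
  omega

/-- `a - b` and `a` differ by a square if `b` is small -/
lemma sub_sq (hp2 : p ≠ 2) {a b : ℚ_[p]} (ha : a ≠ 0) (hb : b ≠ 0)
    (h : a.valuation < b.valuation) : ∃ z : ℚ_[p], z ≠ 0 ∧ a - b = a * z ^ 2 := by
  have h1 : ‖-(b / a)‖ < 1 := by
    rw [norm_neg]
    apply norm_lt (div_ne_zero hb ha)
    rw [div_eq_mul_inv, Padic.valuation_mul hb (inv_ne_zero ha), Padic.valuation_inv]
    omega
  obtain ⟨z, hz⟩ := sq1 hp2 _ h1
  have h2 : a - b = a * z ^ 2 := by
    rw [pow_two, ← hz]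
    field_simp
    ring
  refine ⟨z, ?_, h2⟩
  rintro rfl
  have h3 : a - b = 0 := by rw [h2]; ring
  have h4 := val_sub ha hb h
  rw [sub_eq_zero.1 h3] at h
  exact lt_irrefl _ h

lemma val_sq {a : ℚ_[p]} (h : IsSquare a) : Even a.valuation := by
  obtain ⟨z, rfl⟩ := h
  by_cases hz : z = 0
  · rw [hz]; simp
  · rw [Padic.valuation_mul hz hz]
    exact ⟨_, rfl⟩

/-- the class of a squarefree integer is a unit if the valuation is even -/
lemma not_dvd {x : ℚ_[p]} {d : ℤ} (hd : Squarefree d) (hx : x ≠ 0) (hv : Even x.valuation)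
    (h : IsSquare (x * d)) : ¬ (p : ℤ) ∣ d := by
  intro hc
  have hd0 : (d : ℚ_[p]) ≠ 0 := by exact_mod_cast hd.ne_zero
  have h1 := val_sq h
  rw [Padic.valuation_mul hx hd0, Int.even_add] at h1
  have h2 := h1.1 hv
  obtain ⟨e, rfl⟩ := hc
  have hpe : ¬ (p : ℤ) ∣ e := by
    rintro ⟨g, rfl⟩
    have := hd p ⟨g, by ring⟩
    exact (Nat.prime_iff_prime_int.1 hp.out).not_isUnit this
  have he0 : (e : ℚ_[p]) ≠ 0 := by
    intro h0
    apply hd0
    push_cast
    rw [h0, mul_zero]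
  have hp0 : (p : ℚ_[p]) ≠ 0 := by exact_mod_cast hp.out.ne_zero
  push_cast at h2
  rw [Padic.valuation_mul hp0 he0, Padic.valuation_p, Padic.valuation_intCast,
    padicValInt.eq_zero_of_not_dvd hpe] at h2
  simp at h2

end gen

lemma z2 : ∀ w : ZMod 5, (2 : ZMod 5) ≠ w * w := by decide

lemma z3 : ∀ w : ZMod 5, (3 : ZMod 5) ≠ w * w := by decide

section five

variable [hp : Fact (Nat.Prime 5)]

lemma sq5 {n : ℤ} (h : n % 5 = 1 ∨ n % 5 = 4) : IsSquare (n : ℚ_[5]) := by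
  rcases h with h | h
  · have h1 : ‖(((n - 1 : ℤ)) : ℚ_[5])‖ < 1 := by
      rw [Padic.norm_intCast_lt_one_iff]
      exact_mod_cast (by omega : (5 : ℤ) ∣ n - 1)
    have h2 := sq1 (by norm_num) _ h1
    push_cast at h2
    rwa [add_sub_cancel] at h2
  · have h4 : ‖((4 : ℤ) : ℚ_[5])‖ = 1 := by
      have h5 : ¬ ‖((4 : ℤ) : ℚ_[5])‖ < 1 := by
        rw [Padic.norm_intCast_lt_one_iff]
        norm_num
      exact le_antisymm (Padic.norm_int_le_one 4) (not_lt.1 h5)
    have h1 : ‖(((n - 4 : ℤ)) : ℚ_[5]) / ((4 : ℤ) : ℚ_[5])‖ < 1 := by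
      rw [norm_div, h4, div_one, Padic.norm_intCast_lt_one_iff]
      exact_mod_cast (by omega : (5 : ℤ) ∣ n - 4)
    obtain ⟨z, hz⟩ := sq1 (by norm_num) _ h1
    refine ⟨2 * z, ?_⟩
    have h40 : (4 : ℚ_[5]) ≠ 0 := by norm_num
    have h2 : (2 * z) * (2 * z) = 4 * (z * z) := by ring
    rw [h2, ← hz]
    push_cast
    field_simp
    ring

lemma nsq5 {n : ℤ} (h : n % 5 = 2 ∨ n % 5 = 3) : ¬ IsSquare (n : ℚ_[5]) := by
  rintro ⟨z, hz⟩
  have h1 : ‖(n : ℚ_[5])‖ ≤ 1 := Padic.norm_int_le_one n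
  rw [hz, norm_mul] at h1
  have h2 : ‖z‖ ≤ 1 := by
    by_contra hc
    rw [not_le] at hc
    nlinarith
  let z' : ℤ_[5] := ⟨z, h2⟩
  have h3 : ((n : ℤ) : ℤ_[5]) = z' * z' := by
    apply Subtype.ext
    push_cast
    exact hz
  have h4 := congrArg (PadicInt.toZMod (p := 5)) h3
  rw [map_mul, map_intCast] at h4
  have h5 : ((n : ℤ) : ZMod 5) = 2 ∨ ((n : ℤ) : ZMod 5) = 3 := by
    rcases h with h | h
    · left
      have : (n : ZMod 5) = ((2 : ℤ) : ZMod 5) :=
        (ZMod.intCast_eq_intCast_iff _ _ _).2 (by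
          show n % ((5 : ℕ) : ℤ) = 2 % ((5 : ℕ) : ℤ)
          norm_num
          omega)
      rw [this]; rfl
    · right
      have : (n : ZMod 5) = ((3 : ℤ) : ZMod 5) :=
        (ZMod.intCast_eq_intCast_iff _ _ _).2 (by
          show n % ((5 : ℕ) : ℤ) = 3 % ((5 : ℕ) : ℤ)
          norm_num
          omega)
      rw [this]; rfl
  generalize PadicInt.toZMod (p := 5) z' = w at h4
  rcases h5 with h5 | h5
  · rw [h5] at h4
    exact z2 w h4
  · rw [h5] at h4
    exact z3 w h4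

lemma v5 {D : ℤ} (h : ¬ (5 : ℤ) ∣ D) : (D : ℚ_[5]).valuation = 0 := by
  rw [Padic.valuation_intCast, padicValInt.eq_zero_of_not_dvd (by exact_mod_cast h)]
  rfl

/-- a point with an integral `x` -/
lemma pt {A B d1 d3 : ℤ} (X : ℤ) (h0 : X * (X - A) * (X - B) ≠ 0)
    (h1 : IsSquare ((X * d1 : ℤ) : ℚ_[5])) (h3 : IsSquare (((X - A) * d3 : ℤ) : ℚ_[5]))
    (h : IsSquare ((X * (X - A) * (X - B) : ℤ) : ℚ_[5])) : Loc ℚ_[5] A B d1 d3 := by
  obtain ⟨y, hy⟩ := h
  refine ⟨X, y, ?_, ?_, ?_, ?_⟩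
  · rintro rfl
    rw [mul_zero] at hy
    exact h0 (by exact_mod_cast hy)
  · rw [pow_two, ← hy]
    push_cast
    ring
  · push_cast at h1
    exact h1
  · push_cast at h3
    exact h3

/-- squares times units which are squares -/
lemma sqm (k : ℤ) {n : ℤ} (h : n % 5 = 1 ∨ n % 5 = 4) : IsSquare ((k ^ 2 * n : ℤ) : ℚ_[5]) := by
  obtain ⟨z, hz⟩ := sq5 h
  refine ⟨k * z, ?_⟩
  push_cast
  rw [hz]
  ring

end five

end L5

open L5 in
theorem t_L5 : S_L5 := by
  intro hp D d1 d3 hD hd1 hd3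
  have hD0 : D ≠ 0 := by rintro rfl; omega
  have hD5 : ¬ (5 : ℤ) ∣ D := by omega
  have hDQ : (D : ℚ_[5]) ≠ 0 := by exact_mod_cast hD0
  have v9 : ((9 * D : ℤ) : ℚ_[5]).valuation = 0 := v5 (by omega)
  have n9 : ((9 * D : ℤ) : ℚ_[5]) ≠ 0 := by
    have : (9 * D : ℤ) ≠ 0 := by omega
    exact_mod_cast this
  have n25 : ((25 * D : ℤ) : ℚ_[5]) ≠ 0 := by
    have : (25 * D : ℤ) ≠ 0 := by omega
    exact_mod_cast this
  have v25 : ((25 * D : ℤ) : ℚ_[5]).valuation = 2 := by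
    have e : ((25 * D : ℤ) : ℚ_[5]) = ((5 : ℕ) : ℚ_[5]) ^ 2 * (D : ℚ_[5]) := by
      push_cast; ring
    have h50 : ((5 : ℕ) : ℚ_[5]) ≠ 0 := by exact_mod_cast (by norm_num : (5 : ℕ) ≠ 0)
    rw [e, Padic.valuation_mul (pow_ne_zero _ h50) hDQ, Padic.valuation_pow, Padic.valuation_p,
      v5 hD5]
    norm_num
  constructor
  · rintro ⟨x, y, hy0, hy, s1, s3⟩
    have hprod : x * (x - (25 * D : ℤ)) * (x - (9 * D : ℤ)) ≠ 0 := by
      rw [← hy]; exact pow_ne_zero _ hy0
    have hb0 : x - ((25 * D : ℤ) : ℚ_[5]) ≠ 0 := fun h => hprod (by rw [h]; ring)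
    have hc0 : x - ((9 * D : ℤ) : ℚ_[5]) ≠ 0 := fun h => hprod (by rw [h]; ring)
    have hx0 : x ≠ 0 := fun h => hprod (by rw [h]; ring)
    have hsum : x.valuation + (x - ((25 * D : ℤ) : ℚ_[5])).valuation +
        (x - ((9 * D : ℤ) : ℚ_[5])).valuation = 2 * y.valuation := by
      rw [← Padic.valuation_mul hx0 hb0, ← Padic.valuation_mul (mul_ne_zero hx0 hb0) hc0, ← hy,
        Padic.valuation_pow]
      norm_num
    suffices H : Even x.valuation ∧ Even (x - ((25 * D : ℤ) : ℚ_[5])).valuation by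
      exact ⟨by exact_mod_cast not_dvd hd1 hx0 H.1 s1, by exact_mod_cast not_dvd hd3 hb0 H.2 s3⟩
    rcases lt_trichotomy x.valuation 0 with hv | hv | hv
    · have e1 := val_sub hx0 n25 (by omega)
      have e2 := val_sub hx0 n9 (by omega)
      rw [e1, e2] at hsum
      rw [e1]
      have : Even x.valuation := by
        rw [Int.even_iff]
        omega
      exact ⟨this, this⟩
    · have e1 := val_sub hx0 n25 (by omega)
      rw [e1, hv]
      exact ⟨by simp, by simp⟩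
    · -- `x` is divisible by `5`
      have e2 : (x - ((9 * D : ℤ) : ℚ_[5])).valuation = 0 := by
        have h1 := val_sub n9 hx0 (by omega)
        have h2 : ((9 * D : ℤ) : ℚ_[5]) - x = (-1 : ℚ_[5]) * (x - ((9 * D : ℤ) : ℚ_[5])) := by
          ring
        rw [h2, Padic.valuation_mul (by norm_num) hc0, v9] at h1
        have h3 : (-1 : ℚ_[5]).valuation = 0 := by
          have h4 : ((-1 : ℤ) : ℚ_[5]).valuation = 0 := v5 (by norm_num)
          push_cast at h4
          exact h4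
        omega
      rw [e2, add_zero] at hsum
      rcases (by omega : x.valuation = 1 ∨ x.valuation = 2 ∨ 3 ≤ x.valuation) with h | h | h
      · -- impossible
        exfalso
        obtain ⟨z, hz0, hz⟩ := sub_sq (by norm_num) hx0 n25 (by omega)
        obtain ⟨w, hw0, hw⟩ := sub_sq (by norm_num) n9 hx0 (by omega)
        rw [hz] at hy
        apply nsq5 (n := -D) (by omega)
        have h1 : x - ((9 * D : ℤ) : ℚ_[5]) = (3 * w) ^ 2 * (-D) := by
          have : x - ((9 * D : ℤ) : ℚ_[5]) = -(((9 * D : ℤ) : ℚ_[5]) - x) := by ring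
          rw [this, hw]
          push_cast
          ring
        rw [h1] at hy
        have hne : x * z * (3 * w) ≠ 0 :=
          mul_ne_zero (mul_ne_zero hx0 hz0) (mul_ne_zero (by norm_num) hw0)
        refine ⟨y / (x * z * (3 * w)), ?_⟩
        rw [div_mul_div_comm, eq_div_iff (mul_ne_zero hne hne)]
        push_cast
        linear_combination -hy
      · refine ⟨by rw [h]; norm_num, ?_⟩
        rw [Int.even_iff]
        omega
      · have h1 := val_sub n25 hx0 (by omega)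
        have h2 : ((25 * D : ℤ) : ℚ_[5]) - x = (-1 : ℚ_[5]) * (x - ((25 * D : ℤ) : ℚ_[5])) := by
          ring
        rw [h2, Padic.valuation_mul (by norm_num) hb0, v25] at h1
        have h3 : (-1 : ℚ_[5]).valuation = 0 := by
          have h4 : ((-1 : ℤ) : ℚ_[5]).valuation = 0 := v5 (by norm_num)
          push_cast at h4
          exact h4
        rw [Int.even_iff, Int.even_iff]
        omega
  · rintro ⟨c1, c3⟩
    have m1 : d1 % 5 = 1 ∨ d1 % 5 = 4 ∨ d1 % 5 = 2 ∨ d1 % 5 = 3 := by omega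
    have m3 : d3 % 5 = 1 ∨ d3 % 5 = 4 ∨ d3 % 5 = 2 ∨ d3 % 5 = 3 := by omega
    have mD : ∀ (a b : ℤ), (a * b) % 5 = ((a % 5) * (b % 5)) % 5 := fun a b => Int.mul_emod a b 5
    by_cases q1 : d1 % 5 = 1 ∨ d1 % 5 = 4 <;> by_cases q3 : d3 % 5 = 1 ∨ d3 % 5 = 4
    · -- a point near infinity
      have h50 : (5 : ℚ_[5]) ≠ 0 := by norm_num
      have h5v : ∀ n : ℤ, ‖(-25 * n : ℚ_[5])‖ < 1 := by
        intro n
        have : (-25 * n : ℚ_[5]) = ((-25 * n : ℤ) : ℚ_[5]) := by push_cast; ring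
        rw [this, Padic.norm_intCast_lt_one_iff]
        exact_mod_cast (by omega : (5 : ℤ) ∣ -25 * n)
      have hs : ∀ n : ℤ, ∃ r : ℚ_[5], r ≠ 0 ∧ 1 / 25 - (n : ℚ_[5]) = r * r := by
        intro n
        obtain ⟨r, hr⟩ := sq1 (by norm_num) _ (h5v n)
        refine ⟨r / 5, ?_, ?_⟩
        · apply div_ne_zero _ h50
          rintro rfl
          have h1 : (-25 * n : ℚ_[5]) = -1 := by linear_combination hr
          have h2 := h5v n
          rw [h1, norm_neg, norm_one] at h2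
          exact lt_irrefl _ h2
        · rw [div_mul_div_comm, ← hr]
          field_simp
          ring
      obtain ⟨r1, n1, e1⟩ := hs (25 * D)
      obtain ⟨r2, n2, e2⟩ := hs (9 * D)
      obtain ⟨s1, hs1⟩ := sq5 q1
      obtain ⟨s3, hs3⟩ := sq5 q3
      refine ⟨1 / 25, 1 / 5 * r1 * r2, ?_, ?_, ⟨1 / 5 * s1, ?_⟩, ⟨r1 * s3, ?_⟩⟩
      · exact mul_ne_zero (mul_ne_zero (by norm_num) n1) n2
      · rw [e1, e2]; ring
      · rw [hs1]; ring
      · rw [e1, hs3]; ring
    · -- `X = 625`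
      have q3' : d3 % 5 = 2 ∨ d3 % 5 = 3 := by omega
      refine pt 625 ?_ ?_ ?_ ?_
      · have a1 : (625 - 25 * D : ℤ) ≠ 0 := by omega
        have a2 : (625 - 9 * D : ℤ) ≠ 0 := by omega
        exact mul_ne_zero (mul_ne_zero (by norm_num) a1) a2
      · have := sqm 25 q1
        rwa [show (25 : ℤ) ^ 2 * d1 = 625 * d1 by norm_num] at this
      · have h := sqm 5 (n := (25 - D) * d3) (by
          rw [mD]
          rcases hD with h | h <;> rcases q3' with h' | h' <;> rw [h', show (25 - D) % 5 = (5 - D % 5) % 5 by omega, h] <;> norm_num)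
        rwa [show (5 : ℤ) ^ 2 * ((25 - D) * d3) = (625 - 25 * D) * d3 by ring] at h
      · have h := sqm 125 (n := (25 - D) * (625 - 9 * D)) (by
          rw [mD, show (25 - D) % 5 = (5 - D % 5) % 5 by omega, show (625 - 9 * D) % 5 = (D % 5) % 5 by omega]
          rcases hD with h | h <;> rw [h] <;> norm_num)
        rwa [show (125 : ℤ) ^ 2 * ((25 - D) * (625 - 9 * D)) =
          625 * (625 - 25 * D) * (625 - 9 * D) by ring] at h
    · -- `X = -25 D`
      have q1' : d1 % 5 = 2 ∨ d1 % 5 = 3 := by omega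
      refine pt (-25 * D) ?_ ?_ ?_ ?_
      · have a0 : (-25 * D : ℤ) ≠ 0 := by omega
        have a1 : (-25 * D - 25 * D : ℤ) ≠ 0 := by omega
        have a2 : (-25 * D - 9 * D : ℤ) ≠ 0 := by omega
        exact mul_ne_zero (mul_ne_zero a0 a1) a2
      · have h := sqm 5 (n := (-D) * d1) (by
          rw [mD, show (-D) % 5 = (5 - D % 5) % 5 by omega]
          rcases hD with h | h <;> rcases q1' with h' | h' <;> rw [h, h'] <;> norm_num)
        rwa [show (5 : ℤ) ^ 2 * ((-D) * d1) = -25 * D * d1 by ring] at h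
      · have h := sqm 5 (n := (-2 * D) * d3) (by
          rw [mD, show (-2 * D) % 5 = (3 * (D % 5)) % 5 by omega]
          rcases hD with h | h <;> rcases q3 with h' | h' <;> rw [h, h'] <;> norm_num)
        rwa [show (5 : ℤ) ^ 2 * ((-2 * D) * d3) = (-25 * D - 25 * D) * d3 by ring] at h
      · have h := sqm (25 * D) (n := (-68) * D) (by
          rw [mD]
          rcases hD with h | h <;> rw [h] <;> norm_num)
        rwa [show (25 * D) ^ 2 * ((-68) * D) =
          -25 * D * (-25 * D - 25 * D) * (-25 * D - 9 * D) by ring] at h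
    · -- `X = D`
      have q1' : d1 % 5 = 2 ∨ d1 % 5 = 3 := by omega
      have q3' : d3 % 5 = 2 ∨ d3 % 5 = 3 := by omega
      refine pt D ?_ ?_ ?_ ?_
      · have a1 : (D - 25 * D : ℤ) ≠ 0 := by omega
        have a2 : (D - 9 * D : ℤ) ≠ 0 := by omega
        exact mul_ne_zero (mul_ne_zero hD0 a1) a2
      · apply sq5
        rw [mD]
        rcases hD with h | h <;> rcases q1' with h' | h' <;> rw [h, h'] <;> norm_num
      · apply sq5
        rw [mD, show (D - 25 * D) % 5 = (D % 5) % 5 by omega]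
        rcases hD with h | h <;> rcases q3' with h' | h' <;> rw [h, h'] <;> norm_num
      · have h := sqm (8 * D) (n := 3 * D) (by
          rw [mD]
          rcases hD with h | h <;> rw [h] <;> norm_num)
        rwa [show (8 * D) ^ 2 * (3 * D) = D * (D - 25 * D) * (D - 9 * D) by ring] at h

end Pool.Agent.NH3.XS
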