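import Pool.Agent.NH3.XS.Stm
import Pool.Agent.W22.RK.Loc

/-! XS-3: the odd primes which divide `D`. -/

set_option autoImplicit false

namespace Pool.Agent.NH3.XS

open Pool.Agent.W307.SE (Loc Sel)

namespace LAx

variable {p : ℕ} [hp : Fact p.Prime]

lemma norm_one {k : ℤ} (h : ¬ (p : ℤ) ∣ k) : ‖(k : ℚ_[p])‖ = 1 := by
  have h1 : ¬ ‖(k : ℚ_[p])‖ < 1 := by
    rw [Padic.norm_intCast_lt_one_iff]
    exact h
  exact le_antisymm (Padic.norm_int_le_one k) (not_lt.1 h1)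

lemma norm_D {D : ℤ} (h1 : (p : ℤ) ∣ D) (h2 : ¬ (p : ℤ) ^ 2 ∣ D) :
    ‖(D : ℚ_[p])‖ = (p : ℝ)⁻¹ := by
  obtain ⟨k, rfl⟩ := h1
  have hk : ¬ (p : ℤ) ∣ k := by
    rintro ⟨j, rfl⟩
    exact h2 ⟨j, by ring⟩
  push_cast
  rw [norm_mul, norm_one hk, mul_one, Padic.norm_p]

lemma ndvd (q : ℕ) (hq : q.Prime) (hpq : p ≠ q) (n : ℕ) : ¬ (p : ℤ) ∣ (q : ℤ) ^ n := by
  intro h
  have h1 : (p : ℤ) ∣ (q : ℤ) := Int.Prime.dvd_pow' hp.out h
  have h2 : p ∣ q := by exact_mod_cast h1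
  exact hpq ((Nat.prime_dvd_prime_iff_eq hp.out hq).1 h2)

/-- `u + v` is `u` times a nonzero square if `v` is smaller than `u` -/
lemma near (hp2 : p ≠ 2) {u v : ℚ_[p]} (hu : u ≠ 0) (h : ‖v‖ < ‖u‖) :
    ∃ s : ℚ_[p], s ≠ 0 ∧ u + v = u * s ^ 2 := by
  have h1 : ‖v / u‖ < 1 := by
    rw [norm_div, div_lt_one (norm_pos_iff.2 hu)]
    exact h
  obtain ⟨s, hs⟩ := Pool.Agent.W22.RK.isSquare_one_add hp2 (v / u) h1
  refine ⟨s, ?_, ?_⟩
  · rintro rfl
    rw [mul_zero] at hs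
    have h2 : v / u = -1 := by linear_combination hs
    rw [h2] at h1
    simp at h1
  · have h3 : u + v = u * (1 + v / u) := by
      rw [mul_add, mul_one, mul_div_cancel₀ _ hu]
    rw [h3, hs]
    ring

lemma cut {u v w y k : ℚ_[p]} (hk : k ≠ 0) (h : y ^ 2 = u * (v * w)) (hvw : v * w = k ^ 2) :
    IsSquare u := by
  refine ⟨y / k, ?_⟩
  rw [hvw] at h
  field_simp
  linear_combination -h

end LAx

open LAx in
theorem t_LA : S_LA := by
  intro p hp D d1 d3 hp2 hp3 hp5 hpD hpD2 hd1 hd3 hLoc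
  obtain ⟨x, y, hy, hxy, hx1, hx3⟩ := hLoc
  have hDn := norm_D (p := p) hpD hpD2
  have hp0 : (0 : ℝ) < (p : ℝ)⁻¹ := by
    have := hp.out.pos
    positivity
  have hD0 : (D : ℚ_[p]) ≠ 0 := by
    rw [← norm_pos_iff, hDn]
    exact hp0
  have n3 : ‖(9 : ℚ_[p])‖ = 1 := by
    have := norm_one (p := p) (k := ((3 : ℕ) : ℤ) ^ 2) (ndvd 3 Nat.prime_three hp3 2)
    norm_num at this
    exact this
  have n5 : ‖(25 : ℚ_[p])‖ = 1 := by
    have := norm_one (p := p) (k := ((5 : ℕ) : ℤ) ^ 2) (ndvd 5 Nat.prime_five hp5 2)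
    norm_num at this
    exact this
  have n2 : ‖(16 : ℚ_[p])‖ = 1 := by
    have := norm_one (p := p) (k := ((2 : ℕ) : ℤ) ^ 4) (ndvd 2 Nat.prime_two hp2 4)
    norm_num at this
    exact this
  have m25 : ‖(25 : ℚ_[p]) * D‖ = (p : ℝ)⁻¹ := by rw [norm_mul, n5, one_mul, hDn]
  have m9 : ‖(9 : ℚ_[p]) * D‖ = (p : ℝ)⁻¹ := by rw [norm_mul, n3, one_mul, hDn]
  have m16 : ‖(16 : ℚ_[p]) * D‖ = (p : ℝ)⁻¹ := by rw [norm_mul, n2, one_mul, hDn]
  have z25 : (25 : ℚ_[p]) * D ≠ 0 := by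
    rw [← norm_pos_iff, m25]
    exact hp0
  have z9 : (9 : ℚ_[p]) * D ≠ 0 := by
    rw [← norm_pos_iff, m9]
    exact hp0
  have z16 : (16 : ℚ_[p]) * D ≠ 0 := by
    rw [← norm_pos_iff, m16]
    exact hp0
  push_cast at hxy hx3
  have hy2 : y ^ 2 ≠ 0 := pow_ne_zero 2 hy
  rw [hxy] at hy2
  have hx0 : x ≠ 0 := left_ne_zero_of_mul (left_ne_zero_of_mul hy2)
  have hb0 : x - 25 * D ≠ 0 := right_ne_zero_of_mul (left_ne_zero_of_mul hy2)
  have hc0 : x - 9 * D ≠ 0 := right_ne_zero_of_mul hy2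
  have key : (IsSquare x ∨ IsSquare (D * x)) ∧
      (IsSquare (x - 25 * D) ∨ IsSquare (-D * (x - 25 * D))) := by
    rcases lt_or_ge (p : ℝ)⁻¹ ‖x‖ with h | h
    · -- large `x`
      obtain ⟨s, hs0, hs⟩ := near (v := -(25 * D)) hp2 hx0 (by rw [norm_neg, m25]; exact h)
      obtain ⟨t, ht0, ht⟩ := near (v := -(9 * D)) hp2 hx0 (by rw [norm_neg, m9]; exact h)
      have e1 : x - 25 * D = x * s ^ 2 := by rw [← hs]; ring
      have e2 : x - 9 * D = x * t ^ 2 := by rw [← ht]; ring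
      have hsq : IsSquare x := cut (k := x * s * t) (mul_ne_zero (mul_ne_zero hx0 hs0) ht0)
        (hxy.trans (mul_assoc _ _ _)) (by rw [e1, e2]; ring)
      refine ⟨Or.inl hsq, Or.inl ?_⟩
      rw [e1]
      exact hsq.mul ⟨s, by ring⟩
    rcases lt_or_eq_of_le h with h | h
    · obtain ⟨s, hs0, hs⟩ := near (v := -x) hp2 z25 (by rw [norm_neg, m25]; exact h)
      obtain ⟨t, ht0, ht⟩ := near (v := -x) hp2 z9 (by rw [norm_neg, m9]; exact h)
      have e1 : x - 25 * D = -(25 * D * s ^ 2) := by rw [← hs]; ring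
      have e2 : x - 9 * D = -(9 * D * t ^ 2) := by rw [← ht]; ring
      refine ⟨Or.inl (cut (k := 15 * D * s * t) ?_ (hxy.trans (mul_assoc _ _ _))
        (by rw [e1, e2]; ring)), Or.inr ⟨5 * D * s, by rw [e1]; ring⟩⟩
      have h15 : (15 : ℚ_[p]) ≠ 0 := by norm_num
      exact mul_ne_zero (mul_ne_zero (mul_ne_zero h15 hD0) hs0) ht0
    have hbn : ‖x - 25 * D‖ ≤ (p : ℝ)⁻¹ := by
      have h1 := Padic.nonarchimedean x (-(25 * D : ℚ_[p]))
      rw [← sub_eq_add_neg, norm_neg, m25, h, max_self] at h1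
      exact h1
    have hcn : ‖x - 9 * D‖ ≤ (p : ℝ)⁻¹ := by
      have h1 := Padic.nonarchimedean x (-(9 * D : ℚ_[p]))
      rw [← sub_eq_add_neg, norm_neg, m9, h, max_self] at h1
      exact h1
    rcases lt_or_eq_of_le hbn with h1 | h1
    · obtain ⟨s, hs0, hs⟩ := near (v := x - 25 * D) hp2 z25 (by rw [m25]; exact h1)
      obtain ⟨t, ht0, ht⟩ := near (v := x - 25 * D) hp2 z16 (by rw [m16]; exact h1)
      have e1 : x = 25 * D * s ^ 2 := by rw [← hs]; ring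
      have e2 : x - 9 * D = 16 * D * t ^ 2 := by rw [← ht]; ring
      refine ⟨Or.inr ⟨5 * D * s, by rw [e1]; ring⟩, Or.inl ?_⟩
      have h20 : (20 : ℚ_[p]) ≠ 0 := by norm_num
      refine cut (v := x) (w := x - 9 * D) (y := y) (k := 20 * D * s * t)
        (mul_ne_zero (mul_ne_zero (mul_ne_zero h20 hD0) hs0) ht0) (by rw [hxy]; ring) ?_
      rw [e2]
      have e3 : x * (16 * D * t ^ 2) = (25 * D * s ^ 2) * (16 * D * t ^ 2) := by rw [← e1]
      rw [e3]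
      ring
    rcases lt_or_eq_of_le hcn with h2 | h2
    · obtain ⟨s, hs0, hs⟩ := near (v := x - 9 * D) hp2 z9 (by rw [m9]; exact h2)
      obtain ⟨t, ht0, ht⟩ := near (v := -(x - 9 * D)) hp2 z16 (by rw [norm_neg, m16]; exact h2)
      have e1 : x = 9 * D * s ^ 2 := by rw [← hs]; ring
      have e2 : x - 25 * D = -(16 * D * t ^ 2) := by rw [← ht]; ring
      exact ⟨Or.inr ⟨3 * D * s, by rw [e1]; ring⟩, Or.inr ⟨4 * D * t, by rw [e2]; ring⟩⟩
    · -- parity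
      exfalso
      have h3 : ‖y‖ ^ 2 = ((p : ℝ)⁻¹) ^ 3 := by
        rw [← norm_pow, hxy, norm_mul, norm_mul, h, h1, h2]
        ring
      have h4 := Padic.norm_eq_zpow_neg_valuation hy
      rw [h4] at h3
      have h5 : ((p : ℝ) ^ (-y.valuation)) ^ 2 = (p : ℝ) ^ (-2 * y.valuation) := by
        rw [← zpow_natCast, ← zpow_mul]
        congr 1
        push_cast
        ring
      have h6 : ((p : ℝ)⁻¹) ^ 3 = (p : ℝ) ^ (-3 : ℤ) := by
        rw [inv_pow, zpow_neg]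
        norm_cast
      rw [h5, h6] at h3
      have h7 := zpow_right_injective₀ (a := (p : ℝ)) (by exact_mod_cast hp.out.pos)
        (by exact_mod_cast hp.out.ne_one) h3
      omega
  constructor
  · rcases key.1 with h | h
    · left
      have e : (d1 : ℚ_[p]) = (x * d1) / x := by field_simp
      rw [e]
      exact hx1.div h
    · right
      have e : ((d1 * D : ℤ) : ℚ_[p]) = (x * d1) * (D * x) / (x * x) := by
        push_cast
        field_simp
      rw [e]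
      exact (hx1.mul h).div ⟨x, rfl⟩
  · rcases key.2 with h | h
    · left
      have e : (d3 : ℚ_[p]) = ((x - 25 * D) * d3) / (x - 25 * D) := by
        rw [mul_div_cancel_left₀ _ hb0]
      rw [e]
      exact hx3.div h
    · right
      have e : ((-(d3 * D) : ℤ) : ℚ_[p]) = ((x - 25 * D) * d3) * (-D * (x - 25 * D)) /
          ((x - 25 * D) * (x - 25 * D)) := by
        rw [eq_div_iff (mul_ne_zero hb0 hb0)]
        push_cast
        ring
      rw [e]
      exact (hx3.mul h).div ⟨x - 25 * D, rfl⟩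

end Pool.Agent.NH3.XS
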