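import Pool.Agent.NH3.XS.Stm
import Pool.Agent.Y105.RZ.Goods
import Pool.Agent.W405.SE.GoodP
import Pool.Agent.W407.SE.Ratp

/-!
# Project XS: the primes of good reduction and the real place (helper51)
-/

set_option autoImplicit false
set_option linter.unusedVariables false

namespace Pool.Agent.NH3.XS

open Finset
open Pool.Agent.W307.SE (Loc Sel)

namespace LG

lemma bad {p : ℕ} [hp : Fact p.Prime] {D : ℤ} (h2 : p ≠ 2) (h3 : p ≠ 3) (h5 : p ≠ 5)
    (hD : ¬ (p : ℤ) ∣ D) : ¬ (p : ℤ) ∣ 2 * (25 * D) * (9 * D) * (25 * D - 9 * D) := by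
  intro h
  have hpp : Prime (p : ℤ) := Nat.prime_iff_prime_int.1 hp.out
  have e : 2 * (25 * D) * (9 * D) * (25 * D - 9 * D) = 2 ^ 5 * 3 ^ 2 * 5 ^ 2 * D ^ 3 := by ring
  have key : ∀ q : ℕ, q.Prime → p ≠ q → ∀ n : ℕ, ¬ (p : ℤ) ∣ (q : ℤ) ^ n := by
    intro q hq hpq n hn
    have h1 := hpp.dvd_of_dvd_pow hn
    have h2 : p ∣ q := by exact_mod_cast h1
    exact hpq ((Nat.prime_dvd_prime_iff_eq hp.out hq).1 h2)
  rw [e] at h
  rcases hpp.dvd_or_dvd h with h | h
  · rcases hpp.dvd_or_dvd h with h | h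
    · rcases hpp.dvd_or_dvd h with h | h
      · exact key 2 Nat.prime_two h2 5 (by exact_mod_cast h)
      · exact key 3 Nat.prime_three h3 2 (by exact_mod_cast h)
    · exact key 5 Nat.prime_five h5 2 (by exact_mod_cast h)
  · exact hD (hpp.dvd_of_dvd_pow h)

end LG

/-- LG -/
theorem t_LG : S_LG := by
  intro p _ D d1 d3 h2 h3 h5 hD hd1 hd3
  have hbad := LG.bad h2 h3 h5 hD
  constructor
  · intro h
    exact Pool.Agent.W405.SE.goodp_of Pool.Agent.W407.SE.ratp p _ _ d1 d3 hbad hd1 hd3 h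
  · rintro ⟨h1, h4⟩
    exact Pool.Agent.Y105.RZ.GOODS p _ _ d1 d3 hbad h1 h4

/-- LR -/
theorem t_LR : S_LR := by
  intro D d1 d3 hD hd1 hd3
  have hD' : (D : ℝ) < 0 := by exact_mod_cast hD
  constructor
  · rintro ⟨x, y, hy, he, h1, h3⟩
    push_cast at he h3
    have hy2 : 0 < y ^ 2 := by positivity
    have hx : 25 * (D : ℝ) < x := by
      by_contra hc
      push Not at hc
      have h5 : x - 25 * (D : ℝ) ≤ 0 := by linarith
      have h6 : x - 9 * (D : ℝ) ≤ 0 := by linarith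
      have h7 : x ≤ 0 := by linarith
      have h8 : x * (x - 25 * D) * (x - 9 * D) ≤ 0 :=
        mul_nonpos_of_nonneg_of_nonpos (mul_nonneg_of_nonpos_of_nonpos h7 h5) h6
      linarith
    have h5 : 0 ≤ (x - 25 * D) * (d3 : ℝ) := Real.isSquare_iff.1 h3
    have h6 : 0 ≤ (d3 : ℝ) := by
      by_contra hc
      push Not at hc
      have := mul_neg_of_pos_of_neg (sub_pos.2 hx) hc
      linarith
    have h7 : 0 ≤ d3 := by exact_mod_cast h6
    exact lt_of_le_of_ne h7 (Ne.symm hd3)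
  · intro h3
    have h3' : (0 : ℝ) < d3 := by exact_mod_cast h3
    have key : ∀ x : ℝ, 0 < x * (x - 25 * D) * (x - 9 * D) → 0 ≤ x * d1 → 0 ≤ (x - 25 * D) * d3 →
        Loc ℝ (25 * D) (9 * D) d1 d3 := by
      intro x h1 h4 h5
      refine ⟨x, √(x * (x - 25 * D) * (x - 9 * D)), (Real.sqrt_pos.2 h1).ne', ?_,
        Real.isSquare_iff.2 h4, ?_⟩
      · push_cast
        exact Real.sq_sqrt h1.le
      · push_cast
        exact Real.isSquare_iff.2 h5
    rcases lt_or_gt_of_ne hd1 with h | h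
    · have h' : (d1 : ℝ) < 0 := by exact_mod_cast h
      refine key (17 * D) ?_ ?_ ?_
      · have e : (17 * (D : ℝ)) * (17 * D - 25 * D) * (17 * D - 9 * D) = 17 * 64 * (-D) ^ 3 := by
          ring
        rw [e]
        have : 0 < -(D : ℝ) := by linarith
        positivity
      · nlinarith
      · nlinarith
    · have h' : (0 : ℝ) < d1 := by exact_mod_cast h
      refine key 1 ?_ ?_ ?_
      · have h5 : 0 < 1 - 25 * (D : ℝ) := by linarith
        have h6 : 0 < 1 - 9 * (D : ℝ) := by linarith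
        positivity
      · linarith
      · have h5 : 0 < 1 - 25 * (D : ℝ) := by linarith
        positivity

end Pool.Agent.NH3.XS
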