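import Pool.Agent.NH3.XS.Stm
import Pool.Agent.Z864.SX.SelH
import Pool.Agent.Y214.SX.RKSHA
import Pool.Agent.Y833.SX.Sel
import Pool.Agent.Y212.RZ.Selc2

/-!
# Project XS: from the 2-Selmer group to the groups of the theorem
-/

set_option autoImplicit false

namespace Pool.Agent.NH3.XS

open Pool.Agent.W307.SE (Loc Sel SelR)
open Pool.Agent.W307.RT (Sh)
open Pool.Agent.Y667.SX (Sel2H)
open Pool.Agent.Y667.BK (SelInf)
open Pool.Agent.TH841.SH (selHom)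
open Pool.Agent.TH841.SH.D (Sha)
open Pool.Agent.NH4.XG (nx)
open Pool.Agent.NH4.XH (DB)

/-- the twist of `X_0(15)` by `D` -/
abbrev E15 (D : ℤ) : WeierstrassCurve ℚ := Sh (-12987 * D ^ 2) (-263466 * D ^ 3)

/-- **the orders of the groups** -/
theorem orders (hC : S_CARD) {D k : ℤ} (hD : DB D) (hk : k ≠ 0) :
    (Finite (Sel2H (E15 (D * k ^ 2))) ∧
      Nat.card (Sel2H (E15 (D * k ^ 2))) = nx D.natAbs.primeFactors ^ 2) ∧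
    (Finite {x : Sha (E15 (D * k ^ 2)) // x + x = 0} ∧
      4 * (2 ^ Module.finrank ℤ (E15 (D * k ^ 2)).toAffine.Point *
        Nat.card {x : Sha (E15 (D * k ^ 2)) // x + x = 0}) = nx D.natAbs.primeFactors ^ 2) ∧
    (Finite {x : SelInf (E15 (D * k ^ 2)) // x + x = 0} ∧
      4 * Nat.card {x : SelInf (E15 (D * k ^ 2)) // x + x = 0} = nx D.natAbs.primeFactors ^ 2) := by
  obtain ⟨c1, c2⟩ := hC D hD
  have hD0 : D ≠ 0 := hD.1.ne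
  have hM : D * k ^ 2 ≠ 0 := mul_ne_zero hD0 (pow_ne_zero 2 hk)
  obtain ⟨M, rfl⟩ : ∃ M : ℤ, M = D * k ^ 2 := ⟨_, rfl⟩
  have hd : 4 * (-12987 * (D * k ^ 2) ^ 2) ^ 3 + 27 * (-263466 * (D * k ^ 2) ^ 3) ^ 2 ≠ 0 := by
    have e : 4 * (-12987 * (D * k ^ 2) ^ 2) ^ 3 + 27 * (-263466 * (D * k ^ 2) ^ 3) ^ 2 =
        -6887475360000 * (D * k ^ 2) ^ 6 := by ring
    rw [e]
    exact mul_ne_zero (by norm_num) (pow_ne_zero 6 hM)
  have hr : ∀ x : ℤ, x ^ 3 + (-12987 * (D * k ^ 2) ^ 2) * x + (-263466 * (D * k ^ 2) ^ 3) =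
      (x - (-102 * (D * k ^ 2))) * (x - 123 * (D * k ^ 2)) * (x - (-21 * (D * k ^ 2))) := by
    intro x
    ring
  have hq : ((3 * k : ℤ) : ℚ) ≠ 0 := by
    exact_mod_cast mul_ne_zero (by norm_num : (3 : ℤ) ≠ 0) hk
  obtain ⟨s1, s2⟩ := Pool.Agent.Y212.RZ.SELC2 _ _ _ _ _ (25 * D) (9 * D) ((3 * k : ℤ) : ℚ) hd hr hq
    (by push_cast; ring) (by push_cast; ring) c1
  rw [c2] at s2
  obtain ⟨h1, h2⟩ := Pool.Agent.Z864.SX.SELH _ _ _ _ _ hd hr s1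
  obtain ⟨h3, h4⟩ := Pool.Agent.Y214.SX.RKSHA _ _ _ _ _ hd hr h1
  obtain ⟨h5⟩ := Pool.Agent.Y833.SX.SEL2 _ _ _ _ _ hd hr
  obtain ⟨h6, h7⟩ := Pool.Agent.Y833.SX.SELI _ _ _ _ _ hd hr h1
  rw [s2] at h2
  refine ⟨⟨Finite.of_equiv _ h5.symm, (Nat.card_congr h5).trans h2⟩, ⟨h3, ?_⟩, ⟨h6, h7.trans h2⟩⟩
  rw [← h2, ← h4]
  ring

end Pool.Agent.NH3.XS
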