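import Mathlib
import Pool.Agent.NH3.XS.Stm

/-!
# XS-14 (SEL): the Selmer group is the product of the two factors
-/

set_option autoImplicit false
set_option linter.unusedVariables false

open scoped Classical

namespace Pool.Agent.NH3.XS

open Finset
open Pool.Agent.W307.SE (Loc Sel)
open Pool.Agent.NH4.XH (DB)

theorem sel_aux {a P Q b c : Prop} (h : ¬ a) :
    (¬ b ∧ ¬ c) ↔ ((a → P) ∧ (¬ a → ¬ b)) ∧ ((a → Q) ∧ (¬ a → ¬ c)) :=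
  ⟨fun h' => ⟨⟨fun k => absurd k h, fun _ => h'.1⟩, ⟨fun k => absurd k h, fun _ => h'.2⟩⟩,
    fun h' => ⟨h'.1.2 h, h'.2.2 h⟩⟩

theorem t_SEL : S_SEL := by
  intro hTOR hLA hLG hL3 hL5 hA1 hB1 hC1 hA2 hB2 hC2 hLR D hD
  obtain ⟨hneg, hsq, h3, h5⟩ := hD
  have hD0 : D ≠ 0 := hneg.ne
  have h4 : D % 4 = 1 ∨ D % 4 = 2 ∨ D % 4 = 3 := by
    have h : D % 4 ≠ 0 := by
      intro h
      have h' : (2 : ℤ) * 2 ∣ D := by
        rw [show (2 : ℤ) * 2 = 4 by norm_num]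
        exact Int.dvd_of_emod_eq_zero h
      have := hsq 2 h'
      rw [Int.isUnit_iff] at this
      omega
    omega
  have hnd3 : ¬ (3 : ℤ) ∣ D := by omega
  have hnd5 : ¬ (5 : ℤ) ∣ D := by omega
  have hsqp : ∀ (p : ℕ) [Fact p.Prime], ¬ (p : ℤ) ^ 2 ∣ D := by
    intro p hp h
    rw [pow_two] at h
    have := hsq _ h
    rw [Int.isUnit_iff] at this
    have := hp.out.one_lt
    omega
  have e2 : ∀ [Fact (Nat.Prime 2)] (d1 d3 : ℤ), Squarefree d1 → Squarefree d3 →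
      (Loc ℚ_[2] (25 * D) (9 * D) d1 d3 ↔ A2 D d1 ∧ C2 D d3) := by
    intro _ d1 d3 h1 h3
    rcases h4 with h | h | h
    · exact ⟨hA1 D d1 d3 h h1 h3, fun h' => hA2 D d1 d3 h h1 h3 h'.1 h'.2⟩
    · exact ⟨hC1 D d1 d3 h h1 h3, fun h' => hC2 D d1 d3 h h1 h3 h'.1 h'.2⟩
    · exact ⟨hB1 D d1 d3 h h1 h3, fun h' => hB2 D d1 d3 h h1 h3 h'.1 h'.2⟩
  -- the odd primes
  have eo : ∀ (p : ℕ) [Fact p.Prime] (d1 d3 : ℤ), p ≠ 2 → Squarefree d1 → Squarefree d3 →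
      (Loc ℚ_[p] (25 * D) (9 * D) d1 d3 ↔
        (((p : ℤ) ∣ D → H1 p D d1) ∧ (¬ (p : ℤ) ∣ D → ¬ (p : ℤ) ∣ d1)) ∧
        (((p : ℤ) ∣ D → H3 p D d3) ∧ (¬ (p : ℤ) ∣ D → ¬ (p : ℤ) ∣ d3))) := by
    intro p hp d1 d3 hp2 h1 h3'
    have n1 : d1 ≠ 0 := h1.ne_zero
    have n3 : d3 ≠ 0 := h3'.ne_zero
    by_cases hp3 : p = 3
    · subst hp3
      exact (hL3 D d1 d3 h3 h1 h3').trans (sel_aux hnd3)
    · by_cases hp5 : p = 5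
      · subst hp5
        exact (hL5 D d1 d3 h5 h1 h3').trans (sel_aux hnd5)
      · by_cases hpD : (p : ℤ) ∣ D
        · constructor
          · intro h
            obtain ⟨a, b⟩ := hLA p D d1 d3 hp2 hp3 hp5 hpD (hsqp p) n1 n3 h
            exact ⟨⟨fun _ => a, fun h => absurd hpD h⟩, ⟨fun _ => b, fun h => absurd hpD h⟩⟩
          · rintro ⟨⟨a, -⟩, ⟨b, -⟩⟩
            exact hTOR p D d1 d3 hD0 n1 n3 (a hpD) (b hpD)
        · exact (hLG p D d1 d3 hp2 hp3 hp5 hpD h1 h3').trans (sel_aux hpD)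
  ext ⟨d1, d3⟩
  constructor
  · rintro ⟨s1, s3, hR, hp⟩
    simp only at s1 s3 hR hp
    have : Fact (Nat.Prime 2) := ⟨Nat.prime_two⟩
    obtain ⟨a2, c2⟩ := (e2 d1 d3 s1 s3).1 (hp 2)
    refine ⟨⟨s1, a2, fun p _ hp2 => ((eo p d1 d3 hp2 s1 s3).1 (hp p)).1⟩,
      ⟨s3, (hLR D d1 d3 hneg s1.ne_zero s3.ne_zero).1 hR, c2,
        fun p _ hp2 => ((eo p d1 d3 hp2 s1 s3).1 (hp p)).2⟩⟩
  · rintro ⟨⟨s1, a2, ha⟩, ⟨s3, hpos, c2, hc⟩⟩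
    refine ⟨s1, s3, (hLR D d1 d3 hneg s1.ne_zero s3.ne_zero).2 hpos, fun p hp => ?_⟩
    by_cases hp2 : p = 2
    · subst hp2
      exact (e2 d1 d3 s1 s3).2 ⟨a2, c2⟩
    · exact (eo p d1 d3 hp2 s1 s3).2 ⟨ha p hp2, hc p hp2⟩

end Pool.Agent.NH3.XS
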