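import Pool.Agent.NH3.XS.Stm
import Pool.Agent.XR.Stm

/-!
# Project XS (helper3): the four-rank of the class group: statements
-/

set_option autoImplicit false

open scoped Classical

namespace Pool.Agent.NH3.XS

open Finset
open Pool.Agent.XR (Rn Nm)
open Pool.Agent.NH4.XG (nx Ram SolG)

/-- the classes in the principal genus of order at most two; their number is `2 ^ r`, `r` the four-rank -/
def G4 (K : Type) [Field K] [NumberField K] : Type :=
  {c : ClassGroup (NumberField.RingOfIntegers K) // c ^ 2 = 1 ∧ ∃ b, b ^ 2 = c}

/-- R4: the products of ramified primes which are norms -/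
def S_R4 : Prop := ∀ n : ℕ, Squarefree n → 1 < n → n ≠ 3 → ∀ (K : Type) [Field K] [NumberField K],
  Module.finrank ℚ K = 2 → (∃ a : K, a ^ 2 = ((-n : ℤ) : K)) →
  2 * Nat.card (G4 K) = ((Rn n).powerset.filter fun D => Nm n D).card

/-- NM: their number is the number of the elements of the kernel of the Redei matrix -/
def S_NM : Prop := ∀ n : ℕ, Squarefree n → ((Rn n).powerset.filter fun D => Nm n D).card =
  nx n.primeFactors

end Pool.Agent.NH3.XS
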