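import Pool.Agent.NH3.XS.Stm
import Pool.Agent.TH841.SH.Sel
import Pool.Agent.W554.HB.Type

/-!
# XS-2: the classes of the points of order two are local at every prime (helper72)
-/

set_option autoImplicit false

open scoped Classical

namespace Pool.Agent.NH3.XS

open Finset
open Pool.Agent.W307.SE (Loc Sel)

namespace TOR

variable {p : ℕ} [hp : Fact p.Prime]

/-- there are small elements -/
theorem ex_small {ε : ℝ} (hε : 0 < ε) : ∃ t : ℚ_[p], t ≠ 0 ∧ ‖t ^ 2‖ < ε := by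
  have hp0 : (p : ℚ_[p]) ≠ 0 := by
    exact_mod_cast hp.out.ne_zero
  have h1 : ‖(p : ℚ_[p])‖ < 1 := Padic.norm_p_lt_one
  obtain ⟨n, hn⟩ := exists_pow_lt_of_lt_one hε h1
  refine ⟨(p : ℚ_[p]) ^ n, pow_ne_zero _ hp0, ?_⟩
  rw [norm_pow, norm_pow]
  have h2 : ‖(p : ℚ_[p])‖ ^ n ≤ 1 := pow_le_one₀ (norm_nonneg _) h1.le
  have h3 : 0 ≤ ‖(p : ℚ_[p])‖ ^ n := by positivity
  nlinarith

theorem norm_le_one_nat (k : ℕ) : ‖(k : ℚ_[p])‖ ≤ 1 := by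
  have := Padic.norm_int_le_one (p := p) (k : ℤ)
  simpa using this

/-- the square factor -/
theorem fac {D t : ℚ_[p]} (hD : D ≠ 0) (ht : ‖t ^ 2‖ < ‖(4 : ℚ_[p])‖ * ‖3600 * D‖) (s c : ℚ_[p])
    (hs : s = 1 ∨ s = -1) (hc : c = 9 ∨ c = 25 ∨ c = 16 ∨ c = -9 ∨ c = -25 ∨ c = -16) :
    ∃ u : ℚ_[p], u ≠ 0 ∧ c * D + s * t ^ 2 = c * D * u ^ 2 := by
  have hc0 : c ≠ 0 := by
    rcases hc with rfl | rfl | rfl | rfl | rfl | rfl <;> norm_num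
  have h1 : ‖3600 * D‖ ≤ ‖c * D‖ := by
    obtain ⟨k, hk⟩ : ∃ k : ℕ, ‖(3600 : ℚ_[p])‖ = ‖(k : ℚ_[p])‖ * ‖c‖ := by
      rcases hc with rfl | rfl | rfl | rfl | rfl | rfl
      · refine ⟨400, ?_⟩
        rw [← norm_mul]; norm_num
      · refine ⟨144, ?_⟩
        rw [← norm_mul]; norm_num
      · refine ⟨225, ?_⟩
        rw [← norm_mul]; norm_num
      · refine ⟨400, ?_⟩
        rw [norm_neg, ← norm_mul]; norm_num
      · refine ⟨144, ?_⟩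
        rw [norm_neg, ← norm_mul]; norm_num
      · refine ⟨225, ?_⟩
        rw [norm_neg, ← norm_mul]; norm_num
    rw [norm_mul, norm_mul, hk]
    have h2 := norm_le_one_nat (p := p) k
    have h3 : ‖(k : ℚ_[p])‖ * ‖c‖ ≤ 1 * ‖c‖ := mul_le_mul_of_nonneg_right h2 (norm_nonneg _)
    rw [one_mul] at h3
    exact mul_le_mul_of_nonneg_right h3 (norm_nonneg _)
  have h4 : ‖(c * D + s * t ^ 2) - c * D‖ < ‖(4 : ℚ_[p])‖ * ‖c * D‖ := by
    have e : ‖(c * D + s * t ^ 2) - c * D‖ = ‖t ^ 2‖ := by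
      rcases hs with rfl | rfl
      · congr 1
        ring
      · rw [show c * D + -1 * t ^ 2 - c * D = -(t ^ 2) by ring, norm_neg]
    rw [e]
    exact ht.trans_le (mul_le_mul_of_nonneg_left h1 (norm_nonneg _))
  obtain ⟨u, hu, h5⟩ := Pool.Agent.W554.HB.near (mul_ne_zero hc0 hD) h4
  exact ⟨u, hu, h5⟩

end TOR

open TOR in
theorem t_TOR : S_TOR := by
  intro p hp D d1 d3 hD hd1 hd3 h1 h3
  have hD' : (D : ℚ_[p]) ≠ 0 := by exact_mod_cast hD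
  have h4 : 0 < ‖(4 : ℚ_[p])‖ * ‖3600 * (D : ℚ_[p])‖ :=
    mul_pos (norm_pos_iff.2 (by norm_num)) (norm_pos_iff.2 (mul_ne_zero (by norm_num) hD'))
  obtain ⟨t, ht0, ht⟩ := ex_small (p := p) h4
  rcases h1 with ⟨r, hr⟩ | ⟨r, hr⟩ <;> rcases h3 with ⟨q, hq⟩ | ⟨q, hq⟩
  · obtain ⟨x, y, hy, hxy, ⟨a, ha⟩, ⟨b, hb⟩, -⟩ :=
      Pool.Agent.TH841.SH.pt_pad p 0 (25 * D) (9 * D)
    rw [Int.cast_zero, sub_zero] at hxy ha
    refine ⟨x, y, hy, hxy, ⟨a * r, ?_⟩, ⟨b * q, ?_⟩⟩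
    · rw [ha, hr]
      ring
    · rw [hb, hq]
      ring
  · obtain ⟨u, hu0, hu⟩ := fac hD' ht 1 (-25) (Or.inl rfl) (by simp)
    obtain ⟨v, hv0, hv⟩ := fac hD' ht 1 (-9) (Or.inl rfl) (by simp)
    refine ⟨t ^ 2, 15 * t * D * u * v, ?_, ?_, ⟨t * r, ?_⟩, ⟨5 * u * q, ?_⟩⟩
    · exact mul_ne_zero (mul_ne_zero (mul_ne_zero (mul_ne_zero (by norm_num) ht0) hD') hu0) hv0
    · have e1 : t ^ 2 - ((25 * D : ℤ) : ℚ_[p]) = -25 * D * u ^ 2 := by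
        rw [← hu]; push_cast; ring
      have e2 : t ^ 2 - ((9 * D : ℤ) : ℚ_[p]) = -9 * D * v ^ 2 := by
        rw [← hv]; push_cast; ring
      rw [e1, e2]
      ring
    · rw [hr]
      ring
    · have e1 : t ^ 2 - ((25 * D : ℤ) : ℚ_[p]) = -25 * D * u ^ 2 := by
        rw [← hu]; push_cast; ring
      rw [e1]
      push_cast at hq
      linear_combination 25 * u ^ 2 * hq
  · obtain ⟨u, hu0, hu⟩ := fac hD' ht 1 25 (Or.inl rfl) (by simp)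
    obtain ⟨v, hv0, hv⟩ := fac hD' ht 1 16 (Or.inl rfl) (by simp)
    refine ⟨25 * D + t ^ 2, 20 * t * D * u * v, ?_, ?_, ⟨5 * u * r, ?_⟩, ⟨t * q, ?_⟩⟩
    · exact mul_ne_zero (mul_ne_zero (mul_ne_zero (mul_ne_zero (by norm_num) ht0) hD') hu0) hv0
    · have e1 : 25 * (D : ℚ_[p]) + t ^ 2 = 25 * D * u ^ 2 := by
        rw [← hu]; ring
      have e2 : 25 * (D : ℚ_[p]) + t ^ 2 - ((25 * D : ℤ) : ℚ_[p]) = t ^ 2 := by
        push_cast; ring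
      have e3 : 25 * (D : ℚ_[p]) + t ^ 2 - ((9 * D : ℤ) : ℚ_[p]) = 16 * D * v ^ 2 := by
        rw [← hv]; push_cast; ring
      rw [e3, e2, e1]
      ring
    · have e1 : 25 * (D : ℚ_[p]) + t ^ 2 = 25 * D * u ^ 2 := by
        rw [← hu]; ring
      rw [e1]
      push_cast at hr
      linear_combination 25 * u ^ 2 * hr
    · have e2 : 25 * (D : ℚ_[p]) + t ^ 2 - ((25 * D : ℤ) : ℚ_[p]) = t ^ 2 := by
        push_cast; ring
      rw [e2, hq]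
      ring
  · obtain ⟨u, hu0, hu⟩ := fac hD' ht (-1) 9 (Or.inr rfl) (by simp)
    obtain ⟨v, hv0, hv⟩ := fac hD' ht (-1) (-16) (Or.inr rfl) (by simp)
    refine ⟨9 * D - t ^ 2, 12 * t * D * u * v, ?_, ?_, ⟨3 * u * r, ?_⟩, ⟨4 * v * q, ?_⟩⟩
    · exact mul_ne_zero (mul_ne_zero (mul_ne_zero (mul_ne_zero (by norm_num) ht0) hD') hu0) hv0
    · have e1 : 9 * (D : ℚ_[p]) - t ^ 2 = 9 * D * u ^ 2 := by
        rw [← hu]; ring
      have e2 : 9 * (D : ℚ_[p]) - t ^ 2 - ((25 * D : ℤ) : ℚ_[p]) = -16 * D * v ^ 2 := by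
        rw [← hv]; push_cast; ring
      have e3 : 9 * (D : ℚ_[p]) - t ^ 2 - ((9 * D : ℤ) : ℚ_[p]) = -t ^ 2 := by
        push_cast; ring
      rw [e3, e2, e1]
      ring
    · have e1 : 9 * (D : ℚ_[p]) - t ^ 2 = 9 * D * u ^ 2 := by
        rw [← hu]; ring
      rw [e1]
      push_cast at hr
      linear_combination 9 * u ^ 2 * hr
    · have e2 : 9 * (D : ℚ_[p]) - t ^ 2 - ((25 * D : ℤ) : ℚ_[p]) = -16 * D * v ^ 2 := by
        rw [← hv]; push_cast; ring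
      rw [e2]
      push_cast at hq
      linear_combination 16 * v ^ 2 * hq

end Pool.Agent.NH3.XS
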